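import Mathlib

open MvPolynomial
open scoped IntermediateField.algebraAdjoinAdjoin

noncomputable section

namespace Pool.Agent.Lib.MP_3c72fe_ag

/-- Derivations over the integers. -/
abbrev ZD (A : Type) [CommRing A] : Type := Derivation ℤ A A

lemma exists_ext {R E : Type} [CommRing R] [Field E] [Algebra R E] [Algebra.FormallySmooth R E]
    (d : R →+ E) (hd : ∀ a b, d (a * b) = algebraMap R E a * d b + algebraMap R E b * d a) :
    ∃ δ : ZD E, ∀ r, δ (algebraMap R E r) = d r := by
  have h1 : d 1 = 0 := by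
    have := hd 1 1
    simp only [mul_one, map_one, one_mul] at this
    exact left_eq_add.1 this
  let ψ : R →+* TrivSqZeroExt E E :=
    { toFun := fun r => TrivSqZeroExt.inl (algebraMap R E r) + TrivSqZeroExt.inr (d r)
      map_one' := by simp [h1]
      map_mul' := fun a b => by
        ext
        · simp
        · simp [hd, mul_comm]
      map_zero' := by simp
      map_add' := fun a b => by
        ext <;> simp }
  letI : Algebra R (TrivSqZeroExt E E) := ψ.toAlgebra
  let g : TrivSqZeroExt E E →ₐ[R] E :=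
    { (TrivSqZeroExt.fstHom E E E).toRingHom with
      commutes' := fun r => by
        change (ψ r).fst = _
        simp [ψ] }
  have hg : Function.Surjective g := fun e => ⟨TrivSqZeroExt.inl e, rfl⟩
  have hn : IsNilpotent (RingHom.ker (g : TrivSqZeroExt E E →+* E)) := by
    refine ⟨2, ?_⟩
    rw [Submodule.pow_succ, Submodule.pow_one, Ideal.zero_eq_bot, eq_bot_iff, Ideal.mul_le]
    intro a ha b hb
    have ha' : a.fst = 0 := ha
    have hb' : b.fst = 0 := hb
    rw [Ideal.mem_bot]
    ext <;> simp [ha', hb']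
  let s := Algebra.FormallySmooth.liftOfSurjective (AlgHom.id R E) g hg hn
  have hs : ∀ e, (s e).fst = e := fun e =>
    Algebra.FormallySmooth.liftOfSurjective_apply (AlgHom.id R E) g hg hn e
  let D : E →+ E :=
    { toFun := fun e => (s e).snd
      map_zero' := by simp
      map_add' := fun a b => by simp }
  refine ⟨Derivation.mk' D.toIntLinearMap fun a b => ?_, fun r => ?_⟩
  · change (s (a * b)).snd = a • (s b).snd + b • (s a).snd
    rw [map_mul, TrivSqZeroExt.snd_mul, hs, hs]
    simp [mul_comm]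
  · change (s (algebraMap R E r)).snd = _
    rw [s.commutes]
    change (ψ r).snd = _
    simp [ψ]

lemma fs_field (F E : Type) [Field F] [Field E] [Algebra F E] [CharZero F] :
    Algebra.FormallySmooth F E := by
  obtain ⟨B, hB⟩ := exists_isTranscendenceBasis F E
  haveI := hB.isAlgebraic_field
  haveI : CharZero (IntermediateField.adjoin F (Set.range ((↑) : B → E))) :=
    algebraRat.charZero _
  exact .of_algebraicIndependent_of_isSeparable hB.1

lemma exists_ext_field {K : Type} [Field K] [Algebra ℂ K] (δ : ZD ℂ) :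
    ∃ δ' : ZD K, ∀ c, δ' (algebraMap ℂ K c) = algebraMap ℂ K (δ c) := by
  haveI := fs_field ℂ K
  exact exists_ext ((algebraMap ℂ K).toAddMonoidHom.comp δ.toLinearMap.toAddMonoidHom)
    fun a b => by simp [δ.leibniz]

/-- Every infinitesimal motion of the points is realised by a derivation of the constants. -/
def VG {ι : Type} (p : ι → Fin 2 → ℂ) : Prop :=
  ∀ v : ι → Fin 2 → ℂ, ∃ δ : ZD ℂ, ∀ i k, δ (p i k) = v i k

lemma exists_der_of_ai {σ : Type} {q : σ → ℂ} (hq : AlgebraicIndependent ℚ q) (v : σ → ℂ) :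
    ∃ δ : ZD ℂ, ∀ s, δ (q s) = v s := by
  let R := Algebra.adjoin ℚ (Set.range q)
  let F := IntermediateField.adjoin ℚ (Set.range q)
  haveI : Algebra.FormallySmooth R F := .of_isLocalization (nonZeroDivisors _)
  haveI := fs_field F ℂ
  haveI : Algebra.FormallySmooth R ℂ := .comp R F ℂ
  letI : Algebra (MvPolynomial σ ℚ) ℂ := (aeval q).toRingHom.toAlgebra
  haveI : IsScalarTower ℚ (MvPolynomial σ ℚ) ℂ := IsScalarTower.of_algebraMap_eq fun r => by
    change _ = aeval q (C r)
    simp
  let D := mkDerivation ℚ v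
  let e := hq.aevalEquiv
  have he : ∀ a : R, algebraMap R ℂ a = aeval q (e.symm a) := fun a => by
    conv_lhs => rw [← e.apply_symm_apply a]
    exact hq.algebraMap_aevalEquiv _
  obtain ⟨δ, hδ⟩ := exists_ext (R := R) (E := ℂ)
    (D.toLinearMap.toAddMonoidHom.comp e.symm.toRingEquiv.toAddEquiv.toAddMonoidHom)
    fun a b => by
      change D (e.symm (a * b)) = _ * D (e.symm b) + _ * D (e.symm a)
      rw [map_mul, D.leibniz, he, he]
      rfl
  refine ⟨δ, fun s => ?_⟩
  have := hδ (e (X s))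
  rw [he, e.symm_apply_apply, aeval_X] at this
  rw [this]
  change D (e.symm (e (X s))) = _
  rw [e.symm_apply_apply]
  exact mkDerivation_X _ _ _

lemma vg_of_ai {ι : Type} {p : ι → Fin 2 → ℂ}
    (h : AlgebraicIndependent ℚ fun ik : ι × Fin 2 => p ik.1 ik.2) : VG p := fun v => by
  obtain ⟨δ, hδ⟩ := exists_der_of_ai h fun ik => v ik.1 ik.2
  exact ⟨δ, fun i k => hδ (i, k)⟩

lemma VG.single {ι : Type} [DecidableEq ι] {p : ι → Fin 2 → ℂ} (h : VG p) (j : ι)
    (v : Fin 2 → ℂ) :
    ∃ δ : ZD ℂ, (∀ k, δ (p j k) = v k) ∧ ∀ i, i ≠ j → ∀ k, δ (p i k) = 0 := by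
  obtain ⟨δ, hδ⟩ := h (Pi.single j v)
  exact ⟨δ, fun k => by simp [hδ], fun i hi k => by simp [hδ, hi]⟩

lemma VG.of_ker {ι : Type} [Finite ι] {p p' : ι → Fin 2 → ℂ} (h : VG p)
    (hk : ∀ δ : ZD ℂ, (∀ i k, δ (p' i k) = 0) → ∀ i k, δ (p i k) = 0) : VG p' := by
  let Φ : (ι → Fin 2 → ℂ) → ZD ℂ →ₗ[ℂ] (ι → Fin 2 → ℂ) := fun q =>
    { toFun := fun δ i k => δ (q i k)
      map_add' := fun _ _ => rfl
      map_smul' := fun _ _ => rfl }
  have h1 : LinearMap.ker (Φ p') ≤ LinearMap.ker (Φ p) := fun δ hδ => by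
    ext i k
    exact hk δ (fun i k => congrFun (congrFun hδ i) k) i k
  let ψ := ((LinearMap.ker (Φ p')).liftQ (Φ p) h1).comp (Φ p').quotKerEquivRange.symm.toLinearMap
  have h2 : Function.Surjective ψ := fun v => by
    obtain ⟨δ, hδ⟩ := h v
    refine ⟨(Φ p').quotKerEquivRange (Submodule.Quotient.mk δ), ?_⟩
    simp only [ψ, LinearMap.comp_apply, LinearEquiv.coe_coe, LinearEquiv.symm_apply_apply,
      Submodule.liftQ_apply]
    ext i k
    exact hδ i k
  have h3 : LinearMap.range (Φ p') = ⊤ :=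
    Submodule.eq_top_of_finrank_eq (le_antisymm (Submodule.finrank_le _)
      (LinearMap.finrank_le_finrank_of_surjective h2))
  intro v
  obtain ⟨δ, hδ⟩ : v ∈ LinearMap.range (Φ p') := h3 ▸ Submodule.mem_top
  exact ⟨δ, fun i k => congrFun (congrFun hδ i) k⟩

lemma VG.ne {ι : Type} {p : ι → Fin 2 → ℂ} (h : VG p) {i j : ι} (hij : i ≠ j) (k : Fin 2) :
    p i k ≠ p j k := fun he => by
  classical
  obtain ⟨δ, h1, h2⟩ := h.single j fun _ => 1
  have := h2 i hij k
  rw [he, h1] at this
  exact one_ne_zero this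

end Pool.Agent.Lib.MP_3c72fe_ag
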