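import Pool.Agent.Lib.MP_3c72fe_ag.Cases

open Filter Set WithZero Module Finsupp IntermediateField MvPolynomial
open Pool.Agent.Lib.MP_cc3443_ag

noncomputable section

namespace Pool.Agent.Lib.MP_3c72fe_ag

lemma VG.eq_zero {ι : Type} [DecidableEq ι] {p : ι → Fin 2 → ℂ} (hp : VG p) (i : ι) {g : P2}
    (h : ∀ δ : ZD ℂ, (∀ j, j ≠ i → ∀ k, δ (p j k) = 0) → cd δ g = 0) (h0 : eval (p i) g = 0) :
    g = 0 := by
  have key : ∀ (n : ℕ) (g : P2), (∀ δ : ZD ℂ, (∀ j, j ≠ i → ∀ k, δ (p j k) = 0) → cd δ g = 0) →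
      eval (p i) g = 0 → g ∈ mi (p i) ^ n := by
    intro n
    induction n with
    | zero => simp
    | succ n ih =>
      intro g h h0
      refine mem_pow_succ (mem_mi.2 h0) fun k => ih _ (fun δ hδ => by
        rw [cd_pderiv, h δ hδ, map_zero]) ?_
      obtain ⟨δ, h1, h2⟩ := hp.single i (Pi.single k 1)
      have h3 := eval_cd δ (p i) g
      rw [h0, map_zero, h δ h2, zero_add] at h3
      fin_cases k <;> simpa [dv_apply, h1] using h3.symm
  by_contra hg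
  have := (mem_pow_iff hg).1 (key (mult (p i) g + 1) g h h0)
  omega

lemma cd_lin (δ : ZD ℂ) (a b e : ℂ) : cd δ (lin a b e) = lin (δ a) (δ b) (δ e) := by
  simp [lin, cd_C, cd_X, mul_comm]

lemma VG.det_ne {ι : Type} {p : ι → Fin 2 → ℂ} (hp : VG p) {a b e : ι} (hab : a ≠ b) (hae : a ≠ e)
    (hbe : b ≠ e) :
    (p b 1 - p e 1) * p a 0 + (p e 0 - p b 0) * p a 1 + (p b 0 * p e 1 - p b 1 * p e 0) ≠ 0 := by
  classical
  intro h
  have h1 := hp.eq_zero a (g := lin (p b 1 - p e 1) (p e 0 - p b 0) (p b 0 * p e 1 - p b 1 * p e 0))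
    (fun δ hδ => by rw [cd_lin]; simp [hδ b hab.symm, hδ e hae.symm, lin]) (by rwa [eval_lin])
  have h2 := eval_lin (p b 1 - p e 1) (p e 0 - p b 0) (p b 0 * p e 1 - p b 1 * p e 0) ![0, 0]
  have h3 := eval_lin (p b 1 - p e 1) (p e 0 - p b 0) (p b 0 * p e 1 - p b 1 * p e 0) ![0, 1]
  rw [h1] at h2 h3
  simp only [map_zero, Matrix.cons_val_zero, Matrix.cons_val_one] at h2 h3
  exact hp.ne hbe 0 (by linear_combination h3 - h2)

/-- Barycentric coordinates with respect to a triangle. -/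
structure Bary (q : Fin 3 → Fin 2 → ℂ) where
  L : Fin 3 → P2
  deg : ∀ i, (L i).totalDegree ≤ 1
  sum : L 0 + L 1 + L 2 = 1
  X_eq : ∀ k, X k = C (q 0 k) * L 0 + C (q 1 k) * L 1 + C (q 2 k) * L 2
  eval_eq : ∀ i j, eval (q j) (L i) = if i = j then 1 else 0

lemma exists_bary {q : Fin 3 → Fin 2 → ℂ}
    (h : (q 1 1 - q 2 1) * q 0 0 + (q 2 0 - q 1 0) * q 0 1 + (q 1 0 * q 2 1 - q 1 1 * q 2 0) ≠ 0) :
    Nonempty (Bary q) := by
  obtain ⟨e, he⟩ : ∃ e, e = (q 1 1 - q 2 1) * q 0 0 + (q 2 0 - q 1 0) * q 0 1 +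
    (q 1 0 * q 2 1 - q 1 1 * q 2 0) := ⟨_, rfl⟩
  rw [← he] at h
  let bc : (Fin 2 → ℂ) → (Fin 2 → ℂ) → P2 := fun v w =>
    lin ((v 1 - w 1) / e) ((w 0 - v 0) / e) ((v 0 * w 1 - v 1 * w 0) / e)
  refine ⟨⟨![bc (q 1) (q 2), bc (q 2) (q 0), bc (q 0) (q 1)], fun i => ?_, ?_, fun k => ?_,
    fun i j => ?_⟩⟩
  · fin_cases i <;> exact totalDegree_lin _ _ _
  · refine MvPolynomial.funext fun z => ?_
    simp [bc, eval_lin]
    field_simp
    rw [he]; ring
  · refine MvPolynomial.funext fun z => ?_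
    fin_cases k <;> simp [bc, eval_lin] <;> field_simp <;> rw [he] <;> ring
  · fin_cases i <;> fin_cases j <;> simp [bc, eval_lin] <;> field_simp <;>
      rw [he] <;> ring

/-- The standard quadratic involution in barycentric coordinates. -/
def inv3 {F : Type} [Field F] (l : Fin 3 → F) : Fin 3 → F :=
  ![l 1 * l 2 / (l 1 * l 2 + l 0 * l 2 + l 0 * l 1), l 0 * l 2 / (l 1 * l 2 + l 0 * l 2 + l 0 * l 1),
    l 0 * l 1 / (l 1 * l 2 + l 0 * l 2 + l 0 * l 1)]

lemma inv3_sum {F : Type} [Field F] {l : Fin 3 → F} (h : l 1 * l 2 + l 0 * l 2 + l 0 * l 1 ≠ 0) :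
    inv3 l 0 + inv3 l 1 + inv3 l 2 = 1 := by
  simp only [inv3, Matrix.cons_val_zero, Matrix.cons_val_one, Matrix.cons_val]
  rw [← add_div, ← add_div, div_self h]

lemma inv3_inv3 {F : Type} [Field F] {l : Fin 3 → F} (h : l 1 * l 2 + l 0 * l 2 + l 0 * l 1 ≠ 0)
    (h0 : ∀ i, l i ≠ 0) (h1 : l 0 + l 1 + l 2 = 1) : inv3 (inv3 l) = l := by
  obtain ⟨s, hs⟩ : ∃ s, s = l 1 * l 2 + l 0 * l 2 + l 0 * l 1 := ⟨_, rfl⟩
  have h2 : inv3 l 1 * inv3 l 2 + inv3 l 0 * inv3 l 2 + inv3 l 0 * inv3 l 1 =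
      l 0 * l 1 * l 2 / s ^ 2 := by
    simp only [inv3, Matrix.cons_val_zero, Matrix.cons_val_one, Matrix.cons_val, ← hs]
    rw [← hs] at h
    field_simp
    linear_combination (l 0 * l 1 * l 2) * h1
  rw [inv3, h2]
  have := h0 0
  have := h0 1
  have := h0 2
  rw [← hs] at h
  ext i
  fin_cases i <;> simp [inv3, ← hs] <;> field_simp

lemma inv3_mem {F : Type} [Field F] {l : Fin 3 → F} {M : Subfield F} (h : ∀ i, l i ∈ M) (i : Fin 3) :
    inv3 l i ∈ M := by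
  have h1 := add_mem (add_mem (mul_mem (h 1) (h 2)) (mul_mem (h 0) (h 2))) (mul_mem (h 0) (h 1))
  fin_cases i <;> exact div_mem (mul_mem (h _) (h _)) h1

namespace Bary

variable {q : Fin 3 → Fin 2 → ℂ} (B : Bary q)

lemma interp {g : P2} (hg : g.totalDegree ≤ 1) :
    g = C (eval (q 0) g) * B.L 0 + C (eval (q 1) g) * B.L 1 + C (eval (q 2) g) * B.L 2 := by
  rw [eq_lin hg]
  simp only [eval_lin, map_add, map_mul]
  rw [lin]
  linear_combination (C (coeff (single 0 1) g) : P2) * B.X_eq 0 +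
    (C (coeff (single 1 1) g) : P2) * B.X_eq 1 - (C (coeff 0 g) : P2) * B.sum

lemma cd_L {δ : ZD ℂ} (h : ∀ i k, δ (q i k) = 0) (i : Fin 3) : cd δ (B.L i) = 0 := by
  have h1 : ∀ j, eval (q j) (cd δ (B.L i)) = 0 := fun j => by
    have := eval_cd δ (q j) (B.L i)
    rw [B.eval_eq] at this
    simp only [dv_apply, h, zero_smul, add_zero] at this
    rw [← this]
    split_ifs <;> simp
  rw [B.interp ((totalDegree_cd δ _).trans (B.deg i))]
  simp [h1]

variable {F : Type} [Field F] [Algebra ℂ F]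

/-- Barycentric coordinates of a point. -/
def co (z : Fin 2 → F) (i : Fin 3) : F := aeval z (B.L i)

lemma co_sum (z : Fin 2 → F) : B.co z 0 + B.co z 1 + B.co z 2 = 1 := by
  simpa [co] using congrArg (aeval z) B.sum

lemma eq_co (z : Fin 2 → F) (k : Fin 2) :
    z k = q 0 k • B.co z 0 + q 1 k • B.co z 1 + q 2 k • B.co z 2 := by
  simpa [co, Algebra.smul_def] using congrArg (aeval z) (B.X_eq k)

lemma co_eq {l : Fin 3 → F} (h : l 0 + l 1 + l 2 = 1) :
    B.co (fun k => q 0 k • l 0 + q 1 k • l 1 + q 2 k • l 2) = l := by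
  ext i
  have h1 : ∀ j, algebraMap ℂ F (eval (q j) (B.L i)) = if i = j then 1 else 0 := fun j => by
    rw [B.eval_eq]; split_ifs <;> simp
  have h2 : B.co (fun k => q 0 k • l 0 + q 1 k • l 1 + q 2 k • l 2) i =
      algebraMap ℂ F (eval (q 0) (B.L i)) * l 0 + algebraMap ℂ F (eval (q 1) (B.L i)) * l 1 +
        algebraMap ℂ F (eval (q 2) (B.L i)) * l 2 := by
    rw [co, eq_lin (B.deg i)]
    simp only [lin, map_add, map_mul, aeval_C, aeval_X, eval_C, eval_X, Algebra.smul_def]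
    linear_combination (-algebraMap ℂ F (coeff 0 (B.L i))) * h
  rw [h2, h1, h1, h1]
  fin_cases i <;> simp

/-- The Cremona transformation centred at the triangle. -/
def cr (z : Fin 2 → F) : Fin 2 → F :=
  fun k => q 0 k • inv3 (B.co z) 0 + q 1 k • inv3 (B.co z) 1 + q 2 k • inv3 (B.co z) 2

/-- The conic contracted to the line at infinity. -/
def G : P2 := B.L 1 * B.L 2 + B.L 0 * B.L 2 + B.L 0 * B.L 1

lemma G_ne : B.G ≠ 0 := fun h => by
  have h1 := B.co_eq (F := ℂ) (l := fun _ => 1 / 3) (by norm_num)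
  have h2 := congrArg (aeval fun k => q 0 k • (1 / 3 : ℂ) + q 1 k • (1 / 3 : ℂ) + q 2 k • (1 / 3 : ℂ)) h
  have h3 := congrFun h1
  simp only [co] at h3
  simp only [G, map_add, map_mul, h3, map_zero] at h2
  norm_num at h2

lemma L_ne (i : Fin 3) : B.L i ≠ 0 := fun h => by simpa [h] using B.eval_eq i i

lemma deg_G : B.G.totalDegree ≤ 2 := by
  have h : ∀ i j, (B.L i * B.L j).totalDegree ≤ 2 := fun i j =>
    (totalDegree_mul _ _).trans (add_le_add (B.deg i) (B.deg j))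
  exact (totalDegree_add _ _).trans (max_le ((totalDegree_add _ _).trans (max_le (h _ _) (h _ _)))
    (h _ _))

lemma aeval_G (z : Fin 2 → F) :
    aeval z B.G = B.co z 1 * B.co z 2 + B.co z 0 * B.co z 2 + B.co z 0 * B.co z 1 := by
  simp [G, co]

lemma co_cr {z : Fin 2 → F} (h : aeval z B.G ≠ 0) : B.co (B.cr z) = inv3 (B.co z) :=
  B.co_eq (inv3_sum (by rwa [← aeval_G]))

lemma mem_of_cr {z : Fin 2 → F} (h : aeval z B.G ≠ 0) (h0 : ∀ i, B.co z i ≠ 0) {M : Subfield F}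
    (hq : ∀ i k, algebraMap ℂ F (q i k) ∈ M) (hM : ∀ i, B.co (B.cr z) i ∈ M) (k : Fin 2) :
    z k ∈ M := by
  have h1 := inv3_mem hM
  rw [B.co_cr h, inv3_inv3 (by rwa [← aeval_G]) h0 (B.co_sum z)] at h1
  rw [B.eq_co z k]
  simp only [Algebra.smul_def]
  exact add_mem (add_mem (mul_mem (hq _ _) (h1 _)) (mul_mem (hq _ _) (h1 _)))
    (mul_mem (hq _ _) (h1 _))

end Bary

/-- Constants of a derivation. -/
def cst (δ : ZD ℂ) : Subfield ℂ where
  carrier := {z | δ z = 0}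
  mul_mem' := fun {a b} ha hb => by
    simp only [mem_ofPred_eq] at ha hb ⊢
    simp [ha, hb]
  one_mem' := by simp
  add_mem' := fun {a b} ha hb => by
    simp only [mem_ofPred_eq] at ha hb ⊢
    simp [ha, hb]
  zero_mem' := by simp
  neg_mem' := fun {a} ha => by
    simp only [mem_ofPred_eq] at ha ⊢
    simp [ha]
  inv_mem' := fun a ha => by
    simp only [mem_ofPred_eq] at ha ⊢
    simp [δ.leibniz_inv, ha]

end Pool.Agent.Lib.MP_3c72fe_ag
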