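import Pool.Agent.Lib.MP_3c72fe_ag.Mk

open Filter Set WithZero Module Finsupp IntermediateField MvPolynomial
open Pool.Agent.Lib.MP_cc3443_ag

noncomputable section

namespace Pool.Agent.Lib.MP_3c72fe_ag

abbrev P3 : Type := MvPolynomial (Fin 3) ℂ

lemma exists_countable (r : ℕ) : ∃ S : Set (MvPolynomial (Fin r × Fin 2) ℂ), S.Countable ∧
    (0 : MvPolynomial (Fin r × Fin 2) ℂ) ∉ S ∧ ∀ p : Fin r → Fin 2 → ℂ,
      (∀ g ∈ S, eval (fun ij : Fin r × Fin 2 => p ij.1 ij.2) g ≠ 0) → VG p := by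
  haveI : Countable (MvPolynomial (Fin r × Fin 2) ℚ) :=
    Cardinal.mk_le_aleph0_iff.1 (cardinalMk_le_max.trans
      (max_le (max_le Cardinal.mk_le_aleph0 Cardinal.mk_le_aleph0) le_rfl))
  refine ⟨map (algebraMap ℚ ℂ) '' {g | g ≠ 0}, (Set.to_countable _).image _, ?_, fun p hp => ?_⟩
  · rintro ⟨g, hg, h⟩
    exact hg (map_injective _ (algebraMap ℚ ℂ).injective (by simpa using h))
  · refine vg_of_ai (algebraicIndependent_iff.2 fun g hg => ?_)
    by_contra h
    exact hp _ ⟨g, h, rfl⟩ (by rwa [eval_map, ← aeval_def])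

/-- Dehomogenisation. -/
def dh : P3 →ₐ[ℂ] P2 := aeval ![X 0, X 1, 1]

/-- The homogeneous ideal of a point of the affine chart. -/
def hi (q : Fin 2 → ℂ) : Ideal P3 := Ideal.span {X 0 - C (q 0) * X 2, X 1 - C (q 1) * X 2}

lemma aeval_dh {A : Type} [CommRing A] [Algebra ℂ A] (z : Fin 2 → A) (F : P3) :
    aeval z (dh F) = aeval ![z 0, z 1, 1] F := by
  have : (aeval z).comp dh = aeval ![z 0, z 1, 1] := by
    ext k : 1
    fin_cases k <;> simp [dh]
  exact AlgHom.congr_fun this F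

lemma aeval_smul_hom {A : Type} [CommRing A] [Algebra ℂ A] {F : P3} {d : ℕ}
    (hF : F.IsHomogeneous d) (a : A) (z : Fin 3 → A) :
    aeval (fun i => a * z i) F = a ^ d * aeval z F := by
  conv_lhs => rw [F.as_sum]
  conv_rhs => rw [F.as_sum]
  rw [map_sum, map_sum, Finset.mul_sum]
  refine Finset.sum_congr rfl fun s hs => ?_
  have h1 : s.degree = d := by
    by_contra h
    exact MvPolynomial.mem_support_iff.1 hs (hF.coeff_eq_zero h)
  rw [Finsupp.degree_eq_sum, Fin.sum_univ_three] at h1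
  rw [aeval_monomial, aeval_monomial, Finsupp.prod_fintype _ _ (by simp),
    Finsupp.prod_fintype _ _ (by simp), Fin.prod_univ_three, Fin.prod_univ_three, ← h1]
  ring

lemma dh_inj {F G : P3} {d : ℕ} (hF : F.IsHomogeneous d) (hG : G.IsHomogeneous d)
    (h : dh F = dh G) : F = G := by
  have h1 : X 2 * (F - G) = 0 := MvPolynomial.funext fun z => by
    by_cases h0 : z 2 = 0
    · simp [h0]
    have h2 := aeval_smul_hom (hF.sub hG) (z 2) ![z 0 / z 2, z 1 / z 2, 1]
    have h3 := aeval_dh ![z 0 / z 2, z 1 / z 2] (F - G)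
    have h4 : (fun i => z 2 * ![z 0 / z 2, z 1 / z 2, 1] i) = z := by
      ext i; fin_cases i <;> simp <;> field_simp
    rw [map_sub dh, h, sub_self, map_zero] at h3
    simp only [Matrix.cons_val_zero, Matrix.cons_val_one] at h3
    rw [h4, ← h3, mul_zero, aeval_eq_eval] at h2
    rw [map_mul, h2]; simp
  exact sub_eq_zero.1 ((mul_eq_zero.1 h1).resolve_left (X_ne_zero 2))

lemma exists_hom (q : Fin 2 → ℂ) {g : P2} {e n : ℕ} (he : g.totalDegree ≤ e) (hn : g ∈ mi q ^ n) :
    ∃ G : P3, G.IsHomogeneous e ∧ dh G = g ∧ G ∈ hi q ^ n := by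
  have h1 : ∀ (k : Fin 3) (a : ℂ), (X k - C a * X 2 : P3).IsHomogeneous 1 := fun k a =>
    (isHomogeneous_X ℂ k).sub (isHomogeneous_C_mul_X a 2)
  rw [← totalDegree_tr q] at he
  refine ⟨∑ s ∈ (tr q g).support, C (coeff s (tr q g)) * ((X 0 - C (q 0) * X 2) ^ s 0 *
    (X 1 - C (q 1) * X 2) ^ s 1 * X 2 ^ (e - (s 0 + s 1))), ?_, ?_, ?_⟩
  · refine IsHomogeneous.sum _ _ _ fun s hs => IsHomogeneous.C_mul ?_ _
    have h2 := (le_totalDegree hs).trans he
    rw [Finsupp.sum_fintype _ _ (by simp), Fin.sum_univ_two] at h2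
    convert (((h1 0 _).pow (s 0)).mul ((h1 1 _).pow (s 1))).mul
      (isHomogeneous_X_pow 2 (e - (s 0 + s 1))) using 1
    omega
  · conv_rhs => rw [← tr_tr q g, (tr q g).as_sum]
    rw [map_sum, map_sum]
    refine Finset.sum_congr rfl fun s _ => ?_
    rw [tr, tr, aeval_monomial, Finsupp.prod_fintype _ _ (by simp), Fin.prod_univ_two]
    simp [dh, sub_eq_add_neg]
  · refine sum_mem fun s hs => Ideal.mul_mem_left _ _ (Ideal.mul_mem_right _ _ ?_)
    have h2 : n ≤ s 0 + s 1 := by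
      by_contra h
      exact MvPolynomial.mem_support_iff.1 hs (mem_pow_iff_tr.1 hn s (by rw [degree_two]; omega))
    refine Ideal.pow_le_pow_right h2 ?_
    rw [pow_add]
    exact Ideal.mul_mem_mul (Ideal.pow_mem_pow (Ideal.subset_span (by simp)) _)
      (Ideal.pow_mem_pow (Ideal.subset_span (by simp)) _)

lemma dh_mem {q : Fin 2 → ℂ} {F : P3} {n : ℕ} (h : F ∈ hi q ^ n) : dh F ∈ mi q ^ n := by
  have h1 : (hi q).map dh ≤ mi q := by
    rw [hi, Ideal.map_span, Ideal.span_le]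
    rintro _ ⟨_, rfl | rfl, rfl⟩
    · simpa [dh] using X_sub_mem q 0
    · simpa [dh] using X_sub_mem q 1
  refine Ideal.pow_right_mono h1 n ?_
  rw [← Ideal.map_pow]
  exact Ideal.mem_map_of_mem _ h

lemma totalDegree_dh {F : P3} {d : ℕ} (hF : F.IsHomogeneous d) : (dh F).totalDegree ≤ d := by
  rw [F.as_sum, map_sum]
  refine totalDegree_finsetSum_le fun s hs => ?_
  have h1 : s.degree = d := by
    by_contra h
    exact MvPolynomial.mem_support_iff.1 hs (hF.coeff_eq_zero h)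
  rw [Finsupp.degree_eq_sum, Fin.sum_univ_three] at h1
  rw [dh, aeval_monomial, Finsupp.prod_fintype _ _ (by simp), Fin.prod_univ_three]
  refine (totalDegree_mul _ _).trans ?_
  have := totalDegree_mul (X 0 ^ s 0 : P2) (X 1 ^ s 1)
  simp at this ⊢
  omega

/-- The curve has a nonconstant rational parametrization. -/
def Param (F : P3) : Prop :=
  ∃ a b c : Polynomial ℂ, aeval (![a, b, c] : Fin 3 → Polynomial ℂ) F = 0 ∧ ∃ t₁ t₂ : ℂ,
    (a.eval t₁ * b.eval t₂ - b.eval t₁ * a.eval t₂ ≠ 0 ∨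
      a.eval t₁ * c.eval t₂ - c.eval t₁ * a.eval t₂ ≠ 0 ∨
      b.eval t₁ * c.eval t₂ - c.eval t₁ * b.eval t₂ ≠ 0)

section
variable {F : P3} {d : ℕ} (hF : F.IsHomogeneous d) (hi' : Irreducible F) (hp : ¬ Param F)
include hF hi' hp

lemma totalDegree_dh_eq : (dh F).totalDegree = d := by
  by_contra h
  have h1 := totalDegree_dh hF
  obtain ⟨G, hG, h2, -⟩ := exists_hom 0 (g := dh F) (n := 0) le_rfl (by simp)
  have h3 := dh_inj (((isHomogeneous_X_pow 2 (d - (dh F).totalDegree))).mul hG)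
    (by rwa [Nat.sub_add_cancel h1]) (by rw [map_mul, h2]; simp [dh])
  refine hp ⟨1, Polynomial.X, 0, ?_, 0, 1, by simp⟩
  rw [← h3, map_mul, map_pow]
  simp [show d - (dh F).totalDegree ≠ 0 by omega]

lemma two_le_degree : 2 ≤ d := by
  have h1 := totalDegree_dh_eq hF hi' hp
  by_contra h
  by_cases h0 : d = 0
  · subst h0
    have h2 := totalDegree_eq_zero_iff_eq_C.1 (Nat.le_zero.1 hF.totalDegree_le)
    have h3 := hi'.ne_zero
    have h4 := hi'.not_isUnit
    rw [h2] at h3 h4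
    exact h4 ((IsUnit.mk0 _ (by simpa using h3)).map C)
  obtain ⟨a, b, e, h2⟩ : ∃ a b e, dh F = lin a b e := ⟨_, _, _, eq_lin (by omega)⟩
  by_cases ha : a = 0
  · have hb : b ≠ 0 := by
      rintro rfl
      rw [h2, ha] at h1
      simp [lin] at h1
      omega
    refine hp ⟨Polynomial.X, Polynomial.C (-e / b), 1, ?_, 0, 1, by simp⟩
    have := aeval_dh ![Polynomial.X, Polynomial.C (-e / b)] F
    simp only [Matrix.cons_val_zero, Matrix.cons_val_one] at this
    rw [← this, h2]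
    refine Polynomial.funext fun t => ?_
    simp [lin, ha]
    field_simp
    ring
  · refine hp ⟨Polynomial.C (-e / a) + Polynomial.C (-b / a) * Polynomial.X, Polynomial.X, 1, ?_,
      0, 1, by simp⟩
    have := aeval_dh ![Polynomial.C (-e / a) + Polynomial.C (-b / a) * Polynomial.X, Polynomial.X] F
    simp only [Matrix.cons_val_zero, Matrix.cons_val_one] at this
    rw [← this, h2]
    refine Polynomial.funext fun t => ?_
    simp [lin]
    field_simp
    ring

lemma prime_dh : Prime (dh F) := by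
  have h1 := totalDegree_dh_eq hF hi' hp
  have h2 := two_le_degree hF hi' hp
  have h0 : dh F ≠ 0 := fun h => by rw [h] at h1; simp at h1; omega
  refine Irreducible.prime ⟨fun h => ?_, fun g h hgh => ?_⟩
  · have := (isUnit_iff_totalDegree_of_isReduced.1 h).2
    omega
  · have hg : g ≠ 0 := by rintro rfl; exact h0 (by simpa using hgh)
    have hh : h ≠ 0 := by rintro rfl; exact h0 (by simpa using hgh)
    obtain ⟨G, hG, h3, -⟩ := exists_hom 0 (g := g) (n := 0) le_rfl (by simp)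
    obtain ⟨H, hH, h4, -⟩ := exists_hom 0 (g := h) (n := 0) le_rfl (by simp)
    have h5 := dh_inj (hG.mul hH) (by rwa [← totalDegree_mul_of_isDomain hg hh, ← hgh, h1])
      (by rw [map_mul, h3, h4, hgh])
    rw [← h3, ← h4]
    exact (hi'.isUnit_or_isUnit h5.symm).imp (·.map dh) (·.map dh)

lemma exists_model : ∃ (K : Type) (_ : Field K) (_ : Algebra ℂ K) (_ : IsFF K) (c : Crv K),
    NR K ∧ c.f.totalDegree = d ∧ ∀ q n, F ∈ hi q ^ n ↔ n ≤ mult q c.f := by
  have h1 := totalDegree_dh_eq hF hi' hp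
  obtain ⟨K, _, _, c, hc⟩ := exists_crv_of_prime (prime_dh hF hi' hp)
    (h1 ▸ two_le_degree hF hi' hp)
  haveI := c.isFF
  refine ⟨K, _, _, this, c, fun t ht => hp ?_, hc ▸ h1, fun q n => ?_⟩
  · have h2 : Transcendental ℂ t := by
      refine transc_of_not_const fun a ha => ?_
      have : c.ξ 0 ∈ ℂ⟮t⟯ := ht ▸ mem_top
      rw [ha, adjoin_simple_eq_bot_iff.2 (by simp), IntermediateField.mem_bot] at this
      obtain ⟨a, ha⟩ := this
      exact c.sub_ne 0 a (sub_eq_zero.2 ha.symm)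
    obtain ⟨a, e, ha⟩ := (mem_adjoin_simple_iff ℂ (c.ξ 0)).1 (ht ▸ mem_top : c.ξ 0 ∈ ℂ⟮t⟯)
    obtain ⟨b, e', hb⟩ := (mem_adjoin_simple_iff ℂ (c.ξ 1)).1 (ht ▸ mem_top : c.ξ 1 ∈ ℂ⟮t⟯)
    have he : Polynomial.aeval t e ≠ 0 := fun h => c.ne_zero 0 (by simp [ha, h])
    have he' : Polynomial.aeval t e' ≠ 0 := fun h => c.ne_zero 1 (by simp [hb, h])
    refine ⟨a * e', b * e, e * e', ?_, ?_⟩
    · apply transcendental_iff_injective.1 h2
      have h3 := aeval_smul_hom hF (Polynomial.aeval t (e * e')) ![c.ξ 0, c.ξ 1, 1]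
      rw [← aeval_dh, ← hc, c.ev_f, mul_zero] at h3
      rw [map_zero, ← h3]
      refine (AlgHom.congr_fun (comp_aeval _ (Polynomial.aeval t)) F).trans ?_
      congr 2
      ext i
      fin_cases i <;> simp [ha, hb] <;> field_simp
    · have h3 : e * e' ≠ 0 := fun h => mul_ne_zero he he' (by rw [← map_mul, h, map_zero])
      obtain ⟨s, hs⟩ : ∃ s, (e * e').eval s ≠ 0 := by
        by_contra h
        push Not at h
        exact h3 (Polynomial.funext fun s => by simpa using h s)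
      by_contra h
      push Not at h
      have h4 : a * e' * Polynomial.C ((e * e').eval s) = e * e' * Polynomial.C ((a * e').eval s) :=
        Polynomial.funext fun s' => by simpa [sub_eq_zero] using (h s' s).2.1
      have h5 := congrArg (Polynomial.aeval t) h4
      simp only [map_mul, Polynomial.aeval_C] at h5
      refine c.sub_ne 0 ((a * e').eval s / (e * e').eval s) ?_
      have h6 : algebraMap ℂ K ((e * e').eval s) ≠ 0 := by simpa using hs
      rw [ha, map_div₀, sub_eq_zero, div_eq_div_iff he h6]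
      exact mul_left_cancel₀ he' (by linear_combination h5)
  · rw [← mem_pow_iff c.prime.ne_zero, hc]
    refine ⟨dh_mem, fun h => ?_⟩
    obtain ⟨G, hG, h3, h4⟩ := exists_hom q h1.le h
    rwa [← dh_inj hG hF h3]

end

end Pool.Agent.Lib.MP_3c72fe_ag
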