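import Pool.Agent.Lib.MP_3c72fe_ag.Sec

open Filter Set WithZero Module Finsupp IntermediateField MvPolynomial
open Pool.Agent.Lib.MP_cc3443_ag

noncomputable section

namespace Pool.Agent.Lib.MP_3c72fe_ag

variable {K : Type} [Field K] [Algebra ℂ K] [IsFF K]
variable {ι : Type} [Fintype ι] [DecidableEq ι] {p : ι → Fin 2 → ℂ}

lemma VG.inj (hp : VG p) : Function.Injective p := fun i i' h => by
  by_contra h'
  exact hp.ne h' 0 (by rw [h])

lemma VG.pair (hp : VG p) (j : ι) : ∃ δ δ' : ZD ℂ, (∀ k, δ (p j k) = ![1, 0] k) ∧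
    (∀ k, δ' (p j k) = ![0, 1] k) ∧ (∀ i, i ≠ j → ∀ k, δ (p i k) = 0) ∧
    ∀ i, i ≠ j → ∀ k, δ' (p i k) = 0 := by
  obtain ⟨δ, h1, h2⟩ := hp.single j ![1, 0]
  obtain ⟨δ', h3, h4⟩ := hp.single j ![0, 1]
  exact ⟨δ, δ', h1, h3, h2, h4⟩

lemma two_le_el {E : Place K →₀ ℤ} {s s' : K} (hs : s ∈ LL E) (hs' : s' ∈ LL E)
    (h : ∀ a b : ℂ, a • s + b • s' = 0 → a = 0 ∧ b = 0) : 2 ≤ el E := by
  simpa using card_le_el (v := ![s, s']) (LinearIndependent.pair_iff.2 h)
    (fun i => by fin_cases i <;> assumption)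

lemma NR.el_le_one (hK : NR K) {E : Place K →₀ ℤ} (h : degree E ≤ 1) : el E ≤ 1 := by
  by_contra h1
  have := hK.two_le_degree (E := E) (by omega)
  omega

namespace Crv

variable (c : Crv K)

lemma pair_indep {j : ι} (hj : 2 ≤ c.m p j) {δ δ' : ZD ℂ} (h1 : ∀ k, δ (p j k) = ![1, 0] k)
    (h2 : ∀ k, δ' (p j k) = ![0, 1] k) (a b : ℂ)
    (h : a • aeval c.ξ (cd δ c.f) + b • aeval c.ξ (cd δ' c.f) = 0) : a = 0 ∧ b = 0 := by
  have h3 := c.fix_of_ev (δ := a • δ + b • δ') (by simpa [cd_add, cd_smul] using h) hj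
  exact ⟨by simpa [h1, h2] using h3 0, by simpa [h1, h2] using h3 1⟩

/-- The gonality bound. -/
lemma two_le_add (hK : NR K) (hp : VG p) {j : ι} (hj : 2 ≤ c.m p j) :
    2 ≤ degree (c.A p) + c.m p j := by
  obtain ⟨δ, δ', h1, h2, h3, h4⟩ := hp.pair j
  have := hK.two_le_degree (two_le_el (c.sec_mem hp.inj (by omega) h3)
    (c.sec_mem hp.inj (by omega) h4) (c.pair_indep hj h1 h2))
  rwa [map_add, degree_D'] at this

lemma degree_cls_three (j : ι) : degree (c.cls p 3 (Function.update 1 j 0)) =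
    3 * c.d - ∑ i, (c.m p i : ℤ) + c.m p j := by
  rw [cls_update, map_add, degree_cls, map_zsmul, degree_D']
  simp [d, m]

/-- The canonical degree is bounded by the geometric genus. -/
lemma sum_le_chi (hK : NR K) (hp : VG p) {j : ι} (hj : 2 ≤ c.m p j) :
    ∑ i, (c.m p i : ℤ) - 3 * c.d ≤ -2 * chi K + c.m p j - 2 := by
  obtain ⟨δ, δ', h1, h2, h3, h4⟩ := hp.pair j
  obtain ⟨W, hW, hW'⟩ := c.equigeneric hp.inj (q := p j) (by simpa using c.f_mem j (n := 1) (by omega))
  have h5 : ∀ δ : ZD ℂ, (∀ i, i ≠ j → ∀ k, δ (p i k) = 0) →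
      aeval c.ξ (cd δ c.f) ∈ LL (W + c.cls p 3 (Function.update 1 j 0)) := fun δ hδ =>
    hW' δ _ fun i => by
      by_cases hi : i = j
      · simp [hi]
      · exact Or.inr ⟨by simp [hi], hδ i hi⟩
  have := hK.two_le_degree (two_le_el (h5 _ h3) (h5 _ h4) (c.pair_indep hj h1 h2))
  rw [map_add, degree_cls_three] at this
  omega

lemma le_add_D (E : Place K →₀ ℤ) (q : Fin 2 → ℂ) : E ≤ E + c.D q :=
  le_add_of_nonneg_right fun P => c.D_nonneg q P

lemma not_two_simple (hK : NR K) (hp : VG p) (hA : degree (c.A p) < 0) {i j : ι} (hij : i ≠ j)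
    (hi : c.m p i = 1) (hj : c.m p j = 1) : False := by
  obtain ⟨δ, h1, h2⟩ := c.exists_simple hp hi
  obtain ⟨δ', h3, h4⟩ := c.exists_simple hp hj
  have h5 := hK.two_le_degree (E := c.A p + c.D (p i) + c.D (p j)) (two_le_el
    (LL_mono (c.le_add_D _ _) (c.sec_mem hp.inj hi.ge h1))
    (LL_mono (by rw [add_right_comm]; exact c.le_add_D _ _) (c.sec_mem hp.inj hj.ge h3))
    fun a b h => by
      have h6 : c.f ∣ cd (a • δ + b • δ') c.f := (c.ker _).1 (by simpa [cd_add, cd_smul] using h)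
      have h7 := rigid_one h6 (p := p i) (by simpa using c.f_mem i hi.ge)
      have h8 := rigid_one h6 (p := p j) (by simpa using c.f_mem j hj.ge)
      simp only [dv_apply, map_add, smul_eval, Derivation.add_apply, Derivation.smul_apply,
        h3 i hij, h1 j hij.symm, smul_eq_mul] at h2 h4 h7 h8
      exact ⟨(mul_eq_zero.1 (by linear_combination h7)).resolve_right h2,
        (mul_eq_zero.1 (by linear_combination h8)).resolve_right h4⟩)
  rw [map_add, map_add, degree_D', degree_D', hi, hj] at h5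
  omega

lemma exists_pencil (hp : VG p) (hA : degree (c.A p) = -1) {j : ι} (hj : c.m p j = 3) :
    ∃ (η : Place K →₀ ℤ) (φ : K), 0 ≤ η ∧ degree η = 2 ∧ φ ∈ LL η ∧ Transcendental ℂ φ := by
  obtain ⟨δ, δ', h1, h2, h3, h4⟩ := hp.pair j
  have h5 := c.pair_indep (by omega) h1 h2
  have h6 : aeval c.ξ (cd δ' c.f) ≠ 0 := fun h => by simpa [h] using (h5 0 1 (by simp [h])).2
  refine ⟨_, _, nonneg_of_mem (c.sec_mem hp.inj (by omega) h4) h6, ?_,
    LL_div (c.sec_mem hp.inj (by omega) h3) _, transc_div h6 fun a h => ?_⟩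
  · rw [map_add, map_add, degree_div, degree_D', hA, hj]; rfl
  · simpa using (h5 1 (-a) (by simp [h])).1

lemma chi_ge_of_triple (hK : NR K) (hp : VG p) (hA : degree (c.A p) = -1) {j : ι}
    (hj : c.m p j = 3) : -1 ≤ chi K := by
  obtain ⟨η, φ, h0, h2, hφ, ht⟩ := c.exists_pencil hp hA hj
  obtain ⟨δ, δ', h1, h3, h4, h5⟩ := hp.pair j
  obtain ⟨u, hu⟩ := c.exists_uv hp (by omega) (j := j) (by omega)
  let E := c.A p + ((c.m p j : ℤ) - (1 : ℕ)) • c.D (p j)
  have hE : degree E = 5 := by rw [map_add, map_zsmul, degree_D', hA, hj]; rfl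
  have h6 : ∀ δ : ZD ℂ, cd δ c.f ∈ mi (p j) ^ 2 := fun δ =>
    der_pow_mem (cd δ) _ _ (c.f_mem j hj.ge)
  have h7 : ∀ k, u k ∈ mi (p j) ^ 1 := fun k => by
    simpa using add_mem (Ideal.pow_le_self two_ne_zero (hu k).2) (X_sub_mem (p j) k)
  have h8 : 4 ≤ el E := by
    have := card_le_el (E := E) (v := ![aeval c.ξ (cd δ c.f), aeval c.ξ (cd δ' c.f),
      aeval c.ξ (u 0), aeval c.ξ (u 1)]) (Fintype.linearIndependent_iff.2 fun a ha => ?_) fun i => ?_
    · simpa using this
    · obtain ⟨q, hq⟩ := (c.ker (a 0 • cd δ c.f + a 1 • cd δ' c.f + a 2 • u 0 + a 3 • u 1)).1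
        (by simpa [Fin.sum_univ_four] using ha)
      have h9 : a 2 • (X 0 - C (p j 0)) + a 3 • (X 1 - C (p j 1)) ∈ mi (p j) ^ 2 := by
        have : a 2 • (X 0 - C (p j 0)) + a 3 • (X 1 - C (p j 1)) = c.f * q - C (a 0) * cd δ c.f -
            C (a 1) * cd δ' c.f - C (a 2) * (u 0 - (X 0 - C (p j 0))) -
            C (a 3) * (u 1 - (X 1 - C (p j 1))) := by
          rw [← hq]; simp only [smul_eq_C_mul]; ring
        rw [this]
        exact sub_mem (sub_mem (sub_mem (sub_mem (Ideal.mul_mem_right _ _ (c.f_mem j (by omega)))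
          (Ideal.mul_mem_left _ _ (h6 _))) (Ideal.mul_mem_left _ _ (h6 _)))
          (Ideal.mul_mem_left _ _ (hu 0).2)) (Ideal.mul_mem_left _ _ (hu 1).2)
      have h10 : a 2 = 0 := by
        simpa [mem_mi] using dv_mem (n := 1) (pderiv 0) h9
      have h11 : a 3 = 0 := by
        simpa [mem_mi] using dv_mem (n := 1) (pderiv 1) h9
      have h12 := c.pair_indep (by omega) h1 h3 (a 0) (a 1)
        (by simpa [Fin.sum_univ_four, h10, h11] using ha)
      intro i
      fin_cases i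
      exacts [h12.1, h12.2, h10, h11]
    · fin_cases i
      · exact c.ev_mem_V hp.inj (c.cd_mem_V h4 (c.f_mem_V j)) (Ideal.pow_le_pow_right one_le_two (h6 _))
      · exact c.ev_mem_V hp.inj (c.cd_mem_V h5 (c.f_mem_V j)) (Ideal.pow_le_pow_right one_le_two (h6 _))
      · exact c.ev_mem_V hp.inj (hu 0).1 (h7 0)
      · exact c.ev_mem_V hp.inj (hu 1).1 (h7 1)
  by_cases h9 : el (E - η) ≤ 2
  · have := el_eq_of_pencil h0 h2 hφ ht (E := E) (by omega)
    omega
  · have h10 := hK.el_le_one (E := E - η - η) (by simp [hE, h2])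
    have := el_eq_of_pencil h0 h2 hφ ht (E := E - η) (by omega)
    rw [map_sub] at this
    omega

lemma chi_ge_of_simple (hK : NR K) (hp : VG p) (hA : degree (c.A p) = -1) {j i : ι}
    (hj : c.m p j = 3) (hi : c.m p i = 1) : 0 ≤ chi K := by
  obtain ⟨η, φ, h0, h2, hφ, ht⟩ := c.exists_pencil hp hA hj
  obtain ⟨δ, δ', h1, h3, h4, h5⟩ := hp.pair j
  obtain ⟨δ₁, h6, h7⟩ := c.exists_simple hp hi
  have hij : i ≠ j := by rintro rfl; omega
  let E := c.A p + c.D (p j) + c.D (p i)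
  have hE : degree E = 3 := by rw [map_add, map_add, degree_D', degree_D', hA, hj, hi]; rfl
  have h8 : 3 ≤ el E := by
    have := card_le_el (E := E) (v := ![aeval c.ξ (cd δ c.f), aeval c.ξ (cd δ' c.f),
      aeval c.ξ (cd δ₁ c.f)]) (Fintype.linearIndependent_iff.2 fun a ha => ?_) fun i => ?_
    · simpa using this
    · have h9 : c.f ∣ cd (a 0 • δ + a 1 • δ' + a 2 • δ₁) c.f :=
        (c.ker _).1 (by simpa [cd_add, cd_smul, Fin.sum_univ_three] using ha)
      have h10 := rigid_one h9 (p := p i) (by simpa using c.f_mem i hi.ge)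
      simp only [dv_apply, map_add, smul_eval, Derivation.add_apply, Derivation.smul_apply,
        h4 i hij, h5 i hij, smul_eq_mul] at h7 h10
      have h11 : a 2 = 0 := (mul_eq_zero.1 (by linear_combination h10)).resolve_right h7
      have h12 := c.pair_indep (by omega) h1 h3 (a 0) (a 1)
        (by simpa [Fin.sum_univ_three, h11] using ha)
      intro i
      fin_cases i
      exacts [h12.1, h12.2, h11]
    · fin_cases i
      · exact LL_mono (c.le_add_D _ _) (c.sec_mem hp.inj (by omega) h4)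
      · exact LL_mono (c.le_add_D _ _) (c.sec_mem hp.inj (by omega) h5)
      · exact LL_mono (by simp only [E]; rw [add_right_comm]; exact c.le_add_D _ _)
          (c.sec_mem hp.inj hi.ge h6)
  have h10 := hK.el_le_one (E := E - η) (by simp [hE, h2])
  have := el_eq_of_pencil h0 h2 hφ ht (E := E) (by omega)
  omega

lemma add_two_le (hK : NR K) (q : Fin 2 → ℂ) : mult q c.f + 2 ≤ c.d := by
  have h1 := c.finrank_proj q
  have h2 := hK.two_le_finrank (transc_div (c.sub_ne 0 (q 0)) (c.sub_ne_smul q))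
  unfold d
  omega

/-- Bezout's inequality for a curve of smaller degree. -/
lemma bezout (hp : Function.Injective p) {g : P2} (hg : g ≠ 0) {e : ℕ} (he : g.totalDegree ≤ e)
    (hd : e < c.d) {n : ι → ℕ} (h : ∀ i, g ∈ mi (p i) ^ n i) :
    ∑ i, (n i : ℤ) * c.m p i ≤ e * c.d := by
  have := degree_nonneg_of_mem (c.ev_mem_LL hp he h) fun h0 =>
    hg (c.eq_zero_of_lt h0 (he.trans_lt hd))
  rw [degree_cls] at this
  unfold m d
  omega

lemma line_le (hp : VG p) {i j : ι} (hij : i ≠ j) : c.m p i + c.m p j ≤ c.d := by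
  have h1 : lin (p j 1 - p i 1) (p i 0 - p j 0) (p j 0 * p i 1 - p i 0 * p j 1) ≠ 0 := fun h => by
    have h2 := eval_lin (p j 1 - p i 1) (p i 0 - p j 0) (p j 0 * p i 1 - p i 0 * p j 1) ![0, 0]
    have h3 := eval_lin (p j 1 - p i 1) (p i 0 - p j 0) (p j 0 * p i 1 - p i 0 * p j 1) ![0, 1]
    rw [h] at h2 h3
    simp only [map_zero, Matrix.cons_val_zero, Matrix.cons_val_one] at h2 h3
    exact hp.ne hij 0 (by linear_combination h2 - h3)
  have h2 := c.bezout hp.inj h1 (totalDegree_lin _ _ _) c.two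
    (n := fun l => if l = i ∨ l = j then 1 else 0) fun l => by
      split_ifs with h
      · rw [pow_one, mem_mi, eval_lin]
        rcases h with rfl | rfl <;> ring
      · simp
  rw [← Finset.sum_subset (Finset.subset_univ {i, j}) (fun l _ hl => by
    rw [if_neg (by simpa using hl)]; simp), Finset.sum_pair hij] at h2
  simp at h2
  omega

end Crv

end Pool.Agent.Lib.MP_3c72fe_ag
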