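import Pool.Agent.Lib.MP_3c72fe_ag.Bary

open Filter Set WithZero Module Finsupp IntermediateField MvPolynomial
open Pool.Agent.Lib.MP_cc3443_ag

noncomputable section

namespace Pool.Agent.Lib.MP_3c72fe_ag

variable {K : Type} [Field K] [Algebra ℂ K] [IsFF K]

lemma ord_smul {P : Place K} {a : ℂ} (ha : a ≠ 0) {z : K} (hz : z ≠ 0) :
    P.ord (a • z) = P.ord z := by
  rw [Algebra.smul_def, P.ord_mul (by simpa using ha) hz, ord_const ha, zero_add]

lemma ord_comb {P : Place K} {a b : ℂ} (ha : a ≠ 0) (hb : b ≠ 0) {z w : K} (hz : z ≠ 0)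
    (hw : w ≠ 0) (h : a • z - b • w ≠ 0) : min (P.ord z) (P.ord w) ≤ P.ord (a • z - b • w) ∧
      (P.ord z = P.ord w ∨ P.ord (a • z - b • w) ≤ min (P.ord z) (P.ord w)) := by
  refine ⟨(mem_Ge_iff h).1 (sub_mem (Submodule.smul_mem _ _ (mem_Ge_of_le (min_le_left _ _)))
    (Submodule.smul_mem _ _ (mem_Ge_of_le (min_le_right _ _)))), ?_⟩
  have h1 : min (P.ord (a • z - b • w)) (P.ord w) ≤ P.ord z := by
    rw [← ord_smul ha hz, ← mem_Ge_iff (smul_ne_zero ha hz)]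
    simpa using add_mem (mem_Ge_of_le (min_le_left (P.ord (a • z - b • w)) (P.ord w)))
      (Submodule.smul_mem _ b (mem_Ge_of_le (min_le_right _ _)))
  have h2 : min (P.ord (a • z - b • w)) (P.ord z) ≤ P.ord w := by
    rw [← ord_smul hb hw, ← mem_Ge_iff (smul_ne_zero hb hw)]
    simpa using sub_mem (Submodule.smul_mem _ a
      (mem_Ge_of_le (min_le_right (P.ord (a • z - b • w)) (P.ord z))))
      (mem_Ge_of_le (min_le_left _ _))
  omega

namespace Crv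

variable (c : Crv K) {q : Fin 3 → Fin 2 → ℂ} (B : Bary q)

omit [IsFF K] in
lemma co_indep {a : Fin 3 → ℂ}
    (h : a 0 • B.co c.ξ 0 + a 1 • B.co c.ξ 1 + a 2 • B.co c.ξ 2 = 0) (j : Fin 3) : a j = 0 := by
  have h1 : ∀ i, (a i • B.L i).totalDegree ≤ 1 := fun i =>
    (totalDegree_smul_le _ _).trans (B.deg i)
  have h2 := c.eq_zero_of_lt (g := a 0 • B.L 0 + a 1 • B.L 1 + a 2 • B.L 2)
    (by simpa [Bary.co] using h) (lt_of_le_of_lt ((totalDegree_add _ _).trans (max_le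
      ((totalDegree_add _ _).trans (max_le (h1 _) (h1 _))) (h1 _))) c.two)
  have h3 := congrArg (eval (q j)) h2
  simp only [map_add, smul_eval, B.eval_eq, map_zero] at h3
  fin_cases j <;> simpa using h3

omit [IsFF K] in
lemma co_ne (i : Fin 3) : B.co c.ξ i ≠ 0 := fun h =>
  B.L_ne i (c.eq_zero_of_lt h ((B.deg i).trans_lt c.two))

lemma H_eq (P : Place K) : -c.H P =
    min (P.ord (B.co c.ξ 0)) (min (P.ord (B.co c.ξ 1)) (P.ord (B.co c.ξ 2))) := by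
  have h1 : ∀ i, -c.H P ≤ P.ord (B.co c.ξ i) := fun i =>
    (mem_Ge_iff (c.co_ne B i)).1 (by simpa [Bary.co] using c.ev_mem_H (B.deg i) P)
  refine le_antisymm (le_min (h1 _) (le_min (h1 _) (h1 _))) ?_
  set n := min (P.ord (B.co c.ξ 0)) (min (P.ord (B.co c.ξ 1)) (P.ord (B.co c.ξ 2))) with hn
  have h2 : B.co c.ξ 0 ∈ Ge P n := mem_Ge_of_le (by omega)
  have h3 : B.co c.ξ 1 ∈ Ge P n := mem_Ge_of_le (by omega)
  have h4 : B.co c.ξ 2 ∈ Ge P n := mem_Ge_of_le (by omega)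
  have h5 := add_mem (add_mem h2 h3) h4
  rw [B.co_sum, mem_Ge_iff one_ne_zero, P.ord_one] at h5
  have h6 : ∀ k, n ≤ P.ord (c.ξ k) := fun k => (mem_Ge_iff (c.ne_zero k)).1 (by
    rw [B.eq_co c.ξ k]
    exact add_mem (add_mem (Submodule.smul_mem _ _ h2) (Submodule.smul_mem _ _ h3))
      (Submodule.smul_mem _ _ h4))
  have h7 := h6 0
  have h8 := h6 1
  rw [H_apply]
  omega

lemma le_D_iff (z : Fin 2 → ℂ) (P : Place K) (n : ℤ) : n ≤ c.D z P - c.H P ↔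
    ∀ i j, B.co z j • B.co c.ξ i - B.co z i • B.co c.ξ j ∈ Ge P n := by
  constructor
  · intro h i j
    have h1 : ∀ i, B.co c.ξ i - algebraMap ℂ K (B.co z i) ∈ Ge P n := fun i => by
      obtain ⟨a, b, e, hL⟩ : ∃ a b e, B.L i = lin a b e := ⟨_, _, _, eq_lin (B.deg i)⟩
      have := add_mem (Submodule.smul_mem _ a (c.sub_mem_Ge z P 0))
        (Submodule.smul_mem _ b (c.sub_mem_Ge z P 1))
      convert Ge_mono h this using 1
      simp [Bary.co, hL, lin, Algebra.smul_def]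
      ring
    convert sub_mem (Submodule.smul_mem _ (B.co z j) (h1 i)) (Submodule.smul_mem _ (B.co z i) (h1 j))
      using 1
    simp only [Algebra.smul_def]
    ring
  · intro h
    have h1 : ∀ i, B.co c.ξ i - algebraMap ℂ K (B.co z i) ∈ Ge P n := fun i => by
      convert add_mem (add_mem (h i 0) (h i 1)) (h i 2) using 1
      have h2 := congrArg (algebraMap ℂ K) (B.co_sum z)
      simp only [map_add, map_one] at h2
      simp only [Algebra.smul_def]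
      linear_combination (algebraMap ℂ K (B.co z i)) * B.co_sum c.ξ - B.co c.ξ i * h2
    have h3 : ∀ k, n ≤ P.ord (c.ξ k - algebraMap ℂ K (z k)) := fun k =>
      (mem_Ge_iff (c.sub_ne k _)).1 (by
        convert add_mem (add_mem (Submodule.smul_mem _ (q 0 k) (h1 0))
          (Submodule.smul_mem _ (q 1 k) (h1 1))) (Submodule.smul_mem _ (q 2 k) (h1 2)) using 1
        rw [B.eq_co c.ξ k, B.eq_co z k]
        simp only [Algebra.smul_def, map_add, map_mul, Algebra.algebraMap_self, RingHom.id_apply]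
        ring)
    rw [← min_ord]
    exact le_min (h3 0) (h3 1)

lemma D_vertex (P : Place K) :
    c.D (q 0) P - c.H P = min (P.ord (B.co c.ξ 1)) (P.ord (B.co c.ξ 2)) ∧
    c.D (q 1) P - c.H P = min (P.ord (B.co c.ξ 0)) (P.ord (B.co c.ξ 2)) ∧
    c.D (q 2) P - c.H P = min (P.ord (B.co c.ξ 0)) (P.ord (B.co c.ξ 1)) := by
  have h1 : ∀ i j, B.co (q j) i = if i = j then 1 else 0 := fun i j => by
    rw [Bary.co, aeval_eq_eval, B.eval_eq]
  have h2 : ∀ (j : Fin 3) (n : ℤ), n ≤ c.D (q j) P - c.H P ↔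
      ∀ i, i ≠ j → n ≤ P.ord (B.co c.ξ i) := fun j n => by
    rw [c.le_D_iff B]
    refine ⟨fun h i hi => (mem_Ge_iff (c.co_ne B i)).1 (by simpa [h1, hi] using h i j),
      fun h i l => ?_⟩
    by_cases hi : i = j <;> by_cases hl : l = j <;> simp [h1, hi, hl]
    · exact mem_Ge_of_le (h l hl)
    · exact mem_Ge_of_le (h i hi)
  refine ⟨le_antisymm (le_min ((h2 0 _).1 le_rfl 1 (by simp)) ((h2 0 _).1 le_rfl 2 (by simp)))
    ((h2 0 _).2 fun i hi => ?_), le_antisymm (le_min ((h2 1 _).1 le_rfl 0 (by simp))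
    ((h2 1 _).1 le_rfl 2 (by simp))) ((h2 1 _).2 fun i hi => ?_), le_antisymm
    (le_min ((h2 2 _).1 le_rfl 0 (by simp)) ((h2 2 _).1 le_rfl 1 (by simp)))
    ((h2 2 _).2 fun i hi => ?_)⟩ <;> fin_cases i <;> simp at hi ⊢

omit [IsFF K] in
lemma wedge_ne {z : Fin 2 → ℂ} (hz : ∀ i, B.co z i ≠ 0) :
    B.co z 1 • B.co c.ξ 0 - B.co z 0 • B.co c.ξ 1 ≠ 0 ∧
    B.co z 2 • B.co c.ξ 0 - B.co z 0 • B.co c.ξ 2 ≠ 0 ∧
    B.co z 2 • B.co c.ξ 1 - B.co z 1 • B.co c.ξ 2 ≠ 0 :=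
  ⟨fun h => hz 1 (c.co_indep B (a := ![B.co z 1, -B.co z 0, 0])
      (by simpa [sub_eq_add_neg] using h) 0),
    fun h => hz 2 (c.co_indep B (a := ![B.co z 2, 0, -B.co z 0])
      (by simpa [sub_eq_add_neg] using h) 0),
    fun h => hz 2 (c.co_indep B (a := ![0, B.co z 2, -B.co z 1])
      (by simpa [sub_eq_add_neg] using h) 1)⟩

lemma D_gen {z : Fin 2 → ℂ} (hz : ∀ i, B.co z i ≠ 0) (P : Place K) : c.D z P - c.H P =
    min (P.ord (B.co z 1 • B.co c.ξ 0 - B.co z 0 • B.co c.ξ 1))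
      (min (P.ord (B.co z 2 • B.co c.ξ 0 - B.co z 0 • B.co c.ξ 2))
        (P.ord (B.co z 2 • B.co c.ξ 1 - B.co z 1 • B.co c.ξ 2))) := by
  obtain ⟨h1, h2, h3⟩ := c.wedge_ne B hz
  have h4 := (c.le_D_iff B z P _).1 le_rfl
  refine le_antisymm (le_min ((mem_Ge_iff h1).1 (h4 0 1)) (le_min ((mem_Ge_iff h2).1 (h4 0 2))
    ((mem_Ge_iff h3).1 (h4 1 2)))) ((c.le_D_iff B z P _).2 ?_)
  generalize hn : (min _ _ : ℤ) = n
  have h5 : B.co z 1 • B.co c.ξ 0 - B.co z 0 • B.co c.ξ 1 ∈ Ge P n := mem_Ge_of_le (by omega)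
  have h6 : B.co z 2 • B.co c.ξ 0 - B.co z 0 • B.co c.ξ 2 ∈ Ge P n := mem_Ge_of_le (by omega)
  have h7 : B.co z 2 • B.co c.ξ 1 - B.co z 1 • B.co c.ξ 2 ∈ Ge P n := mem_Ge_of_le (by omega)
  intro i j
  fin_cases i <;> fin_cases j
  exacts [by simp, h5, h6, by simpa using neg_mem h5, by simp, h7, by simpa using neg_mem h6,
    by simpa using neg_mem h7, by simp]

section
variable {c' : Crv K} (hG : aeval c.ξ B.G ≠ 0) (hc : c'.ξ = B.cr c.ξ)
include hG hc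

lemma ord_co_cr (P : Place K) :
    P.ord (B.co c'.ξ 0) = P.ord (B.co c.ξ 1) + P.ord (B.co c.ξ 2) - P.ord (aeval c.ξ B.G) ∧
    P.ord (B.co c'.ξ 1) = P.ord (B.co c.ξ 0) + P.ord (B.co c.ξ 2) - P.ord (aeval c.ξ B.G) ∧
    P.ord (B.co c'.ξ 2) = P.ord (B.co c.ξ 0) + P.ord (B.co c.ξ 1) - P.ord (aeval c.ξ B.G) := by
  have h := c.co_ne B
  rw [hc, B.co_cr hG]
  simp only [inv3, ← B.aeval_G, Matrix.cons_val_zero, Matrix.cons_val_one, Matrix.cons_val]
  refine ⟨?_, ?_, ?_⟩ <;> rw [ord_div (mul_ne_zero (h _) (h _)) hG, P.ord_mul (h _) (h _)]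

lemma cr_degree :
    c'.d + mult (q 0) c.f + mult (q 1) c.f + mult (q 2) c.f = 2 * c.d ∧
    mult (q 0) c'.f + mult (q 1) c.f + mult (q 2) c.f = c.d ∧
    mult (q 1) c'.f + mult (q 0) c.f + mult (q 2) c.f = c.d ∧
    mult (q 2) c'.f + mult (q 0) c.f + mult (q 1) c.f = c.d := by
  have h : ∀ P : Place K,
      c'.H P + c.D (q 0) P + c.D (q 1) P + c.D (q 2) P = c.H P + c.H P + P.ord (aeval c.ξ B.G) ∧
      c'.D (q 0) P + c.D (q 1) P + c.D (q 2) P = c.H P + P.ord (B.co c.ξ 0) ∧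
      c'.D (q 1) P + c.D (q 0) P + c.D (q 2) P = c.H P + P.ord (B.co c.ξ 1) ∧
      c'.D (q 2) P + c.D (q 0) P + c.D (q 1) P = c.H P + P.ord (B.co c.ξ 2) := fun P => by
    have h1 := c.H_eq B P
    have h2 := c'.H_eq B P
    have h3 := c.D_vertex B P
    have h4 := c'.D_vertex B P
    have h5 := c.ord_co_cr B hG hc P
    omega
  have h1 := congrArg degree (show c'.H + c.D (q 0) + c.D (q 1) + c.D (q 2) =
    c.H + c.H + divF (aeval c.ξ B.G) from Finsupp.ext fun P => (h P).1)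
  have h2 := congrArg degree (show c'.D (q 0) + c.D (q 1) + c.D (q 2) =
    c.H + divF (B.co c.ξ 0) from Finsupp.ext fun P => (h P).2.1)
  have h3 := congrArg degree (show c'.D (q 1) + c.D (q 0) + c.D (q 2) =
    c.H + divF (B.co c.ξ 1) from Finsupp.ext fun P => (h P).2.2.1)
  have h4 := congrArg degree (show c'.D (q 2) + c.D (q 0) + c.D (q 1) =
    c.H + divF (B.co c.ξ 2) from Finsupp.ext fun P => (h P).2.2.2)
  simp only [map_add, degree_div, degree_H, degree_D] at h1 h2 h3 h4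
  unfold d
  omega

lemma cr_mult {z : Fin 2 → ℂ} (hz : ∀ i, B.co z i ≠ 0) (hz' : aeval z B.G ≠ 0) :
    mult (B.cr z) c'.f = mult z c.f := by
  have h0 := c.co_ne B
  obtain ⟨w1, w2, w3⟩ := c.wedge_ne B hz
  have h1 : ∀ i, B.co (B.cr z) i ≠ 0 := fun i => by
    rw [B.co_cr hz']
    fin_cases i <;> exact div_ne_zero (mul_ne_zero (hz _) (hz _)) (by rwa [← B.aeval_G])
  have h2 : c'.D (B.cr z) = c.D z := Finsupp.ext fun P => by
    have h3 := c.H_eq B P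
    have h4 := c'.H_eq B P
    have h5 := c.D_gen B hz P
    have h6 := c'.D_gen B h1 P
    have h7 := c.ord_co_cr B hG hc P
    have h8 := ord_comb (P := P) (hz 1) (hz 0) (h0 0) (h0 1) w1
    have h9 := ord_comb (P := P) (hz 2) (hz 0) (h0 0) (h0 2) w2
    have h10 := ord_comb (P := P) (hz 2) (hz 1) (h0 1) (h0 2) w3
    have key : ∀ {a : ℂ} {l w : K}, a ≠ 0 → l ≠ 0 → w ≠ 0 →
        P.ord ((-a / aeval z B.G) • (l * w / aeval c.ξ B.G)) =
          P.ord l + P.ord w - P.ord (aeval c.ξ B.G) := fun ha hl hw => by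
      rw [ord_smul (div_ne_zero (neg_ne_zero.2 ha) hz') (div_ne_zero (mul_ne_zero hl hw) hG),
        ord_div (mul_ne_zero hl hw) hG, P.ord_mul hl hw]
    have e1 : B.co (B.cr z) 1 • B.co c'.ξ 0 - B.co (B.cr z) 0 • B.co c'.ξ 1 =
        (-B.co z 2 / aeval z B.G) • (B.co c.ξ 2 *
          (B.co z 1 • B.co c.ξ 0 - B.co z 0 • B.co c.ξ 1) / aeval c.ξ B.G) := by
      rw [hc, B.co_cr hG, B.co_cr hz']
      simp [inv3, ← B.aeval_G, Algebra.smul_def]
      ring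
    have e2 : B.co (B.cr z) 2 • B.co c'.ξ 0 - B.co (B.cr z) 0 • B.co c'.ξ 2 =
        (-B.co z 1 / aeval z B.G) • (B.co c.ξ 1 *
          (B.co z 2 • B.co c.ξ 0 - B.co z 0 • B.co c.ξ 2) / aeval c.ξ B.G) := by
      rw [hc, B.co_cr hG, B.co_cr hz']
      simp [inv3, ← B.aeval_G, Algebra.smul_def]
      ring
    have e3 : B.co (B.cr z) 2 • B.co c'.ξ 1 - B.co (B.cr z) 1 • B.co c'.ξ 2 =
        (-B.co z 0 / aeval z B.G) • (B.co c.ξ 0 *
          (B.co z 2 • B.co c.ξ 1 - B.co z 1 • B.co c.ξ 2) / aeval c.ξ B.G) := by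
      rw [hc, B.co_cr hG, B.co_cr hz']
      simp [inv3, ← B.aeval_G, Algebra.smul_def]
      ring
    rw [e1, e2, e3, key (hz 2) (h0 2) w1, key (hz 1) (h0 1) w2, key (hz 0) (h0 0) w3] at h6
    omega
  have := c'.degree_D (B.cr z)
  rw [h2, degree_D] at this
  omega

end

/-- The Cremona transformation at three of the points. -/
lemma exists_cremona {ι : Type} [Fintype ι] [DecidableEq ι] {p : ι → Fin 2 → ℂ} (hK : NR K)
    (hp : VG p) (hd : 3 ≤ c.d) {a b e : ι} (hab : a ≠ b) (hae : a ≠ e) (hbe : b ≠ e) :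
    ∃ (c' : Crv K) (p' : ι → Fin 2 → ℂ), VG p' ∧
      c'.d + c.m p a + c.m p b + c.m p e = 2 * c.d ∧ c'.m p' a + c.m p b + c.m p e = c.d ∧
      c'.m p' b + c.m p a + c.m p e = c.d ∧ c'.m p' e + c.m p a + c.m p b = c.d ∧
      ∀ i, i ≠ a → i ≠ b → i ≠ e → c'.m p' i = c.m p i := by
  obtain ⟨B⟩ := exists_bary (q := ![p a, p b, p e]) (hp.det_ne hab hae hbe)
  have hG : aeval c.ξ B.G ≠ 0 := fun h => B.G_ne (c.eq_zero_of_lt h (B.deg_G.trans_lt hd))
  obtain ⟨c', hc⟩ := exists_crv hK (ξ := B.cr c.ξ) (by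
    have h1 := B.mem_of_cr hG (c.co_ne B)
      (M := (IntermediateField.adjoin ℂ (Set.range (B.cr c.ξ))).toSubfield)
      (fun i k => IntermediateField.algebraMap_mem _ _) fun i => algebra_adjoin_le_adjoin _ _ (by
        rw [Algebra.adjoin_range_eq_range_aeval]; exact ⟨_, rfl⟩)
    exact adjoin_eq_top_of_mem c.top (h1 0) (h1 1))
  have h1 : ∀ i, i ≠ a → i ≠ b → i ≠ e → ∀ δ : ZD ℂ, (∀ j, j ≠ i → ∀ k, δ (p j k) = 0) →
      ∀ l, cd δ (B.L l) = 0 := fun i h1 h2 h3 δ hδ => B.cd_L fun l => by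
    fin_cases l
    exacts [hδ a h1.symm, hδ b h2.symm, hδ e h3.symm]
  have h2 : ∀ i, i ≠ a → i ≠ b → i ≠ e → ∀ l, B.co (p i) l ≠ 0 := fun i h2 h3 h4 l h =>
    B.L_ne l (hp.eq_zero i (fun δ hδ => h1 i h2 h3 h4 δ hδ l) (by rwa [← aeval_eq_eval]))
  have h3 : ∀ i, i ≠ a → i ≠ b → i ≠ e → aeval (p i) B.G ≠ 0 := fun i h2 h3 h4 h =>
    B.G_ne (hp.eq_zero i (fun δ hδ => by simp [Bary.G, h1 i h2 h3 h4 δ hδ])
      (by rwa [← aeval_eq_eval]))
  let p' : ι → Fin 2 → ℂ := fun i => if i = a ∨ i = b ∨ i = e then p i else B.cr (p i)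
  have ha : p' a = p a := if_pos (by simp)
  have hb : p' b = p b := if_pos (by simp)
  have he : p' e = p e := if_pos (by simp)
  have h4 : ∀ i, i ≠ a → i ≠ b → i ≠ e → p' i = B.cr (p i) := fun i h1 h2 h3 =>
    if_neg (by simp [h1, h2, h3])
  obtain ⟨h5, h6, h7, h8⟩ := c.cr_degree B hG hc
  refine ⟨c', p', hp.of_ker fun δ hδ i k => ?_, h5, by rw [m, ha]; exact h6,
    by rw [m, hb]; exact h7, by rw [m, he]; exact h8, fun i h9 h10 h11 => by
      rw [m, h4 i h9 h10 h11]; exact c.cr_mult B hG hc (h2 i h9 h10 h11) (h3 i h9 h10 h11)⟩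
  by_cases hi : i = a ∨ i = b ∨ i = e
  · rw [← hδ i k, show p' i = p i from if_pos hi]
  push Not at hi
  have h9 : ∀ l k, δ ((![p a, p b, p e] : Fin 3 → Fin 2 → ℂ) l k) = 0 := fun l k => by
    fin_cases l
    exacts [ha ▸ hδ a k, hb ▸ hδ b k, he ▸ hδ e k]
  refine B.mem_of_cr (h3 i hi.1 hi.2.1 hi.2.2) (h2 i hi.1 hi.2.1 hi.2.2) (M := cst δ) h9
    (fun l => ?_) k
  change δ _ = 0
  rw [← h4 i hi.1 hi.2.1 hi.2.2, Bary.co, aeval_eq_eval, eval_cd, B.cd_L h9]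
  simp [dv_apply, hδ]

end Crv

end Pool.Agent.Lib.MP_3c72fe_ag
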