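import Pool.Agent.Lib.MP_3c72fe_ag.Loc

open Filter Set WithZero Module Finsupp IntermediateField MvPolynomial
open Pool.Agent.Lib.MP_cc3443_ag
open scoped IntermediateField.algebraAdjoinAdjoin

noncomputable section

namespace Pool.Agent.Lib.MP_3c72fe_ag

variable {K : Type} [Field K] [Algebra ℂ K]

lemma card_le_finrank [IsFF K] {t : K} (ht : Transcendental ℂ t) {ι : Type} [Fintype ι] {z : ι → K}
    (h : ∀ c : ι → Polynomial ℂ, ∑ i, Polynomial.aeval t (c i) * z i = 0 → ∀ i, c i = 0) :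
    Fintype.card ι ≤ finrank ℂ⟮t⟯ K := by
  haveI := IsFF.fin t ht
  refine LinearIndependent.fintype_card_le_finrank (b := z) ?_
  rw [← LinearIndependent.iff_fractionRing (Algebra.adjoin ℂ {t}) ℂ⟮t⟯,
    Fintype.linearIndependent_iff]
  intro g hg i
  have h2 : ∀ i, ∃ p : Polynomial ℂ, Polynomial.aeval t p = g i := fun i =>
    (Algebra.adjoin_singleton_eq_range_aeval ℂ t).le (g i).2
  choose p hp using h2
  have := h p (by simp only [hp]; exact hg) i
  apply Subtype.ext
  rw [← hp, this]; simp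

lemma finrank_le_of_rel [IsFF K] {t u : K} (ht : Transcendental ℂ t) (htop : ℂ⟮t, u⟯ = ⊤)
    {h : Polynomial (Polynomial ℂ)} (h0 : h ≠ 0)
    (hh : h.eval₂ (Polynomial.aeval t).toRingHom u = 0) : finrank ℂ⟮t⟯ K ≤ h.natDegree := by
  haveI := IsFF.fin t ht
  let ψ : Polynomial ℂ →ₐ[ℂ] ℂ⟮t⟯ := Polynomial.aeval (AdjoinSimple.gen ℂ t)
  have h1 : (algebraMap ℂ⟮t⟯ K).comp ψ.toRingHom = (Polynomial.aeval t).toRingHom := by
    ext <;> simp [ψ]
  have h2 : Function.Injective ψ.toRingHom := by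
    have := transcendental_iff_injective.1 ht
    refine Function.Injective.of_comp (f := algebraMap ℂ⟮t⟯ K) ?_
    rw [← RingHom.coe_comp, h1]
    exact this
  have h3 : ℂ⟮t⟯⟮u⟯ = ⊤ := by
    rw [← restrictScalars_eq_top_iff (K := ℂ), adjoin_simple_adjoin_simple, htop]
  rw [← (Field.primitive_element_iff_minpoly_natDegree_eq _ u).1 h3,
    ← Polynomial.natDegree_map_eq_of_injective h2 h]
  refine Polynomial.natDegree_le_of_dvd (minpoly.dvd _ _ ?_)
    ((Polynomial.map_ne_zero_iff h2).2 h0)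
  rw [Polynomial.aeval_def, Polynomial.eval₂_map, h1, hh]

lemma exists_io (p : Fin 2 → ℂ) (h : Polynomial (Polynomial ℂ)) :
    ∃ (N : ℕ) (g : P2), io p g = Polynomial.X ^ N * h := by
  let S : Subring (Polynomial (Polynomial ℂ)) :=
    { carrier := {h | ∃ (N : ℕ) (g : P2), io p g = Polynomial.X ^ N * h}
      mul_mem' := by
        rintro a b ⟨N, g, h⟩ ⟨N', g', h'⟩
        exact ⟨N + N', g * g', by rw [map_mul, h, h']; ring⟩
      one_mem' := ⟨0, 1, by simp⟩
      add_mem' := by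
        rintro a b ⟨N, g, h⟩ ⟨N', g', h'⟩
        refine ⟨N + N', (X 0 - C (p 0)) ^ N' * g + (X 0 - C (p 0)) ^ N * g', ?_⟩
        have : io p (X 0 - C (p 0)) = Polynomial.X := by simp [io, tr, io0]
        rw [map_add, map_mul, map_mul, map_pow, map_pow, this, h, h']; ring
      zero_mem' := ⟨0, 0, by simp⟩
      neg_mem' := by
        rintro a ⟨N, g, h⟩
        exact ⟨N, -g, by rw [map_neg, h]; ring⟩ }
  have hX : Polynomial.X ∈ S := ⟨0, X 0 - C (p 0), by simp [io, tr, io0]⟩
  have hT : Polynomial.C Polynomial.X ∈ S := ⟨1, X 1 - C (p 1), by simp [io, tr, io0]⟩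
  have hC : ∀ a, Polynomial.C a ∈ S := fun a => by
    induction a using Polynomial.induction_on' with
    | add a b ha hb => rw [map_add]; exact add_mem ha hb
    | monomial n a =>
      rw [← Polynomial.C_mul_X_pow_eq_monomial, map_mul, map_pow]
      exact mul_mem ⟨0, C a, by simp [io, tr, io0]⟩ (pow_mem hT n)
  change h ∈ S
  induction h using Polynomial.induction_on' with
  | add a b ha hb => exact add_mem ha hb
  | monomial n a =>
    rw [← Polynomial.C_mul_X_pow_eq_monomial]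
    exact mul_mem (hC a) (pow_mem hX n)

variable (K) in
/-- A plane model, of degree at least two, of the function field `K`. -/
structure Crv where
  ξ : Fin 2 → K
  f : P2
  prime : Prime f
  ker : ∀ g, aeval ξ g = 0 ↔ f ∣ g
  top : IntermediateField.adjoin ℂ (Set.range ξ) = ⊤
  two : 2 ≤ f.totalDegree

/-- Affine linear polynomials. -/
def lin (a b c : ℂ) : P2 := C a * X 0 + C b * X 1 + C c

lemma totalDegree_lin (a b c : ℂ) : (lin a b c).totalDegree ≤ 1 := by
  have h : ∀ (a : ℂ) (k : Fin 2), (C a * X k : P2).totalDegree ≤ 1 := fun a k =>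
    (totalDegree_mul _ _).trans (by simp)
  refine (totalDegree_add _ _).trans (max_le ((totalDegree_add _ _).trans (max_le (h _ _) (h _ _)))
    (by simp))

lemma eval_lin (a b c : ℂ) (q : Fin 2 → ℂ) : eval q (lin a b c) = a * q 0 + b * q 1 + c := by
  simp [lin]

namespace Crv

variable (c : Crv K)

lemma ev_f : aeval c.ξ c.f = 0 := (c.ker _).2 dvd_rfl

lemma eq_zero_of_lt {g : P2} (h : aeval c.ξ g = 0) (hg : g.totalDegree < c.f.totalDegree) :
    g = 0 := by
  by_contra h0
  exact (totalDegree_le_of_dvd_of_isDomain ((c.ker g).1 h) h0).not_gt hg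

lemma lin_eq_zero {a b e : ℂ} (h : a • c.ξ 0 + b • c.ξ 1 + algebraMap ℂ K e = 0) :
    a = 0 ∧ b = 0 ∧ e = 0 := by
  have h1 := c.eq_zero_of_lt (g := lin a b e) (by simpa [lin, Algebra.smul_def] using h)
    ((totalDegree_lin a b e).trans_lt c.two)
  have h2 := eval_lin a b e ![0, 0]
  have h3 := eval_lin a b e ![1, 0]
  have h4 := eval_lin a b e ![0, 1]
  simp [h1] at h2 h3 h4
  exact ⟨by linear_combination h2 - h3, by linear_combination h2 - h4, h2.symm⟩

lemma sub_ne (k : Fin 2) (a : ℂ) : c.ξ k - algebraMap ℂ K a ≠ 0 := fun h => by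
  fin_cases k
  · simpa using (c.lin_eq_zero (a := 1) (b := 0) (e := -a) (by simpa [sub_eq_add_neg] using h)).1
  · simpa using (c.lin_eq_zero (a := 0) (b := 1) (e := -a) (by simpa [sub_eq_add_neg] using h)).2.1

lemma ne_zero (k : Fin 2) : c.ξ k ≠ 0 := by simpa using c.sub_ne k 0

lemma sub_ne_smul (p : Fin 2 → ℂ) (e : ℂ) :
    c.ξ 1 - algebraMap ℂ K (p 1) ≠ e • (c.ξ 0 - algebraMap ℂ K (p 0)) := fun h => by
  have := (c.lin_eq_zero (a := -e) (b := 1) (e := e * p 0 - p 1) (by
    rw [sub_eq_iff_eq_add] at h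
    simp [h, Algebra.smul_def]; ring)).2.1
  simp at this

lemma eval₂_io (p : Fin 2 → ℂ) (g : P2) : (io p g).eval₂ (Polynomial.aeval
    ((c.ξ 1 - algebraMap ℂ K (p 1)) / (c.ξ 0 - algebraMap ℂ K (p 0)))).toRingHom
    (c.ξ 0 - algebraMap ℂ K (p 0)) = aeval c.ξ g := by
  induction g using MvPolynomial.induction_on with
  | C a => simp [io, tr, io0]
  | add a b ha hb => rw [map_add, Polynomial.eval₂_add, ha, hb, map_add]
  | mul_X a i ha =>
    rw [map_mul, Polynomial.eval₂_mul, ha, map_mul]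
    refine congrArg (aeval c.ξ a * ·) ?_
    have := c.sub_ne 0 (p 0)
    fin_cases i <;> simp [io, tr, io0, this]

variable [IsFF K]

lemma transc (k : Fin 2) : Transcendental ℂ (c.ξ k) :=
  transc_of_not_const fun a h => c.sub_ne k a (sub_eq_zero.2 h)

lemma finrank_proj (p : Fin 2 → ℂ) :
    finrank ℂ⟮(c.ξ 1 - algebraMap ℂ K (p 1)) / (c.ξ 0 - algebraMap ℂ K (p 0))⟯ K + mult p c.f =
      c.f.totalDegree := by
  have hu := c.sub_ne 0 (p 0)
  have ht := transc_div hu (c.sub_ne_smul p)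
  have hev := c.eval₂_io p
  have hm := mult_le p c.f
  have hf := io_ne_zero p c.prime.ne_zero
  set u := c.ξ 0 - algebraMap ℂ K (p 0) with hu'
  set t := (c.ξ 1 - algebraMap ℂ K (p 1)) / u with ht'
  apply le_antisymm
  · obtain ⟨h, hh⟩ : Polynomial.X ^ mult p c.f ∣ io p c.f := Polynomial.X_pow_dvd_iff.2
      fun k hk => Polynomial.coeff_eq_zero_of_lt_natTrailingDegree hk
    have h0 : h ≠ 0 := by rintro rfl; exact hf (by simpa using hh)
    have h1 := hev c.f
    rw [hh, Polynomial.eval₂_mul, Polynomial.eval₂_X_pow, c.ev_f, mul_eq_zero] at h1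
    have h2 := finrank_le_of_rel ht (u := u) (by
      rw [eq_top_iff, ← c.top, adjoin_le_iff]
      have h3 : u ∈ ℂ⟮t, u⟯ := subset_adjoin _ _ (by simp)
      have h4 : t ∈ ℂ⟮t, u⟯ := subset_adjoin _ _ (by simp)
      rintro _ ⟨k, rfl⟩
      fin_cases k
      · simpa [hu'] using add_mem h3 (IntermediateField.algebraMap_mem _ (p 0))
      · simpa [ht', hu] using add_mem (mul_mem h4 h3) (IntermediateField.algebraMap_mem _ (p 1)))
      h0 (h1.resolve_left (pow_ne_zero _ hu))
    have h5 := natDegree_io p c.f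
    rw [hh, Polynomial.natDegree_X_pow_mul _ h0] at h5
    omega
  · have h1 := card_le_finrank ht (z := fun i : Fin (c.f.totalDegree - mult p c.f) => u ^ (i : ℕ))
      fun a ha => by
        let h : Polynomial (Polynomial ℂ) := ∑ i, Polynomial.monomial i.val (a i)
        suffices h0 : h = 0 by
          intro i
          have := congrArg (Polynomial.coeff · i) h0
          simpa [h, Polynomial.coeff_monomial, Fin.val_inj] using this
        by_contra h0
        have h2 : h.natDegree < c.f.totalDegree - mult p c.f := by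
          rw [Polynomial.natDegree_lt_iff_degree_lt h0]
          exact Polynomial.degree_sum_fin_lt _ |> fun h' => by
            simpa [h, Polynomial.C_mul_X_pow_eq_monomial] using h'
        obtain ⟨N, g, hg⟩ := exists_io p h
        have h3 := hev g
        rw [hg, Polynomial.eval₂_mul, Polynomial.eval₂_finsetSum] at h3
        simp only [Polynomial.eval₂_monomial] at h3
        obtain ⟨q, rfl⟩ := (c.ker g).1 (by rw [← h3]; exact mul_eq_zero_of_right _ ha)
        have h4 : io p q ≠ 0 := by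
          intro h4
          rw [map_mul, h4, mul_zero, eq_comm, mul_eq_zero] at hg
          exact hg.elim (pow_ne_zero _ Polynomial.X_ne_zero) h0
        rw [map_mul] at hg
        have h5 := congrArg Polynomial.natDegree hg
        have h6 := congrArg Polynomial.natTrailingDegree hg
        rw [Polynomial.natDegree_mul hf h4, Polynomial.natDegree_X_pow_mul _ h0, natDegree_io] at h5
        rw [Polynomial.natTrailingDegree_mul hf h4, mul_comm,
          Polynomial.natTrailingDegree_mul_X_pow h0] at h6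
        have h7 := Polynomial.natTrailingDegree_le_natDegree (io p q)
        unfold mult at h2
        omega
    rw [Fintype.card_fin] at h1
    omega

/-- The hyperplane divisor. -/
def H : Place K →₀ ℤ := pol (c.ξ 0) ⊔ pol (c.ξ 1)

/-- The divisor of branches through a point. -/
def D (p : Fin 2 → ℂ) : Place K →₀ ℤ :=
  (divF (c.ξ 0 - algebraMap ℂ K (p 0)) ⊓ divF (c.ξ 1 - algebraMap ℂ K (p 1))) ⊔ 0

lemma H_apply (P : Place K) :
    c.H P = max (max (-P.ord (c.ξ 0)) 0) (max (-P.ord (c.ξ 1)) 0) := by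
  simp [H, Finsupp.sup_apply, pol_apply]

lemma D_apply (p : Fin 2 → ℂ) (P : Place K) : c.D p P =
    max (min (P.ord (c.ξ 0 - algebraMap ℂ K (p 0))) (P.ord (c.ξ 1 - algebraMap ℂ K (p 1)))) 0 := by
  simp [D, Finsupp.sup_apply, Finsupp.inf_apply]

lemma H_nonneg (P : Place K) : 0 ≤ c.H P := by rw [H_apply]; omega

lemma D_nonneg (p : Fin 2 → ℂ) (P : Place K) : 0 ≤ c.D p P := by rw [D_apply]; omega

lemma min_ord_sub (P : Place K) (k : Fin 2) (a : ℂ) :
    min (P.ord (c.ξ k - algebraMap ℂ K a)) 0 = min (P.ord (c.ξ k)) 0 := by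
  apply le_antisymm
  · refine le_min ((mem_Ge_iff (c.ne_zero k)).1 ?_) (min_le_right _ _)
    simpa using add_mem (mem_Ge_of_le (min_le_left (P.ord (c.ξ k - algebraMap ℂ K a)) 0))
      (Ge_mono (min_le_right _ _) (const_mem_Ge a))
  · exact le_min ((mem_Ge_iff (c.sub_ne k a)).1 (sub_mem (mem_Ge_of_le (min_le_left _ _))
      (Ge_mono (min_le_right _ _) (const_mem_Ge a)))) (min_le_right _ _)

lemma min_ord (p : Fin 2 → ℂ) (P : Place K) :
    min (P.ord (c.ξ 0 - algebraMap ℂ K (p 0))) (P.ord (c.ξ 1 - algebraMap ℂ K (p 1))) =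
      c.D p P - c.H P := by
  have h0 := c.min_ord_sub P 0 (p 0)
  have h1 := c.min_ord_sub P 1 (p 1)
  rw [D_apply, H_apply]
  omega

lemma H_eq_zero {p : Fin 2 → ℂ} {P : Place K} (h : 0 < c.D p P) : c.H P = 0 := by
  have := c.min_ord p P
  rw [D_apply] at h this
  omega

lemma sub_mem_Ge (p : Fin 2 → ℂ) (P : Place K) (k : Fin 2) :
    c.ξ k - algebraMap ℂ K (p k) ∈ Ge P (c.D p P - c.H P) := by
  rw [← min_ord]
  fin_cases k
  exacts [mem_Ge_of_le (min_le_left _ _), mem_Ge_of_le (min_le_right _ _)]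

lemma mem_Ge_H (P : Place K) (k : Fin 2) : c.ξ k ∈ Ge P (-c.H P) := by
  refine mem_Ge_of_le ?_
  rw [H_apply]
  fin_cases k <;> simp <;> omega

lemma eq_of_pos {p q : Fin 2 → ℂ} {P : Place K} (hp : 0 < c.D p P) (hq : 0 < c.D q P) : p = q := by
  ext k
  have h := c.H_eq_zero hp
  exact P.res_unique (mem_Ge_one.1 (Ge_mono (by omega) (c.sub_mem_Ge p P k)))
    (mem_Ge_one.1 (Ge_mono (by omega) (c.sub_mem_Ge q P k)))

lemma ev_mem_H {g : P2} {e : ℕ} (hg : g.totalDegree ≤ e) (P : Place K) :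
    aeval c.ξ g ∈ Ge P (-(e * c.H P)) := by
  rw [g.as_sum, map_sum]
  refine sum_mem fun s hs => ?_
  have h1 := (le_totalDegree hs).trans hg
  rw [Finsupp.sum_fintype _ _ (by simp), Fin.sum_univ_two] at h1
  rw [aeval_monomial, Finsupp.prod_fintype _ _ (by simp), Fin.prod_univ_two]
  refine Ge_mul' (const_mem_Ge _) (Ge_mul (Ge_pow (c.mem_Ge_H P 0) _) (Ge_pow (c.mem_Ge_H P 1) _)) ?_
  have h2 : ((s 0 : ℤ) + s 1) * c.H P ≤ e * c.H P :=
    mul_le_mul_of_nonneg_right (by exact_mod_cast h1) (c.H_nonneg P)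
  linarith

lemma ev_mem_zero {P : Place K} (h : c.H P = 0) (g : P2) : aeval c.ξ g ∈ Ge P 0 := by
  simpa [h] using c.ev_mem_H (g := g) le_rfl P

lemma ev_mem_pow {p : Fin 2 → ℂ} {P : Place K} (h : c.H P = 0) {n : ℕ} {g : P2}
    (hg : g ∈ mi p ^ n) : aeval c.ξ g ∈ Ge P (n * c.D p P) := by
  have h1 : ∀ g ∈ mi p, aeval c.ξ g ∈ Ge P (c.D p P) := by
    intro g hg
    induction hg using Submodule.span_induction with
    | mem g hg =>
      obtain ⟨k, rfl⟩ := hg
      simpa [h] using c.sub_mem_Ge p P k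
    | zero => simp
    | add a b _ _ ha hb => rw [map_add]; exact add_mem ha hb
    | smul a b _ hb => rw [smul_eq_mul, map_mul]; exact Ge_mul' (c.ev_mem_zero h a) hb (by omega)
  induction n generalizing g with
  | zero => simpa using c.ev_mem_zero h g
  | succ n ih =>
    rw [pow_succ] at hg
    refine Submodule.mul_induction_on hg (fun a ha b hb => ?_) fun a b ha hb => ?_
    · rw [map_mul]; exact Ge_mul' (ih ha) (h1 b hb) (by push_cast; linarith)
    · rw [map_add]; exact add_mem ha hb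

/-- The divisor cut out by curves of degree `e` with multiplicities `n`. -/
def cls {ι : Type} [Fintype ι] (p : ι → Fin 2 → ℂ) (e : ℕ) (n : ι → ℕ) : Place K →₀ ℤ :=
  (e : ℤ) • c.H - ∑ i, (n i : ℤ) • c.D (p i)

lemma sum_D_apply {ι : Type} [Fintype ι] {p : ι → Fin 2 → ℂ} (hp : Function.Injective p)
    (n : ι → ℤ) {P : Place K} {j : ι} (hj : 0 < c.D (p j) P) :
    (∑ i, n i • c.D (p i)) P = n j * c.D (p j) P := by
  rw [Finsupp.finsetSum_apply, Finset.sum_eq_single j]
  · rfl
  · intro i _ hi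
    have h1 := c.D_nonneg (p i) P
    have h2 : ¬ 0 < c.D (p i) P := fun h => hi (hp (c.eq_of_pos h hj))
    simp [show c.D (p i) P = 0 by omega]
  · simp

lemma sum_D_apply' {ι : Type} [Fintype ι] {p : ι → Fin 2 → ℂ} (n : ι → ℤ) {P : Place K}
    (h : ∀ j, ¬ 0 < c.D (p j) P) : (∑ i, n i • c.D (p i)) P = 0 := by
  rw [Finsupp.finsetSum_apply]
  refine Finset.sum_eq_zero fun i _ => ?_
  have h1 := c.D_nonneg (p i) P
  have h2 := h i
  simp [show c.D (p i) P = 0 by omega]

lemma ev_mem_LL {ι : Type} [Fintype ι] {p : ι → Fin 2 → ℂ} (hp : Function.Injective p) {e : ℕ}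
    {n : ι → ℕ} {g : P2} (hg : g.totalDegree ≤ e) (h : ∀ i, g ∈ mi (p i) ^ n i) :
    aeval c.ξ g ∈ LL (c.cls p e n) := mem_LL.2 fun P => by
  rw [cls, Finsupp.sub_apply]
  by_cases h1 : ∃ j, 0 < c.D (p j) P
  · obtain ⟨j, hj⟩ := h1
    rw [c.sum_D_apply hp _ hj]
    simpa [c.H_eq_zero hj] using c.ev_mem_pow (c.H_eq_zero hj) (h j)
  · rw [c.sum_D_apply' _ (not_exists.1 h1)]
    simpa using c.ev_mem_H hg P

lemma degree_D_sub (p : Fin 2 → ℂ) :
    degree (c.D p) - degree c.H = (mult p c.f : ℤ) - c.f.totalDegree := by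
  have hu := c.sub_ne 0 (p 0)
  have h1 := degree_pol (transc_div hu (c.sub_ne_smul p))
  have h2 := c.finrank_proj p
  have h3 : divF (c.ξ 0 - algebraMap ℂ K (p 0)) = c.D p - c.H +
      pol ((c.ξ 1 - algebraMap ℂ K (p 1)) / (c.ξ 0 - algebraMap ℂ K (p 0))) := by
    ext P
    have := c.min_ord p P
    rw [Finsupp.add_apply, Finsupp.sub_apply, pol_apply, ord_div (c.sub_ne 1 _) hu, divF_apply]
    omega
  have h4 := congrArg degree h3
  rw [degree_div, map_add, map_sub] at h4
  omega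

lemma eval_eq_zero {p : Fin 2 → ℂ} {P : Place K} (h : 0 < c.D p P) {g : P2}
    (hg : aeval c.ξ g ∈ Ge P 1) : eval p g = 0 := by
  have h1 := c.ev_mem_pow (c.H_eq_zero h) (n := 1) (by simpa using sub_C_mem p g)
  have h2 := sub_mem hg (Ge_mono (by omega) h1)
  rw [map_sub, sub_sub_cancel, aeval_C] at h2
  exact P.const_eq_zero (mem_Ge_one.1 h2)

lemma degree_H : degree c.H = c.f.totalDegree := by
  obtain ⟨p, hp⟩ : ∃ p, eval p c.f ≠ 0 := by
    by_contra h
    push Not at h
    exact c.prime.ne_zero (MvPolynomial.funext fun p => by simpa using h p)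
  have h1 : c.D p = 0 := by
    ext P
    have h2 := c.D_nonneg p P
    have h3 : ¬ 0 < c.D p P := fun h => hp (c.eval_eq_zero h (by simp [c.ev_f]))
    simp; omega
  have h4 : ¬ 1 ≤ mult p c.f := fun h =>
    hp (mem_mi.1 (by simpa using (mem_pow_iff c.prime.ne_zero).2 h))
  have h5 := c.degree_D_sub p
  rw [h1, map_zero] at h5
  omega

lemma degree_D (p : Fin 2 → ℂ) : degree (c.D p) = mult p c.f := by
  have h1 := c.degree_D_sub p
  have h2 := c.degree_H
  omega

lemma degree_cls {ι : Type} [Fintype ι] (p : ι → Fin 2 → ℂ) (e : ℕ) (n : ι → ℕ) :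
    degree (c.cls p e n) = e * c.f.totalDegree - ∑ i, (n i : ℤ) * mult (p i) c.f := by
  simp [cls, map_sum, degree_H, degree_D]

end Crv

end Pool.Agent.Lib.MP_3c72fe_ag
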