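import Pool.Agent.Lib.MP_3c72fe_ag.Hur

open Filter Set WithZero Module Finsupp IntermediateField
open Pool.Agent.Lib.MP_cc3443_ag

noncomputable section

namespace Pool.Agent.Lib.MP_3c72fe_ag

variable {K : Type} [Field K] [Algebra ℂ K]

section basic
variable [IsFF K]

/-- Functions vanishing to order at least `n`. -/
def Ge (P : Place K) (n : ℤ) : Submodule ℂ K where
  carrier := {z | P.val z ≤ exp (-n)}
  add_mem' := fun ha hb => P.val.map_add_le ha hb
  zero_mem' := by simp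
  smul_mem' := fun c z hz => (P.val_smul_le c z).trans hz

variable {P : Place K} {n m : ℤ} {z w : K}

lemma mem_Ge : z ∈ Ge P n ↔ P.val z ≤ exp (-n) := Iff.rfl

lemma mem_Ge_iff (hz : z ≠ 0) : z ∈ Ge P n ↔ n ≤ P.ord z := P.val_le_iff hz

lemma mem_Ge_of_le (h : n ≤ P.ord z) : z ∈ Ge P n := by
  by_cases hz : z = 0
  · simp [hz]
  · exact (mem_Ge_iff hz).2 h

lemma Ge_mono (h : n ≤ m) (hz : z ∈ Ge P m) : z ∈ Ge P n :=
  le_trans hz (exp_le_exp.2 (by omega))

lemma Ge_mul (hz : z ∈ Ge P n) (hw : w ∈ Ge P m) : z * w ∈ Ge P (n + m) := by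
  rw [mem_Ge, map_mul, neg_add, exp_add]
  exact mul_le_mul' hz hw

lemma Ge_mul' {k : ℤ} (hz : z ∈ Ge P n) (hw : w ∈ Ge P m) (h : k ≤ n + m) : z * w ∈ Ge P k :=
  Ge_mono h (Ge_mul hz hw)

lemma mem_Ge_zero : z ∈ Ge P 0 ↔ z ∈ P.O := by rw [mem_Ge, P.mem_iff]; simp

lemma mem_Ge_one : z ∈ Ge P 1 ↔ P.val z < 1 := P.val_lt_one_iff.symm

lemma const_mem_Ge (c : ℂ) : algebraMap ℂ K c ∈ Ge P 0 := mem_Ge_zero.2 (P.const c)

lemma one_mem_Ge : (1 : K) ∈ Ge P 0 := mem_Ge_zero.2 (one_mem _)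

lemma Ge_pow (hz : z ∈ Ge P n) (k : ℕ) : z ^ k ∈ Ge P (k * n) := by
  induction k with
  | zero => simpa using one_mem_Ge
  | succ k ih => rw [pow_succ]; exact Ge_mul' ih hz (by push_cast; linarith)

lemma ord_const {c : ℂ} (hc : c ≠ 0) : P.ord (algebraMap ℂ K c) = 0 :=
  P.ord_eq_of_val (by simpa using P.val_const hc)

lemma ord_div (hz : z ≠ 0) (hw : w ≠ 0) : P.ord (z / w) = P.ord z - P.ord w := by
  rw [div_eq_mul_inv, P.ord_mul hz (inv_ne_zero hw), P.ord_inv]; ring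

lemma Ge_div (hz : z ∈ Ge P n) (w : K) : z / w ∈ Ge P (n - P.ord w) := by
  rw [div_eq_mul_inv]
  exact Ge_mul' hz (mem_Ge_of_le le_rfl) (by rw [P.ord_inv]; omega)

lemma ord_eq_of_sub (hz : z ≠ 0) (h : w - z ∈ Ge P (P.ord z + 1)) : w ≠ 0 ∧ P.ord w = P.ord z := by
  have h1 : P.val (w - z) < P.val z := by
    rw [P.val_eq hz]; exact lt_of_le_of_lt h (exp_lt_exp.2 (by omega))
  have h2 := P.val.map_eq_of_sub_lt h1
  refine ⟨fun h0 => hz (by simpa [h0] using h2.symm), P.ord_eq_of_val (h2.trans (P.val_eq hz))⟩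

/-- Riemann-Roch space. -/
def LL (E : Place K →₀ ℤ) : Submodule ℂ K := ⨅ P, Ge P (-E P)

/-- Its dimension. -/
def el (E : Place K →₀ ℤ) : ℤ := finrank ℂ (LL E)

variable {E E' : Place K →₀ ℤ}

lemma mem_LL : z ∈ LL E ↔ ∀ P, z ∈ Ge P (-E P) := Submodule.mem_iInf _

lemma LL_mono (h : E ≤ E') : LL E ≤ LL E' := fun _ hz =>
  mem_LL.2 fun P => Ge_mono (neg_le_neg (h P)) (mem_LL.1 hz P)

lemma LL_mul (hz : z ∈ LL E) (hw : w ∈ LL E') : z * w ∈ LL (E + E') :=
  mem_LL.2 fun P => Ge_mul' (mem_LL.1 hz P) (mem_LL.1 hw P) (by simp [add_comm])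

lemma LL_pow (hz : z ∈ LL E) (k : ℕ) : z ^ k ∈ LL (k • E) :=
  mem_LL.2 fun P => by simpa using Ge_pow (mem_LL.1 hz P) k

lemma one_mem_LL (h : 0 ≤ E) : (1 : K) ∈ LL E :=
  mem_LL.2 fun P => Ge_mono (by simpa using h P) one_mem_Ge

lemma LL_div (hz : z ∈ LL E) (w : K) : z / w ∈ LL (E + divF w) :=
  mem_LL.2 fun P => Ge_mono (by simp; omega) (Ge_div (mem_LL.1 hz P) w)

lemma nonneg_of_mem (hz : z ∈ LL E) (h0 : z ≠ 0) : 0 ≤ E + divF z := fun P => by
  have := (mem_Ge_iff h0).1 (mem_LL.1 hz P)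
  simp; omega

/-- Polar divisor. -/
def pol (t : K) : Place K →₀ ℤ := (-divF t) ⊔ 0

lemma pol_apply (t : K) (P : Place K) : pol t P = max (-P.ord t) 0 := by
  simp [pol, Finsupp.sup_apply]

lemma pol_nonneg (t : K) : 0 ≤ pol t := le_sup_right

lemma mem_LL_pol (t : K) : t ∈ LL (pol t) :=
  mem_LL.2 fun P => mem_Ge_of_le (by rw [pol_apply]; omega)

lemma pol_le {t : K} (h : t ∈ LL E) (hE : 0 ≤ E) : pol t ≤ E := fun P => by
  have h1 : 0 ≤ E P := hE P
  rw [pol_apply]
  by_cases h0 : t = 0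
  · simpa [h0] using h1
  · have := (mem_Ge_iff h0).1 (mem_LL.1 h P)
    omega

lemma degree_mono' (h : E ≤ E') : degree E ≤ degree E' := by
  have := degree_nonneg (sub_nonneg.2 h)
  rw [map_sub] at this
  omega

end basic

section inst
variable [Algebra (RatFunc ℂ) K] [IsScalarTower ℂ (RatFunc ℂ) K]
  [FiniteDimensional (RatFunc ℂ) K]

lemma sec_equiv (E : Place K →₀ ℤ) : Nonempty (sec (line (1 : Fin 1 → K) E) 0 ≃ₗ[ℂ] LL E) :=
  ⟨(LinearEquiv.funUnique (Fin 1) ℂ K).ofSubmodules _ _ (by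
    ext z
    rw [Submodule.mem_map_equiv, mem_sec, mem_LL]
    simp only [tw_zero, one_smul, mem_line_one, mem_Ge, neg_neg]
    rfl)⟩

lemma el_eq_ell (E : Place K →₀ ℤ) : el E = ell K E := by
  obtain ⟨e⟩ := sec_equiv E
  rw [el, ell, hdim, e.finrank_eq]

lemma degree_pol_uu : degree (pol (uu K)) = finrank (RatFunc ℂ) K := by
  have h1 : ∀ n : ℕ, hO K n = ell K (n • pol (uu K)) := fun n => by
    rw [← el_eq_ell, hO, el]
    have : {z : K | ∀ x : Place K, tw x n * z ∈ x.O} = LL (n • pol (uu K)) := by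
      ext z
      simp only [mem_ofPred_eq, SetLike.mem_coe, mem_LL]
      refine forall_congr' fun x => ?_
      by_cases h0 : z = 0
      · simp [h0]
      rw [mem_Ge_iff h0, x.mem_iff_ord (mul_ne_zero (tw_ne_zero x n) h0),
        x.ord_mul (tw_ne_zero x n) h0, Finsupp.smul_apply, pol_apply]
      rcases U0_or_Ui x with hx | hx
      · have := (x.mem_iff_ord uu_ne_zero).1 hx
        rw [tw_U0 hx, max_eq_right (by omega)]; simp
      · have : ¬ 0 ≤ x.ord (uu K) := fun h => hx ((x.mem_iff_ord uu_ne_zero).2 h)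
        rw [tw_Ui hx, max_eq_left (by omega), x.ord_zpow]
        simp only [nsmul_eq_mul]
        constructor <;> intro h <;> linarith
    rw [this, Submodule.span_eq]
  have h2 : 0 < degree (pol (uu K)) := by
    obtain ⟨x, hx⟩ := (good_Ui (K := K)).ne
    have : ¬ 0 ≤ x.ord (uu K) := fun h => hx ((x.mem_iff_ord uu_ne_zero).2 h)
    have h3 := le_degree_of_nonneg (pol_nonneg (uu K)) x
    rw [pol_apply] at h3
    omega
  obtain ⟨N, hN⟩ := eventually_atTop.1 (eventually_hO (K := K))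
  let n : ℕ := N.natAbs + (2 * chiO K).natAbs + 1
  have h4 := hN n (by omega)
  have h5 : (n : ℤ) * 1 ≤ n * degree (pol (uu K)) := by gcongr; omega
  rw [h1, ell_eq (by rw [map_nsmul, nsmul_eq_mul]; omega), map_nsmul, nsmul_eq_mul] at h4
  exact mul_left_cancel₀ (a := (n : ℤ)) (by omega) (by unfold dlt at h4; omega)

lemma exists_W {D : Derivation ℂ K K} (hD : D ≠ 0) : ∃ W : Place K →₀ ℤ,
    degree W ≤ -2 * chiO K ∧ ∀ P : Place K, P.ord (D P.unif) = -W P := by
  have h1 := deriv_ne_zero hD (uu_transc (K := K))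
  let w : Place K →₀ ℤ := Finsupp.ofSupportFinite _ (finite_ord_deriv hD)
  refine ⟨-w, ?_, fun P => by simp [w, Finsupp.ofSupportFinite_coe]⟩
  have h2 := degree_mono' (le_canon (D := (D (uu K))⁻¹ • D) (W := -w + divF (D (uu K)))
    (by simp [h1]) fun x => by
      rw [Derivation.smul_apply, smul_eq_mul,
        x.ord_mul (inv_ne_zero h1) (deriv_ne_zero hD x.transc_unif)]
      simp [w, Finsupp.ofSupportFinite_coe])
  rwa [map_add, degree_divF, add_zero, degree_canon] at h2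

end inst

section free
variable [IsFF K]

lemma exists_inst {t : K} (ht : Transcendental ℂ t) : ∃ (_ : Algebra (RatFunc ℂ) K)
    (_ : IsScalarTower ℂ (RatFunc ℂ) K) (_ : FiniteDimensional (RatFunc ℂ) K),
    uu K = t ∧ finrank (RatFunc ℂ) K = finrank ℂ⟮t⟯ K := by
  let e := RatFunc.algEquivOfTranscendental t ht
  letI i : Algebra (RatFunc ℂ) K := ((algebraMap ℂ⟮t⟯ K).comp e.toRingEquiv.toRingHom).toAlgebra
  haveI := IsFF.fin t ht
  refine ⟨i, IsScalarTower.of_algebraMap_eq fun c => ?_,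
    Module.Finite.of_equiv_equiv e.symm.toRingEquiv (RingEquiv.refl K) (RingHom.ext fun a => ?_),
    RatFunc.algEquivOfTranscendental_X t ht,
    Algebra.finrank_eq_of_equiv_equiv e.toRingEquiv (RingEquiv.refl K) rfl⟩
  · change _ = algebraMap ℂ⟮t⟯ K (e (algebraMap ℂ _ c))
    rw [e.commutes]; rfl
  · change algebraMap ℂ⟮t⟯ K (e (e.symm a)) = _
    rw [e.apply_symm_apply]; rfl

lemma degree_pol {t : K} (ht : Transcendental ℂ t) : degree (pol t) = finrank ℂ⟮t⟯ K := by
  obtain ⟨_, _, _, h1, h2⟩ := exists_inst ht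
  rw [← h2, ← h1, degree_pol_uu]

lemma degree_div (z : K) : degree (divF z) = 0 := by
  obtain ⟨t, ht⟩ := IsFF.ex (K := K)
  obtain ⟨_, _, _, -⟩ := exists_inst ht
  exact degree_divF z

instance (E : Place K →₀ ℤ) : FiniteDimensional ℂ (LL E) := by
  obtain ⟨t, ht⟩ := IsFF.ex (K := K)
  obtain ⟨_, _, _, -⟩ := exists_inst ht
  obtain ⟨e⟩ := sec_equiv E
  exact Module.Finite.equiv e

lemma exists_der : ∃ D : Derivation ℂ K K, D ≠ 0 := by
  obtain ⟨t, ht⟩ := IsFF.ex (K := K)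
  obtain ⟨_, _, _, -⟩ := exists_inst ht
  exact exists_deriv

lemma exists_rr : ∃ (χ : ℤ) (κ : Place K →₀ ℤ), degree κ = -2 * χ ∧
    (∀ E, el E - el (κ - E) = χ + degree E) ∧ ∀ D : Derivation ℂ K K, D ≠ 0 →
      ∃ W : Place K →₀ ℤ, degree W ≤ -2 * χ ∧ ∀ P : Place K, P.ord (D P.unif) = -W P := by
  obtain ⟨t, ht⟩ := IsFF.ex (K := K)
  obtain ⟨_, _, _, -⟩ := exists_inst ht
  exact ⟨chiO K, canon K, degree_canon, fun E => by rw [el_eq_ell, el_eq_ell, ell_sub],
    fun D hD => exists_W hD⟩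

variable (K) in
/-- One minus the genus. -/
def chi : ℤ := (exists_rr (K := K)).choose

variable (K) in
/-- A canonical divisor. -/
def kap : Place K →₀ ℤ := (exists_rr (K := K)).choose_spec.choose

lemma degree_kap : degree (kap K) = -2 * chi K := (exists_rr (K := K)).choose_spec.choose_spec.1

lemma rr (E : Place K →₀ ℤ) : el E - el (kap K - E) = chi K + degree E :=
  (exists_rr (K := K)).choose_spec.choose_spec.2.1 E

lemma hur {D : Derivation ℂ K K} (hD : D ≠ 0) : ∃ W : Place K →₀ ℤ,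
    degree W ≤ -2 * chi K ∧ ∀ P : Place K, P.ord (D P.unif) = -W P :=
  (exists_rr (K := K)).choose_spec.choose_spec.2.2 D hD

variable {E E' : Place K →₀ ℤ} {z w : K}

lemma degree_nonneg_of_mem (hz : z ∈ LL E) (h0 : z ≠ 0) : 0 ≤ degree E := by
  have := degree_nonneg (nonneg_of_mem hz h0)
  rwa [map_add, degree_div, add_zero] at this

lemma eq_zero_of_mem (hz : z ∈ LL E) (h : degree E < 0) : z = 0 := by
  by_contra h0
  exact (degree_nonneg_of_mem hz h0).not_gt h

lemma el_nonneg (E : Place K →₀ ℤ) : 0 ≤ el E := Int.natCast_nonneg _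

lemma el_mono (h : E ≤ E') : el E ≤ el E' :=
  Int.ofNat_le.2 (Submodule.finrank_mono (LL_mono h))

lemma el_eq_zero (h : degree E < 0) : el E = 0 := by
  rw [el, Int.natCast_eq_zero, Submodule.finrank_eq_zero, eq_bot_iff]
  exact fun z hz => eq_zero_of_mem hz h

lemma el_eq (h : -2 * chi K < degree E) : el E = chi K + degree E := by
  rw [← rr, el_eq_zero (E := kap K - E) (by rw [map_sub, degree_kap]; omega), sub_zero]

lemma el_le_add (h : E' ≤ E) : el E ≤ el E' + (degree E - degree E') := by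
  have h1 := rr E
  have h2 := rr E'
  have h3 := el_mono (sub_le_sub_left h (kap K))
  omega

lemma card_le_el {ι : Type} [Fintype ι] {v : ι → K} (hv : LinearIndependent ℂ v)
    (h : ∀ i, v i ∈ LL E) : (Fintype.card ι : ℤ) ≤ el E := by
  have : LinearIndependent ℂ fun i => (⟨v i, h i⟩ : LL E) :=
    LinearIndependent.of_comp (LL E).subtype hv
  exact Int.ofNat_le.2 this.fintype_card_le_finrank

lemma exists_pair (h : 2 ≤ el E) : ∃ s ∈ LL E, ∃ s' ∈ LL E, s' ≠ 0 ∧ ∀ c : ℂ, s ≠ c • s' := by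
  have h1 : 1 < finrank ℂ (LL E) := by unfold el at h; omega
  haveI : Nontrivial (LL E) := Module.nontrivial_of_finrank_pos (R := ℂ) (by omega)
  obtain ⟨v, hv⟩ := exists_ne (0 : LL E)
  by_contra h2
  push Not at h2
  refine h1.not_ge (finrank_le_one v fun s => ?_)
  obtain ⟨c, hc⟩ := h2 s s.2 v v.2 (by simpa using hv)
  exact ⟨c, Subtype.ext hc.symm⟩

lemma transc_div (h0 : w ≠ 0) (hc : ∀ c : ℂ, z ≠ c • w) : Transcendental ℂ (z / w) :=
  transc_of_not_const fun c h => hc c (by rw [Algebra.smul_def, ← h, div_mul_cancel₀ _ h0])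

lemma finrank_le_degree (hz : z ∈ LL E) (hw : w ∈ LL E) (h0 : w ≠ 0) (hc : ∀ c : ℂ, z ≠ c • w) :
    (finrank ℂ⟮z / w⟯ K : ℤ) ≤ degree E := by
  rw [← degree_pol (transc_div h0 hc)]
  have := degree_mono' (pol_le (LL_div hz w) (nonneg_of_mem hw h0))
  rwa [map_add, degree_div, add_zero] at this

variable (K) in
/-- The curve is not rational. -/
def NR : Prop := ∀ t : K, ℂ⟮t⟯ ≠ ⊤

lemma NR.two_le_finrank (h : NR K) {t : K} (ht : Transcendental ℂ t) : 2 ≤ finrank ℂ⟮t⟯ K := by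
  haveI := IsFF.fin t ht
  by_contra h1
  have h2 : 0 < finrank ℂ⟮t⟯ K := finrank_pos
  exact h t (IntermediateField.finrank_eq_one_iff_eq_top.1 (by omega))

lemma NR.two_le_degree (h : NR K) (h2 : 2 ≤ el E) : 2 ≤ degree E := by
  obtain ⟨s, hs, s', hs', h0, hc⟩ := exists_pair h2
  have h3 := finrank_le_degree hs hs' h0 hc
  have h4 := h.two_le_finrank (transc_div h0 hc)
  omega

omit [IsFF K] in
lemma linInd_pow {t : K} (ht : Transcendental ℂ t) : LinearIndependent ℂ fun i : ℕ => t ^ i := by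
  have := (Polynomial.basisMonomials ℂ).linearIndependent.map' (Polynomial.aeval t).toLinearMap
    (LinearMap.ker_eq_bot.2 (transcendental_iff_injective.1 ht))
  have h : (Polynomial.aeval t).toLinearMap ∘ Polynomial.basisMonomials ℂ = fun i : ℕ => t ^ i := by
    ext i; simp
  rwa [h] at this

lemma nr_of_chi (h : chi K ≤ 0) : NR K := fun t ht => by
  have h1 : Transcendental ℂ t := by
    refine transc_of_not_const fun c hc => ?_
    obtain ⟨u, hu⟩ := IsFF.ex (K := K)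
    have : u ∈ ℂ⟮t⟯ := ht ▸ mem_top
    rw [hc, adjoin_simple_eq_bot_iff.2 (by simp), IntermediateField.mem_bot] at this
    obtain ⟨a, rfl⟩ := this
    exact hu (isAlgebraic_algebraMap a)
  have h2 := degree_pol h1
  rw [IntermediateField.finrank_eq_one_iff_eq_top.2 ht] at h2
  let n : ℕ := (2 * chi K).natAbs + 1
  have h3 : LinearIndependent ℂ fun i : Fin (n + 1) => t ^ (i : ℕ) :=
    (linInd_pow h1).comp _ Fin.val_injective
  have h4 := card_le_el (E := n • pol t) h3 fun i =>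
    LL_mono (nsmul_le_nsmul_left (pol_nonneg t) (by omega)) (LL_pow (mem_LL_pol t) i)
  rw [el_eq (by rw [map_nsmul, h2]; simp; omega), map_nsmul, h2] at h4
  simp at h4
  omega

/-- On a curve with a pencil `η` of degree two. -/
lemma el_eq_of_pencil {η : Place K →₀ ℤ} (h0 : 0 ≤ η) (h2 : degree η = 2) {φ : K} (hφ : φ ∈ LL η)
    (ht : Transcendental ℂ φ) (h : el (E - η) + 2 ≤ el E) : el E = chi K + degree E := by
  have h1 := rr E
  have h3 := rr (E - η)
  rw [map_sub, h2] at h3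
  have h4 : kap K - E ≤ kap K - (E - η) := sub_le_sub_left (sub_le_self _ h0) _
  have h5 : LL (kap K - E) = LL (kap K - (E - η)) :=
    Submodule.eq_of_le_of_finrank_le (LL_mono h4) (by unfold el at h h1 h3; omega)
  suffices h6 : el (kap K - E) = 0 by omega
  by_contra h6
  haveI : Nontrivial (LL (kap K - E)) :=
    Module.nontrivial_of_finrank_pos (R := ℂ) (by unfold el at h6; omega)
  let T : Module.End ℂ (LL (kap K - E)) := (LinearMap.mulLeft ℂ φ).restrict fun z hz => by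
    rw [h5]
    have h8 : kap K - (E - η) = η + (kap K - E) := by abel
    rw [h8]
    exact LL_mul hφ hz
  obtain ⟨c, hc⟩ := Module.End.exists_eigenvalue T
  obtain ⟨v, hv⟩ := hc.exists_hasEigenvector
  have h7 : φ * v = c • (v : K) := congrArg Subtype.val hv.apply_eq_smul
  rw [Algebra.smul_def, mul_left_inj' (by simpa using hv.2)] at h7
  exact ht (h7 ▸ isAlgebraic_algebraMap c)

end free

end Pool.Agent.Lib.MP_3c72fe_ag
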