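import Pool.Agent.Lib.MP_3c72fe_ag.Bary

open Filter Set WithZero Module Finsupp IntermediateField MvPolynomial
open Pool.Agent.Lib.MP_cc3443_ag

noncomputable section

namespace Pool.Agent.Lib.MP_3c72fe_ag

variable {ι : Type} [Fintype ι] [DecidableEq ι] {p : ι → Fin 2 → ℂ}

lemma exists_cubic (p : ι → Fin 2 → ℂ) {T : Finset ι} (hT : T.card = 9) :
    ∃ G : P2, G ≠ 0 ∧ G.totalDegree ≤ 3 ∧ ∀ i ∈ T, eval (p i) G = 0 := by
  let I := {l : Fin 4 × Fin 4 // l.1.val + l.2.val ≤ 3}
  let s : I → Fin 2 →₀ ℕ := fun l => single 0 l.1.1.val + single 1 l.1.2.val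
  have hs : Function.Injective s := fun l l' h => by
    have h0 := DFunLike.congr_fun h 0
    have h1 := DFunLike.congr_fun h 1
    simp [s] at h0 h1
    exact Subtype.ext (Prod.ext (Fin.ext h0) (Fin.ext h1))
  let Ψ : (I → ℂ) →ₗ[ℂ] P2 := ∑ l, (monomial (s l)).comp (LinearMap.proj l)
  have hΨ : ∀ a, Ψ a = ∑ l, monomial (s l) (a l) := fun a => by simp [Ψ]
  let Φ : (I → ℂ) →ₗ[ℂ] (T → ℂ) := LinearMap.pi fun t => (aeval (p t)).toLinearMap.comp Ψ
  have hI : Fintype.card I = 10 := by decide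
  obtain ⟨a, ha, ha0⟩ := Submodule.exists_mem_ne_zero_of_ne_bot
    (LinearMap.ker_ne_bot_of_finrank_lt (f := Φ) (by simp [hI, hT]))
  refine ⟨Ψ a, fun h => ha0 (funext fun l => ?_), ?_, fun i hi => ?_⟩
  · have := congrArg (coeff (s l)) h
    simpa [hΨ, coeff_sum, coeff_monomial, hs.eq_iff] using this
  · rw [hΨ]
    refine totalDegree_finsetSum_le fun l _ => (totalDegree_monomial_le _ _).trans ?_
    rw [Finsupp.sum_fintype _ _ (by simp)]
    simpa [s] using l.2
  · rw [← aeval_eq_eval]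
    exact congrFun ha ⟨i, hi⟩

lemma VG.card_line (hp : VG p) {g : P2} (hg : g ≠ 0) (h : g.totalDegree ≤ 1) (T : Finset ι) :
    (T.filter fun i => eval (p i) g = 0).card ≤ 2 := by
  by_contra h1
  obtain ⟨a, ha, b, hb, e, he, hab, hae, hbe⟩ := Finset.two_lt_card.1 (not_le.1 h1)
  obtain ⟨B⟩ := exists_bary (q := ![p a, p b, p e]) (hp.det_ne hab hae hbe)
  apply hg
  rw [B.interp h]
  simp [(Finset.mem_filter.1 ha).2, (Finset.mem_filter.1 hb).2, (Finset.mem_filter.1 he).2]

variable {K : Type} [Field K] [Algebra ℂ K] [IsFF K]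

lemma sum_ind (T : Finset ι) (a : ℕ) (φ : ι → ℕ) :
    ∑ i, ((if i ∈ T then a else 0 : ℕ) : ℤ) * φ i = a * ∑ i ∈ T, (φ i : ℤ) := by
  simp [Finset.mul_sum]

namespace Crv

lemma exists_prime_cubic (c : Crv K) (hp : VG p) (hd : c.d = 9) {T : Finset ι} (hT : T.card = 9)
    (h3 : ∀ i ∈ T, c.m p i = 3) :
    ∃ G : P2, Prime G ∧ G.totalDegree = 3 ∧ ∀ i ∈ T, eval (p i) G = 0 := by
  have h1 : ∀ g : P2, g ≠ 0 → g.totalDegree ≤ 2 →
      (T.filter fun i => eval (p i) g = 0).card ≤ 6 := fun g hg h => by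
    have := c.bezout hp.inj hg h (by omega)
      (n := fun i => if i ∈ T.filter fun i => eval (p i) g = 0 then 1 else 0) fun i => by
        split_ifs with hi
        · simpa using mem_mi.2 (Finset.mem_filter.1 hi).2
        · simp
    rw [sum_ind, Finset.sum_congr rfl fun i hi => by rw [h3 i (Finset.mem_filter.1 hi).1], hd] at this
    simp at this
    omega
  obtain ⟨G, h0, h2, h4⟩ := exists_cubic p hT
  have h5 : G.totalDegree = 3 := by
    by_contra h
    have := h1 G h0 (by omega)
    rw [Finset.filter_true_of_mem h4] at this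
    omega
  have h6 : ∀ g h : P2, G = g * h → g.totalDegree ≠ 1 := fun g h hG h7 => by
    have hg : g ≠ 0 := by rintro rfl; exact h0 (by simpa using hG)
    have hh : h ≠ 0 := by rintro rfl; exact h0 (by simpa using hG)
    have h8 := totalDegree_mul_of_isDomain hg hh
    have h9 := hp.card_line hg h7.le T
    have h10 := h1 h hh (by rw [← hG] at h8; omega)
    have h11 := (Finset.card_le_card (s := T) fun i hi => by
      have := h4 i hi
      rw [hG, map_mul, mul_eq_zero] at this
      simpa [hi] using this).trans (Finset.card_union_le (T.filter fun i => eval (p i) g = 0)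
        (T.filter fun i => eval (p i) h = 0))
    omega
  have h7 : ∀ g : P2, g ≠ 0 → g.totalDegree = 0 → IsUnit g := fun g hg h => by
    rw [totalDegree_eq_zero_iff_eq_C] at h
    rw [h] at hg ⊢
    exact (IsUnit.mk0 _ (by simpa using hg)).map C
  refine ⟨G, Irreducible.prime ⟨fun h => ?_, fun g h hG => ?_⟩, h5, h4⟩
  · have := (isUnit_iff_totalDegree_of_isReduced.1 h).2
    omega
  · have hg : g ≠ 0 := by rintro rfl; exact h0 (by simpa using hG)
    have hh : h ≠ 0 := by rintro rfl; exact h0 (by simpa using hG)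
    have h8 := totalDegree_mul_of_isDomain hg hh
    have h9 := h6 g h hG
    have h10 := h6 h g (hG.trans (mul_comm _ _))
    rw [← hG] at h8
    by_cases h11 : g.totalDegree = 0
    · exact Or.inl (h7 g hg h11)
    · exact Or.inr (h7 h hh (by omega))

lemma not_halphen_aux (c : Crv K) (hp : VG p) (hd : c.d = 3) {T : Finset ι} (hT : T.card = 9)
    (h1 : ∀ i ∈ T, eval (p i) c.f = 0) {f : P2} (hf : ¬ c.f ∣ f) (h9 : f.totalDegree ≤ 9)
    (h3 : ∀ i ∈ T, f ∈ mi (p i) ^ 3) : False := by
  let n : ι → ℕ := fun i => if i ∈ T then 3 else 0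
  have hn : ∀ i, f ∈ mi (p i) ^ n i := fun i => by
    by_cases hi : i ∈ T
    · simpa [n, hi] using h3 i hi
    · simp [n, hi]
  have h0 : aeval c.ξ f ≠ 0 := fun h => hf ((c.ker f).1 h)
  have h2 := c.ev_mem_LL hp.inj h9 hn
  have h4 : ∀ i ∈ T, 1 ≤ c.m p i := fun i hi =>
    (mem_pow_iff c.prime.ne_zero).1 (by simpa using mem_mi.2 (h1 i hi))
  have h5 : degree (c.cls p 9 n) = 27 - 3 * ∑ i ∈ T, (c.m p i : ℤ) := by
    rw [degree_cls, sum_ind]; unfold d at hd; rw [hd]; rfl
  have h6 := degree_nonneg_of_mem h2 h0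
  have h7 : ∀ i ∈ T, c.m p i = 1 := fun i hi => by
    have h8 := Finset.card_nsmul_le_sum (T.erase i) (fun i => (c.m p i : ℤ)) 1
      fun l hl => by exact_mod_cast h4 l (Finset.mem_of_mem_erase hl)
    have h10 := Finset.add_sum_erase T (fun i => (c.m p i : ℤ)) hi
    have h11 := h4 i hi
    rw [Finset.card_erase_of_mem hi, hT] at h8
    simp at h8 h10
    omega
  have h8 : ∀ S ⊆ T, ∑ i ∈ S, (c.m p i : ℤ) = S.card := fun S hS => by
    rw [Finset.sum_congr rfl fun i hi => by rw [h7 i (hS hi)]]; simp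
  rw [h8 T le_rfl, hT] at h5
  obtain ⟨j, hj⟩ : T.Nonempty := Finset.card_pos.1 (by omega)
  have hfj : c.f ∈ mi (p j) := mem_mi.2 (h1 j hj)
  have hK : NR K := by
    obtain ⟨δ, h10, h11⟩ := c.exists_simple hp (h7 j hj)
    obtain ⟨W, hW, hW'⟩ := c.equigeneric hp.inj hfj
    have h12 := degree_nonneg_of_mem (hW' δ (fun i => if i ∈ T.erase j then 1 else 0) fun i => by
      by_cases hi : i ∈ T.erase j
      · exact Or.inr ⟨if_pos hi, h10 i (Finset.ne_of_mem_erase hi)⟩
      · exact Or.inl (if_neg hi)) fun h => h11 (rigid_one ((c.ker _).1 h) hfj)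
    have h13 := h8 _ (Finset.erase_subset j T)
    rw [Finset.card_erase_of_mem hj, hT] at h13
    rw [map_add, degree_cls, sum_ind] at h12
    unfold d at hd
    unfold m at h13
    rw [h13, hd] at h12
    exact nr_of_chi (by simp at h12; omega)
  obtain ⟨P, hP⟩ : ∃ P, 0 < c.D (p j) P := by
    by_contra h
    push Not at h
    have h10 : c.D (p j) = 0 := Finsupp.ext fun P => le_antisymm (h P) (c.D_nonneg _ P)
    have h11 := c.degree_D' (p := p) j
    rw [h10, h7 j hj] at h11
    simp at h11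
  have h10 := le_degree_of_nonneg (D := c.D (p j)) (fun P => c.D_nonneg _ P) P
  rw [degree_D', h7 j hj] at h10
  have h11 : c.D (p j) P = 1 := by omega
  have h12 := c.H_eq_zero hP
  have h13 : c.cls p 9 n P = -3 := by
    rw [cls, Finsupp.sub_apply, c.sum_D_apply hp.inj _ hP]
    simp [h12, h11, n, hj]
  have h14 : P.ord (aeval c.ξ f) = 3 := by
    have h15 := le_degree_of_nonneg (nonneg_of_mem h2 h0) P
    have h16 := nonneg_of_mem h2 h0 P
    rw [map_add, degree_div, h5] at h15
    simp [h13] at h15 h16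
    omega
  have h15 : ∀ k, aeval c.ξ (pderiv k f) ∈ Ge P 3 := fun k => by
    obtain ⟨δ, h16, h17⟩ := hp.single j (Pi.single k 1)
    have h18 : aeval c.ξ (cd δ f) ∈ LL (c.cls p 9 n + c.D (p j)) := by
      have := c.ev_mem_LL hp.inj ((totalDegree_cd δ f).trans h9) (n := Function.update n j 2)
        fun i => by
          by_cases hi : i = j
          · subst hi; simpa using der_pow_mem (cd δ) _ _ (h3 i hj)
          · rw [Function.update_of_ne hi]; exact cd_mem_of_fix (h17 i hi) (hn i)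
      rw [cls_update] at this
      simpa [n, hj] using this
    have h19 := hK.el_le_one (E := c.cls p 9 n + c.D (p j))
      (by rw [map_add, h5, degree_D', h7 j hj]; rfl)
    obtain ⟨a, ha⟩ : ∃ a : ℂ, aeval c.ξ (cd δ f) = a • aeval c.ξ f := by
      by_contra h
      push Not at h
      have := two_le_el (LL_mono (c.le_add_D _ _) h2) h18 fun a b hab =>
        LinearIndependent.pair_iff.1 ((LinearIndependent.pair_iff' h0).2 fun a => (h a).symm) a b hab
      omega
    have h20 := c.ev_mem_pow h12 (cd_add_dv_mem δ (h3 j hj))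
    rw [map_add, ha, h11] at h20
    have h21 := sub_mem h20 (Submodule.smul_mem _ a
      (mem_Ge_of_le (z := aeval c.ξ f) (by omega)))
    fin_cases k <;> simpa [dv_apply, h16] using h21
  obtain ⟨D, hD⟩ := exists_der (K := K)
  have h16 := chain (rz D) 0 (fun a => by simp) c.ξ f
  simp only [map_zero, cd_zero, Fin.sum_univ_two, rz_apply, zero_add] at h16
  have h17 : ∀ k, D (c.ξ k) ∈ Ge P (P.ord (D P.unif)) := fun k =>
    der_mem_zero hD (by simpa [h12] using c.mem_Ge_H P k)
  have h18 := add_mem (Ge_mul (h15 0) (h17 0)) (Ge_mul (h15 1) (h17 1))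
  rw [← h16, mem_Ge_iff (deriv_ne_zero hD (transc_of_not_const fun a ha => by
    have : a ≠ 0 := by rintro rfl; exact h0 (by simpa using ha)
    rw [ha, ord_const this] at h14
    omega)), ord_deriv hD P (z := aeval c.ξ f) (by omega)] at h18
  omega

/-- There is no Halphen curve of index three through very general points. -/
lemma not_halphen (c : Crv K) (hp : VG p) (hd : c.d = 9) {T : Finset ι} (hT : T.card = 9)
    (h3 : ∀ i ∈ T, c.m p i = 3) : False := by
  obtain ⟨G, hG, h1, h2⟩ := c.exists_prime_cubic hp hd hT h3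
  obtain ⟨K', _, _, c', rfl⟩ := exists_crv_of_prime hG (by omega)
  haveI := c'.isFF
  refine c'.not_halphen_aux hp h1 hT h2 (f := c.f) (fun h => ?_) hd.le
    fun i hi => c.f_mem i (h3 i hi).ge
  have := totalDegree_le_of_dvd_of_isDomain
    (hG.irreducible.associated_of_dvd c.prime.irreducible h).symm.dvd hG.ne_zero
  unfold d at hd
  omega

end Crv

end Pool.Agent.Lib.MP_3c72fe_ag
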