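import Pool.Agent.Lib.MP_cc3443_ag.RH
import Pool.Agent.Lib.MP_cc3443_ag.Dual

open Filter Set WithZero Module Finsupp IntermediateField
open Pool.Agent.Lib.MP_cc3443_ag

noncomputable section

namespace Pool.Agent.Lib.MP_3c72fe_ag

variable {K : Type} [Field K] [Algebra ℂ K]

lemma val_lt_one_iff_or [IsFF K] (x : Place K) {z : K} : x.val z < 1 ↔ z = 0 ∨ z⁻¹ ∉ x.O := by
  by_cases h : z = 0
  · simp [h]
  · rw [x.inv_mem_iff h]; simp [h]

variable [Algebra (RatFunc ℂ) K] [IsScalarTower ℂ (RatFunc ℂ) K]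
  [FiniteDimensional (RatFunc ℂ) K]

lemma val_trace_lt (x : Place K) {r : RatFunc ℂ} (hr : algebraMap (RatFunc ℂ) K r ∉ x.O) {u : K}
    (hu : ∀ P : Place K, algebraMap (RatFunc ℂ) K r ∉ P.O → P.val u < 1) :
    x.val (algebraMap (RatFunc ℂ) K (Algebra.trace (RatFunc ℂ) K u)) < 1 := by
  let L := AlgebraicClosure K
  obtain ⟨V, hV, hloc⟩ := IsLocalRing.exists_factor_valuationRing
    ((algebraMap K L).comp x.O.subtype)
  have h1 : ∀ z : K, algebraMap K L z ∈ V → z ∈ x.O := by
    intro z hz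
    by_contra h
    have h0 : z ≠ 0 := by rintro rfl; exact h (zero_mem _)
    have h2 := (x.O.mem_or_inv_mem z).resolve_left h
    have h3 : IsUnit (⟨z⁻¹, h2⟩ : x.O) := hloc.1 _ (isUnit_iff_exists_inv.2 ⟨⟨_, hz⟩, Subtype.ext (by
      change algebraMap K L z⁻¹ * algebraMap K L z = 1
      rw [← map_mul, inv_mul_cancel₀ h0, map_one])⟩)
    obtain ⟨w, hw⟩ := isUnit_iff_exists_inv.1 h3
    have h4 : z⁻¹ * (w : K) = 1 := congrArg Subtype.val hw
    rw [inv_mul_eq_one₀ h0] at h4
    exact h (h4 ▸ w.2)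
  have h2 : ∀ σ : K →ₐ[RatFunc ℂ] L, V.valuation (σ u) < 1 := by
    intro σ
    have h3 : algebraMap (RatFunc ℂ) K r ∉ V.comap σ.toRingHom := fun h => hr (h1 _ (by
      rw [← IsScalarTower.algebraMap_apply, ← σ.commutes]; exact h))
    let P : Place K :=
      { O := V.comap σ.toRingHom
        ne_top := fun h => h3 (h ▸ ValuationSubring.mem_top _)
        const := fun c => by
          change σ (algebraMap ℂ K c) ∈ V
          rw [IsScalarTower.algebraMap_apply ℂ (RatFunc ℂ) K, σ.commutes,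
            IsScalarTower.algebraMap_apply (RatFunc ℂ) K L, ← IsScalarTower.algebraMap_apply ℂ]
          exact hV ⟨_, x.const c⟩ }
    rw [← V.mem_nonunits_iff, V.mem_nonunits_iff_or]
    rcases (val_lt_one_iff_or P).1 (hu P h3) with h | h
    · exact Or.inl (by rw [h, map_zero])
    · exact Or.inr fun h' => h (by rw [← map_inv₀] at h'; exact h')
  have h4 : V.valuation (algebraMap (RatFunc ℂ) L (Algebra.trace (RatFunc ℂ) K u)) < 1 := by
    rw [trace_eq_sum_embeddings L]
    exact V.valuation.map_sum_lt one_ne_zero fun σ _ => h2 σ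
  rw [← V.mem_nonunits_iff, V.mem_nonunits_iff_or, IsScalarTower.algebraMap_apply (RatFunc ℂ) K L,
    ← map_inv₀] at h4
  rw [val_lt_one_iff_or]
  rcases h4 with h | h
  · exact Or.inl ((map_eq_zero _).1 h)
  · exact Or.inr fun h' => h (hV ⟨_, h'⟩)

lemma mem_A0_of_mem' {r : RatFunc ℂ} (h : ∀ x ∈ U0 K, algebraMap (RatFunc ℂ) K r ∈ x.O) :
    r ∈ A0 := by
  obtain ⟨p, hp, h1⟩ := exists_poly_approx r
  obtain ⟨c, hc⟩ := exists_const (z := algebraMap (RatFunc ℂ) K (r - p)) fun x => by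
    rcases U0_or_Ui x with hx | hx
    · rw [map_sub]; exact sub_mem (h x hx) (A0_mem hp hx)
    · exact Ri_mem h1.le hx
  rw [IsScalarTower.algebraMap_apply ℂ (RatFunc ℂ) K, (algebraMap (RatFunc ℂ) K).injective.eq_iff,
    sub_eq_iff_eq_add] at hc
  rw [hc]
  exact add_mem (A0.algebraMap_mem c) hp

omit [Algebra (RatFunc ℂ) K] [IsScalarTower ℂ (RatFunc ℂ) K] [FiniteDimensional (RatFunc ℂ) K] in
lemma val_aeval_sub [IsFF K] (x : Place K) {t : K} {a : ℂ} (ha : x.val (t - algebraMap ℂ K a) < 1)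
    (p : Polynomial ℂ) : x.val (Polynomial.aeval t p - algebraMap ℂ K (p.eval a)) < 1 := by
  obtain ⟨q, hq⟩ := Polynomial.X_sub_C_dvd_sub_C_eval (a := a) (p := p)
  have := congrArg (Polynomial.aeval t) hq
  simp only [map_sub, map_mul, Polynomial.aeval_C, Polynomial.aeval_X] at this
  rw [this, map_mul]
  exact (mul_le_of_le_one_right' (x.mem_iff.1 (x.aeval_mem (x.mem_of_val_sub_lt ha) q))).trans_lt ha

omit [Algebra (RatFunc ℂ) K] [IsScalarTower ℂ (RatFunc ℂ) K] [FiniteDimensional (RatFunc ℂ) K] in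
lemma val_aeval_eq_one [IsFF K] (x : Place K) {t : K} {a : ℂ}
    (ha : x.val (t - algebraMap ℂ K a) < 1) {p : Polynomial ℂ} (hp : p.eval a ≠ 0) :
    x.val (Polynomial.aeval t p) = 1 := by
  have h := val_aeval_sub x ha p
  rw [← x.val_const hp] at h ⊢
  exact x.val.map_eq_of_sub_lt h

lemma mem_of_val_mul_lt (x : Place K) {a : ℂ} (ha : x.val (uu K - algebraMap ℂ K a) < 1)
    {r : RatFunc ℂ} (h : x.val ((uu K - algebraMap ℂ K a) * algebraMap (RatFunc ℂ) K r) < 1) :
    algebraMap (RatFunc ℂ) K r ∈ x.O := by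
  have h1 : algebraMap (RatFunc ℂ) K r =
      Polynomial.aeval (uu K) r.num / Polynomial.aeval (uu K) r.denom := by
    conv_lhs => rw [← r.num_div_denom, map_div₀, algebraMap_poly, algebraMap_poly]
  have hx := x.mem_of_val_sub_lt ha
  rw [h1] at h ⊢
  by_cases h2 : r.denom.eval a = 0
  · exfalso
    have h3 : r.num.eval a ≠ 0 := fun h3 => by
      obtain ⟨b, c, hbc⟩ := r.isCoprime_num_denom
      have := congrArg (Polynomial.eval a) hbc
      simp [h2, h3] at this
    obtain ⟨q, hq⟩ := Polynomial.dvd_iff_isRoot.2 h2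
    have h4 : q ≠ 0 := by rintro rfl; exact r.denom_ne_zero (by simpa using hq)
    have h5 : Polynomial.aeval (uu K) q ≠ 0 := fun h => uu_transc ⟨q, h4, h⟩
    have h6 := transc_sub_ne (uu_transc (K := K)) a
    have h7 : Polynomial.aeval (uu K) r.denom =
        (uu K - algebraMap ℂ K a) * Polynomial.aeval (uu K) q := by rw [hq]; simp
    rw [h7, ← mul_div_assoc,
      mul_div_mul_left _ _ h6, map_div₀, val_aeval_eq_one x ha h3, one_div,
      inv_lt_one₀ (zero_lt_iff.2 (by simpa using h5))] at h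
    exact h.not_ge (x.mem_iff.1 (x.aeval_mem hx q))
  · rw [x.mem_iff, map_div₀, val_aeval_eq_one x ha h2, div_one]
    exact x.mem_iff.1 (x.aeval_mem hx _)

/-- Hurwitz: the divisor of a differential is at most the dualizing divisor. -/
lemma le_canon {D : Derivation ℂ K K} (hD : D (uu K) = 1) {W : Place K →₀ ℤ}
    (hW : ∀ x : Place K, x.ord (D x.unif) = -W x) : W ≤ canon K := by
  have hD0 : D ≠ 0 := by rintro rfl; simp at hD
  have hc := (exists_canon (K := K)).choose_spec
  have key : ∀ (U : Set (Place K)), Good U →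
      (∀ w ∈ (line (1 : Fin 1 → K) W).Γ U, w ∈ (line (1 : Fin 1 → K) (canon K)).Γ U) →
      ∀ x ∈ U, W x ≤ canon K x := by
    intro U hU h x hx
    have h1 : (line (1 : Fin 1 → K) W).S x ≤ (line (1 : Fin 1 → K) (canon K)).S x := by
      rw [← Lat.span_Γ _ hU hx, Submodule.span_le]
      exact fun w hw => h w hw x hx
    have h2 := mem_line_one.1 (h1 (mem_line_one.2 (show x.val ((x.unif ^ (-W x) • (1 : Fin 1 → K)) 0)
      ≤ exp (W x) by simp [x.val_unif_zpow, -map_zpow₀, -zpow_neg])))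
    simpa [x.val_unif_zpow, -map_zpow₀, -zpow_neg] using h2
  have h3 : ∀ {U : Set (Place K)} {w v : Fin 1 → K}, w ∈ (line (1 : Fin 1 → K) W).Γ U →
      v ∈ (OO K).Γ U → ∀ P ∈ U, P.val (w 0 * v 0) ≤ exp (W P) := by
    intro U w v hw hv P hP
    rw [map_mul]
    have := mem_line_one.1 (hv P hP)
    exact (mul_le_of_le_one_right' (by simpa using this)).trans (mem_line_one.1 (hw P hP))
  intro x
  rcases U0_or_Ui x with hx | hx
  · refine key _ good_U0 (fun w hw => (hc.fin w).2 fun v hv => mem_A0_of_mem' (K := K) fun y hy => ?_)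
      x hx
    obtain ⟨a, ha⟩ := y.exists_res hy
    have h6 := transc_sub_ne (uu_transc (K := K)) a
    have h7 : algebraMap (RatFunc ℂ) K (RatFunc.X - algebraMap ℂ _ a) = uu K - algebraMap ℂ K a := by
      rw [map_sub, ← IsScalarTower.algebraMap_apply]; rfl
    refine mem_of_val_mul_lt y ha ?_
    have h8 := val_trace_lt y (r := (RatFunc.X - algebraMap ℂ _ a)⁻¹)
      (by rw [map_inv₀, h7]; exact ((val_lt_one_iff_or y).1 ha).resolve_left h6)
      (u := (RatFunc.X - algebraMap ℂ (RatFunc ℂ) a) • (w 0 * v 0)) fun P hP => by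
        rw [map_inv₀, h7] at hP
        have h9 := (val_lt_one_iff_or P).2 (Or.inr hP)
        have h10 := ord_deriv_of_res hD0 P uu_transc h9
        rw [hD, P.ord_one, hW] at h10
        rw [Algebra.smul_def, h7, map_mul, P.val_eq h6]
        refine (mul_le_mul_right (h3 hw hv P (P.mem_of_val_sub_lt h9)) _).trans_lt ?_
        rw [← exp_add, ← exp_zero, exp_lt_exp]
        omega
    rwa [map_smul, smul_eq_mul, map_mul, h7] at h8
  · refine key _ good_Ui (fun w hw => (hc.inf w).2 fun v hv => ?_) x hx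
    have h8 := val_trace_lt x (r := RatFunc.X) hx
      (u := (RatFunc.X : RatFunc ℂ) • (w 0 * v 0)) fun P hP => by
        have h9 : ¬ 0 ≤ P.ord (uu K) := fun h => hP ((P.mem_iff_ord uu_ne_zero).2 h)
        have h10 := ord_deriv hD0 P (z := uu K) (by omega)
        rw [hD, P.ord_one, hW] at h10
        rw [Algebra.smul_def, map_mul]
        change P.val (uu K) * _ < 1
        rw [P.val_eq uu_ne_zero]
        refine (mul_le_mul_right (h3 hw hv P hP) _).trans_lt ?_
        rw [← exp_add, ← exp_zero, exp_lt_exp]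
        omega
    rw [map_smul, smul_eq_mul, val_lt_one_iff_or] at h8
    change vI (Algebra.trace (RatFunc ℂ) K (w 0 * v 0)) ≤ _
    generalize Algebra.trace (RatFunc ℂ) K (w 0 * v 0) = r at h8
    by_cases h0 : r = 0
    · simp [h0]
    have h1 : vI r ≠ 0 := by simpa using h0
    by_contra h2
    refine h8.elim (fun h => h0 (by simpa [RatFunc.X_ne_zero] using h)) fun h => h ?_
    rw [← map_inv₀]
    refine Ri_mem ?_ hx
    rw [map_inv₀, map_mul, vI_X, ← exp_log h1, ← exp_add, ← exp_neg, ← exp_zero, exp_le_exp]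
    rw [← exp_log h1, exp_le_exp] at h2
    omega

end Pool.Agent.Lib.MP_3c72fe_ag
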