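import Pool.Agent.Lib.MP_3c72fe_ag.Poly

open MvPolynomial

noncomputable section

namespace Pool.Agent.Lib.MP_3c72fe_ag

lemma exists_rel {f : P2} (hf : f ≠ 0) (k : Fin 2) : ∃ h : Polynomial (Polynomial ℂ), h ≠ 0 ∧
    ∀ (A : Type) [CommRing A] [Algebra ℂ A] (ξ : Fin 2 → A),
      h.eval₂ (Polynomial.aeval (ξ k)).toRingHom (ξ k.rev) = aeval ξ f := by
  let φ : P2 →ₐ[ℂ] Polynomial (Polynomial ℂ) :=
    aeval fun i => if i = k then Polynomial.C Polynomial.X else Polynomial.X
  have key : ∀ (A : Type) [CommRing A] [Algebra ℂ A] (ξ : Fin 2 → A) (g : P2),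
      (φ g).eval₂ (Polynomial.aeval (ξ k)).toRingHom (ξ k.rev) = aeval ξ g := by
    intro A _ _ ξ g
    induction g using MvPolynomial.induction_on with
    | C a => simp [φ]
    | add a b ha hb => rw [map_add, Polynomial.eval₂_add, ha, hb, map_add]
    | mul_X a i ha =>
      rw [map_mul, Polynomial.eval₂_mul, ha, map_mul]
      congr 1
      fin_cases i <;> fin_cases k <;> simp [φ]
  refine ⟨φ f, fun h => hf ?_, fun A _ _ ξ => key A ξ f⟩
  have := key P2 X f
  rw [h, Polynomial.eval₂_zero, aeval_X_left_apply] at this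
  exact this.symm

lemma exists_res {f g : P2} (hf : Prime f) (hg : ¬ f ∣ g) (k : Fin 2) :
    ∃ r : Polynomial ℂ, r ≠ 0 ∧ ∃ h, f ∣ g * h - Polynomial.aeval (X k : P2) r := by
  let I : Ideal P2 := Ideal.span {f}
  haveI : I.IsPrime := (Ideal.span_singleton_prime hf.ne_zero).2 hf
  let π := Ideal.Quotient.mkₐ ℂ I
  letI : Algebra (Polynomial ℂ) (P2 ⧸ I) := (Polynomial.aeval (π (X k))).toRingHom.toAlgebra
  have h0 : ∀ a : P2, π a = 0 ↔ f ∣ a := fun a =>
    Ideal.Quotient.eq_zero_iff_mem.trans Ideal.mem_span_singleton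
  have h1 : ∀ a : P2, IsAlgebraic (Polynomial ℂ) (π a) := by
    intro a
    induction a using MvPolynomial.induction_on with
    | C a =>
      have : π (C a) = algebraMap (Polynomial ℂ) (P2 ⧸ I) (Polynomial.C a) := by
        change _ = Polynomial.aeval (π (X k)) (Polynomial.C a)
        rw [Polynomial.aeval_C]; rfl
      rw [this]
      exact ⟨Polynomial.X - Polynomial.C (Polynomial.C a), Polynomial.X_sub_C_ne_zero _, by simp⟩
    | add a b ha hb => rw [map_add]; exact ha.add hb
    | mul_X a i ha =>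
      rw [map_mul]
      refine ha.mul ?_
      by_cases hi : i = k
      · have : π (X i) = algebraMap (Polynomial ℂ) (P2 ⧸ I) Polynomial.X := by
          change _ = Polynomial.aeval (π (X k)) Polynomial.X
          rw [Polynomial.aeval_X, hi]
        rw [this]
        exact ⟨Polynomial.X - Polynomial.C Polynomial.X, Polynomial.X_sub_C_ne_zero _, by simp⟩
      · obtain ⟨h, hh, hh'⟩ := exists_rel hf.ne_zero k
        have h2 : i = k.rev := by fin_cases i <;> fin_cases k <;> simp_all
        refine ⟨h, hh, ?_⟩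
        rw [h2]
        refine (hh' (P2 ⧸ I) fun i => π (X i)).trans ?_
        rw [← (h0 f).2 dvd_rfl]
        conv_rhs => rw [← aeval_X_left_apply f]
        exact (AlgHom.congr_fun (comp_aeval X π) f).symm
  obtain ⟨r, hr, c, hc⟩ := (h1 g).exists_nonzero_dvd
    (mem_nonZeroDivisors_of_ne_zero fun h => hg ((h0 g).1 h))
  obtain ⟨h, rfl⟩ := Ideal.Quotient.mkₐ_surjective ℂ I c
  refine ⟨r, hr, h, (h0 _).1 ?_⟩
  rw [map_sub, map_mul, ← Polynomial.aeval_algHom_apply]
  exact sub_eq_zero.2 hc.symm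

lemma exists_not_dvd_pderiv {f : P2} (hf : f ≠ 0) {p : Fin 2 → ℂ} (hp : f ∈ mi p) :
    ∃ k, ¬ f ∣ pderiv k f := by
  by_contra h
  push Not at h
  have := (mem_pow_iff hf).1 (mem_pow_succ (n := mult p f) hp fun k => by
    obtain ⟨c, hc⟩ := h k
    rw [hc]
    exact Ideal.mul_mem_right _ _ ((mem_pow_iff hf).2 le_rfl))
  omega

/-- A derivation that fixes a curve fixes its singular points. -/
lemma rigid {f : P2} (hf : Prime f) {δ : ZD ℂ} (hδ : f ∣ cd δ f) {p : Fin 2 → ℂ}
    (hp : f ∈ mi p ^ 2) (k : Fin 2) : δ (p k) = 0 := by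
  by_contra hα
  have hp1 : f ∈ mi p := Ideal.pow_le_self two_ne_zero hp
  let J : Ideal P2 := Ideal.span (insert f (Set.range fun k => pderiv k f))
  have hfJ : f ∈ J := Ideal.subset_span (Or.inl rfl)
  have hdJ : ∀ k, pderiv k f ∈ J := fun k => Ideal.subset_span (Or.inr ⟨k, rfl⟩)
  have h1 : J ≤ mi p := Ideal.span_le.2 (by
    rintro _ (rfl | ⟨k, rfl⟩)
    · exact hp1
    · simpa using dv_mem (n := 1) (pderiv k) hp)
  have h2 : ∀ g ∈ J, cd δ g ∈ J := by
    intro g hg
    obtain ⟨c, hc⟩ := hδ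
    induction hg using Submodule.span_induction with
    | mem g hg =>
      rcases hg with rfl | ⟨k, rfl⟩
      · rw [hc]; exact Ideal.mul_mem_right _ _ hfJ
      · rw [cd_pderiv, hc, pderiv_mul]
        exact add_mem (Ideal.mul_mem_right _ _ (hdJ k)) (Ideal.mul_mem_right _ _ hfJ)
    | zero => simp
    | add a b _ _ ha hb => rw [map_add]; exact add_mem ha hb
    | smul a b hb ih =>
      rw [smul_eq_mul, (cd δ).leibniz, smul_eq_mul, smul_eq_mul]
      exact add_mem (Ideal.mul_mem_left _ _ ih) (Ideal.mul_mem_right _ _ hb)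
  have h3 : ∀ (N : ℕ) (s : P2), (X k - C (p k)) ^ N * s ∈ J → eval p s = 0 := by
    intro N
    induction N with
    | zero => exact fun s hs => mem_mi.1 (h1 (by simpa using hs))
    | succ N ih =>
      intro s hs
      have h4 := ih ((X k - C (p k)) * cd δ s - C ((N + 1) * δ (p k)) * s) (by
        convert h2 _ hs using 1
        rw [(cd δ).leibniz, (cd δ).leibniz_pow, map_sub, cd_X, cd_C]
        simp
        ring)
      simp only [map_sub, map_mul, eval_X, eval_C, sub_self, zero_mul, zero_sub, neg_eq_zero,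
        mul_eq_zero] at h4
      exact h4.resolve_left (not_or.2 ⟨Nat.cast_add_one_ne_zero _, hα⟩)
  obtain ⟨k', hk'⟩ := exists_not_dvd_pderiv hf.ne_zero hp1
  obtain ⟨r, hr, h, c, hc⟩ := exists_res hf hk' k
  obtain ⟨q, hq, hq'⟩ := Polynomial.exists_eq_pow_rootMultiplicity_mul_and_not_dvd r hr (p k)
  have h5 := h3 (r.rootMultiplicity (p k)) (Polynomial.aeval (X k : P2) q) (by
    have : (X k - C (p k)) ^ r.rootMultiplicity (p k) * Polynomial.aeval (X k : P2) q =
        pderiv k' f * h - f * c := by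
      rw [← hc, sub_sub_cancel]
      conv_rhs => rw [hq]
      simp
    rw [this]
    exact sub_mem (Ideal.mul_mem_right _ _ (hdJ k')) (Ideal.mul_mem_right _ _ hfJ))
  apply hq'
  rw [Polynomial.dvd_iff_isRoot, Polynomial.IsRoot, ← h5, ← aeval_eq_eval,
    ← Polynomial.aeval_algHom_apply]
  simp

/-- The same at a simple point: the motion is tangent to the curve. -/
lemma rigid_one {f : P2} {δ : ZD ℂ} (hδ : f ∣ cd δ f) {p : Fin 2 → ℂ} (hp : f ∈ mi p) :
    eval p (dv (fun k => δ (p k)) f) = 0 := by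
  have h := eval_cd δ p f
  obtain ⟨c, hc⟩ := hδ
  rw [mem_mi] at hp
  rw [hp, map_zero, map_add, hc, map_mul, hp, zero_mul, zero_add] at h
  exact h.symm

end Pool.Agent.Lib.MP_3c72fe_ag
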