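import Pool.Agent.Lib.MP_3c72fe_ag.FF
import Pool.Agent.Lib.MP_3c72fe_ag.Rig

open Filter Set WithZero Module Finsupp IntermediateField
open Pool.Agent.Lib.MP_cc3443_ag

noncomputable section

namespace Pool.Agent.Lib.MP_3c72fe_ag

variable {K : Type} [Field K] [Algebra ℂ K] [IsFF K] {P : Place K} {n : ℤ} {z : K}

lemma unif_zpow_mem (P : Place K) (n : ℤ) : P.unif ^ n ∈ Ge P n := (P.val_unif_zpow n).le

lemma exists_unit (hz : z ∈ Ge P n) : ∃ e ∈ Ge P 0, z = P.unif ^ n * e :=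
  ⟨P.unif ^ (-n) * z, Ge_mul' (unif_zpow_mem P (-n)) hz (by omega), by
    rw [zpow_neg, mul_inv_cancel_left₀ (zpow_ne_zero _ P.unif_ne_zero)]⟩

lemma der_mem_zero {D : Derivation ℂ K K} (hD : D ≠ 0) (hz : z ∈ Ge P 0) :
    D z ∈ Ge P (P.ord (D P.unif)) :=
  (val_deriv_le_unif hD P (mem_Ge_zero.1 hz)).trans (mem_Ge_of_le le_rfl)

lemma der_mem {D : Derivation ℂ K K} (hD : D ≠ 0) (hz : z ∈ Ge P n) :
    D z ∈ Ge P (n - 1 + P.ord (D P.unif)) := by
  obtain ⟨e, he, rfl⟩ := exists_unit hz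
  rw [D.leibniz, D.leibniz_zpow, smul_eq_mul, smul_eq_mul, smul_eq_mul]
  refine add_mem (Ge_mul' (unif_zpow_mem P n) (der_mem_zero hD he) (by omega))
    (Ge_mul' he (zsmul_mem (Ge_mul (unif_zpow_mem P (n - 1)) (mem_Ge_of_le le_rfl)) n) (by omega))

section
variable {Δ : ZD K} {δ : ZD ℂ} (hΔ : ∀ c, Δ (algebraMap ℂ K c) = algebraMap ℂ K (δ c))
  (h0 : Δ P.unif = 0)
include hΔ h0

lemma zd_aeval (p : Polynomial ℂ) : Δ (Polynomial.aeval P.unif p) ∈ Ge P 0 := by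
  induction p using Polynomial.induction_on' with
  | add p q hp hq => rw [map_add, map_add]; exact add_mem hp hq
  | monomial k a =>
    rw [Polynomial.aeval_monomial, Δ.leibniz, Δ.leibniz_pow, h0, hΔ]
    simpa using Ge_mul' (mem_Ge_zero.2 (pow_mem P.unif_mem k)) (const_mem_Ge (δ a)) (by omega)

lemma zd_bound : ∃ M : ℕ, ∀ z ∈ Ge P 0, Δ z ∈ Ge P (-M) := by
  have hv := P.transc_unif
  obtain ⟨m, b, hb, hg⟩ := exists_gens_chartRing hv
  let M := ∑ i, (P.ord (Δ (b i))).natAbs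
  have h2 : ∀ i, Δ (b i) ∈ Ge P (-M) := fun i => mem_Ge_of_le (by
    have := Finset.single_le_sum (f := fun i => (P.ord (Δ (b i))).natAbs)
      (fun _ _ => Nat.zero_le _) (Finset.mem_univ i)
    omega)
  have h4 : ∀ z ∈ chartRing {x : Place K | P.unif ∈ x.O}, Δ z ∈ Ge P (-M) := by
    intro z hz
    obtain ⟨p, rfl⟩ := hg z hz
    rw [map_sum]
    refine sum_mem fun i _ => ?_
    rw [Δ.leibniz, smul_eq_mul, smul_eq_mul]
    exact add_mem (Ge_mul' (mem_Ge_zero.2 (P.aeval_mem P.unif_mem _)) (h2 i) (by omega))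
      (Ge_mul' (mem_Ge_zero.2 (hb i P P.unif_mem)) (zd_aeval hΔ h0 _) (by omega))
  refine ⟨M, fun z hz => ?_⟩
  obtain ⟨s, hs, hs0, hs1, hs2⟩ := exists_denom hv P P.unif_mem (mem_Ge_zero.1 hz)
  have h5 : Δ z = s⁻¹ * (Δ (s * z) - z * Δ s) := by
    rw [Δ.leibniz, smul_eq_mul, smul_eq_mul, add_sub_cancel_right, inv_mul_cancel_left₀ hs0]
  rw [h5]
  exact Ge_mul' (mem_Ge_zero.2 hs1) (sub_mem (h4 _ hs2) (Ge_mul' hz (h4 _ hs) (by omega)))
    (by omega)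

lemma zd_mem_zero (hz : z ∈ Ge P 0) : Δ z ∈ Ge P 0 := by
  obtain ⟨M, hM⟩ := zd_bound hΔ h0
  have h1 : ∀ k : ℕ, k ≤ M → ∀ z ∈ Ge P 0, Δ z ∈ Ge P (k - M) := by
    intro k
    induction k with
    | zero => exact fun _ z hz => by simpa using hM z hz
    | succ k ih =>
      intro hk z hz
      obtain ⟨c, hc⟩ := P.exists_res (mem_Ge_zero.1 hz)
      obtain ⟨e, he, h2⟩ := exists_unit (mem_Ge_one.2 hc)
      rw [sub_eq_iff_eq_add.1 h2, map_add, hΔ, zpow_one, Δ.leibniz, h0, smul_zero, add_zero,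
        smul_eq_mul]
      refine add_mem (Ge_mul' (by simpa using unif_zpow_mem P 1) (ih (by omega) e he)
        (by push_cast; omega)) (Ge_mono (by omega) (const_mem_Ge _))
  simpa using h1 M le_rfl z hz

lemma zd_mem (hz : z ∈ Ge P n) : Δ z ∈ Ge P n := by
  obtain ⟨e, he, rfl⟩ := exists_unit hz
  rw [Δ.leibniz, Δ.leibniz_zpow, h0]
  simpa using Ge_mul (unif_zpow_mem P n) (zd_mem_zero hΔ h0 he)

end

end Pool.Agent.Lib.MP_3c72fe_ag
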