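import Mathlib

open Finset

namespace Pool.Agent.Lib.MP_3c72fe_ag

variable {ι : Type} [DecidableEq ι]

lemma sum_count (R : Finset ι) (m : ι → ℕ) {n : ℕ} (h : ∀ i ∈ R, m i < n) (φ : ℕ → ℤ) :
    ∑ i ∈ R, φ (m i) = ∑ v ∈ range n, (#{i ∈ R | m i = v} : ℤ) * φ v := by
  rw [← sum_fiberwise_of_maps_to (t := range n) (g := m) fun i hi => mem_range.2 (h i hi)]
  refine sum_congr rfl fun v _ => ?_
  rw [sum_congr rfl fun i hi => by rw [(mem_filter.1 hi).2]]
  simp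

lemma exists_split (R : Finset ι) (m : ι → ℕ) {M : ℕ} (h : ∀ i ∈ R, m i ≤ M) :
    ∃ N T : ℕ, ∑ i ∈ R, (m i : ℤ) = N * M + T ∧ (T : ℤ) ≤ ∑ i ∈ R, (m i : ℤ) * (M - m i) ∧
      (T = 0 → ∑ i ∈ R, (m i : ℤ) * (M - m i) = 0) := by
  induction R using Finset.induction_on with
  | empty => exact ⟨0, 0, by simp⟩
  | insert a s ha ih =>
    obtain ⟨N, T, h1, h2, h3⟩ := ih fun i hi => h i (mem_insert_of_mem hi)
    have h4 := h a (mem_insert_self _ _)
    simp only [sum_insert ha]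
    by_cases h5 : m a = M
    · exact ⟨N + 1, T, by rw [h1, h5]; push_cast; ring, by simpa [h5] using h2,
        by simpa [h5] using h3⟩
    · refine ⟨N, T + m a, by rw [h1]; push_cast; ring, ?_, fun h6 => ?_⟩
      · have : (m a : ℤ) * 1 ≤ m a * (M - m a) := by gcongr; omega
        push_cast; omega
      · rw [h3 (by omega), show m a = 0 by omega]; simp

lemma exists_top [Fintype ι] (hc : 4 ≤ Fintype.card ι) (m : ι → ℕ) (j : ι) :
    ∃ a b e, a ≠ j ∧ b ≠ j ∧ e ≠ j ∧ a ≠ b ∧ a ≠ e ∧ b ≠ e ∧ m b ≤ m a ∧ m e ≤ m b ∧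
      ∀ i ∈ (((univ.erase j).erase a).erase b).erase e, m i ≤ m e := by
  have h0 : #(univ.erase j) = Fintype.card ι - 1 := by simp
  obtain ⟨a, ha, ha'⟩ := exists_max_image (univ.erase j) m (card_pos.1 (by omega))
  have h1 := card_erase_of_mem ha
  obtain ⟨b, hb, hb'⟩ := exists_max_image ((univ.erase j).erase a) m (card_pos.1 (by omega))
  have h2 := card_erase_of_mem hb
  obtain ⟨e, he, he'⟩ := exists_max_image (((univ.erase j).erase a).erase b) m
    (card_pos.1 (by omega))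
  refine ⟨a, b, e, by simpa using ha, ?_, ?_, ?_, ?_, ?_, ha' b (mem_of_mem_erase hb),
    hb' e (mem_of_mem_erase he), fun i hi => he' i (mem_of_mem_erase hi)⟩ <;>
    simp only [mem_erase] at hb he <;> tauto

lemma sum_split [Fintype ι] {j a b e : ι} (h1 : a ≠ j) (h2 : b ≠ j) (h3 : e ≠ j) (h4 : a ≠ b)
    (h5 : a ≠ e) (h6 : b ≠ e) (φ : ι → ℤ) : ∑ i, φ i = φ j + φ a + φ b + φ e +
      ∑ i ∈ (((univ.erase j).erase a).erase b).erase e, φ i := by
  rw [← add_sum_erase _ _ (mem_univ j), ← add_sum_erase _ _ (mem_erase.2 ⟨h1, mem_univ _⟩),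
    ← add_sum_erase ((univ.erase j).erase a) _ (a := b) (by simp [h2, h4.symm]),
    ← add_sum_erase (((univ.erase j).erase a).erase b) _ (a := e) (by simp [h3, h5.symm, h6.symm])]
  ring

lemma num_fin {M s t : ℕ} {k S₁ S₂ : ℤ} {N : ℕ → ℕ} (h1 : 3 ≤ M) (h2 : M ≤ 8) (h3 : k ≤ 3)
    (h4 : 1 ≤ k - 2 * (s + t)) (h5 : S₁ = 6 * M + 2 * (s + t) + k - 3)
    (h6 : M * S₁ - S₂ + 3 * M - 8 = M * (k - 2 * (s + t)))
    (h7 : S₁ = ∑ v ∈ range (M + 1), (N v : ℤ) * v)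
    (h8 : S₂ = ∑ v ∈ range (M + 1), (N v : ℤ) * v ^ 2) (h9 : N 2 = 0) (h10 : N 1 ≤ 1)
    (h11 : N 1 = 0 ∨ k ≤ 1) : M = 3 ∧ s = 0 ∧ t = 0 ∧ k = 1 := by
  subst h8
  have a1 : k = 1 ∨ k = 2 ∨ k = 3 := by omega
  have a2 : s + t = 0 ∨ s + t = 1 := by omega
  have a3 : N 1 = 0 ∨ N 1 = 1 := by omega
  interval_cases M <;> simp only [sum_range_succ, sum_range_zero] at h6 h7 <;>
    norm_num at h5 h6 h7
  · omega
  · omega
  · have b3 : N 3 = 0 ∨ N 3 = 1 := by omega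
    have b4 : N 4 = 0 ∨ N 4 = 1 ∨ N 4 = 2 := by omega
    omega
  · have b3 : N 3 = 0 := by omega
    have b4 : N 4 = 0 ∨ N 4 = 1 := by omega
    have b5 : N 5 = 0 ∨ N 5 = 1 := by omega
    omega
  · have b3 : N 3 = 0 := by omega
    have b4 : N 4 = 0 := by omega
    have b5 : N 5 = 0 := by omega
    have b6 : N 6 = 0 ∨ N 6 = 1 := by omega
    omega
  · have b3 : N 3 = 0 := by omega
    have b4 : N 4 = 0 := by omega
    have b5 : N 5 = 0 := by omega
    have b6 : N 6 = 0 := by omega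
    have b7 : N 7 = 0 ∨ N 7 = 1 := by omega
    omega

lemma num_three [Fintype ι] (hc : 4 ≤ Fintype.card ι) {m : ι → ℕ} {d : ℕ} {j : ι}
    (hsq : ∑ i, (m i : ℤ) ^ 2 = d ^ 2 + 1) (hj : m j = 3) (h2 : ∀ i, m i ≠ 2)
    (hs : ∀ i i', m i = 1 → m i' = 1 → i = i') (hk : ∑ i, (m i : ℤ) ≤ 3 * d + 3)
    (hk1 : ∀ i, m i = 1 → ∑ i, (m i : ℤ) ≤ 3 * d + 1)
    (hred : ∀ a b e, a ≠ j → b ≠ j → e ≠ j → a ≠ b → a ≠ e → b ≠ e → m a + m b + m e ≤ d)
    (hline : ∀ a, a ≠ j → m a + 3 ≤ d) :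
    d = 9 ∧ (∀ i, m i ≤ 3) ∧ #{i | m i = 3} = 9 := by
  obtain ⟨a, b, e, ha, hb, he, hab, hae, hbe, h3, h4, h5⟩ := exists_top hc m j
  set R := (((univ.erase j).erase a).erase b).erase e with hR
  have h6 := sum_split ha hb he hab hae hbe fun i => (m i : ℤ)
  have h7 := sum_split ha hb he hab hae hbe fun i => (m i : ℤ) ^ 2
  rw [← hR, hj] at h6 h7
  have h8 := hred a b e ha hb he hab hae hbe
  have h9 := hline a ha
  have hQ : ∑ i ∈ R, (m i : ℤ) * (m e - m i) =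
      m e * ∑ i ∈ R, (m i : ℤ) - ∑ i ∈ R, (m i : ℤ) ^ 2 := by
    rw [mul_sum, ← sum_sub_distrib]
    exact sum_congr rfl fun i _ => by ring
  by_cases hM : m e < 3
  · exfalso
    have h10 : ∑ i ∈ R, (m i : ℤ) ^ 2 = 0 := sum_eq_zero fun i hi => by
      have h11 := h5 i hi
      have h12 := h2 i
      have h13 := h2 e
      have h14 : ¬ (m i = 1 ∧ m e = 1) := fun h => (mem_erase.1 hi).1 (hs _ _ h.1 h.2)
      simp; omega
    have h11 := h2 b
    have h12 := h2 e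
    have h13 : ¬ (m b = 1 ∧ m e = 1) := fun h => hbe (hs _ _ h.1 h.2)
    rw [hsq, h10] at h7
    push_cast at h7
    by_cases h14 : 3 ≤ m b
    · have : (m e : ℤ) ≤ 1 := by omega
      nlinarith
    · have h15 : m e = 0 := by omega
      have h16 : (m b : ℤ) ^ 2 ≤ m a := by
        have : m b = 0 ∨ m b = 1 := by omega
        rcases this with h | h <;> rw [h] <;> simp
        omega
      have h17 : ((m a : ℤ) + 3) ^ 2 ≤ d ^ 2 := by gcongr; omega
      rw [h15] at h7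
      push_cast at h7
      nlinarith
  obtain ⟨N, T, h10, h11, h12⟩ := exists_split R m h5
  obtain ⟨s, hs'⟩ : ∃ s : ℕ, m a = m e + s := ⟨m a - m e, by omega⟩
  obtain ⟨t, ht'⟩ : ∃ t : ℕ, m b = m e + t := ⟨m b - m e, by omega⟩
  obtain ⟨u, hu'⟩ : ∃ u : ℕ, d = 3 * m e + s + t + u := ⟨d - (3 * m e + s + t), by omega⟩
  obtain ⟨k, hk'⟩ : ∃ k : ℤ, ∑ i, (m i : ℤ) = 3 * d + k := ⟨_, (add_sub_cancel _ _).symm⟩
  set Q := ∑ i ∈ R, (m i : ℤ) * (m e - m i) with hQ'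
  set S₁ := ∑ i ∈ R, (m i : ℤ) with hS₁
  set S₂ := ∑ i ∈ R, (m i : ℤ) ^ 2 with hS₂
  set M := m e with hM'
  have h13 : S₁ = 6 * M + 2 * (s + t) + 3 * u + k - 3 := by
    rw [hk', hs', ht', hu'] at h6; push_cast at h6; linarith
  have h14 : Q + 2 * s * t + 2 * (s + t) * u + u ^ 2 + 3 * M - 8 =
      M * (k - 2 * (s + t) - 3 * u) := by
    rw [hsq, hs', ht', hu'] at h7; push_cast at h7
    rw [hQ, h13]; linarith
  have h15 : 1 ≤ k - 2 * (s + t) - 3 * u := by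
    by_contra h
    have : (M : ℤ) * (k - 2 * (s + t) - 3 * u) ≤ 0 :=
      mul_nonpos_of_nonneg_of_nonpos (by positivity) (by omega)
    have : (0 : ℤ) ≤ 2 * s * t + 2 * (s + t) * u + u ^ 2 := by positivity
    omega
  have h16 : u = 0 := by omega
  have h17 : (s : ℤ) * t = 0 := by
    have : s = 0 ∨ t = 0 := by omega
    rcases this with h | h <;> simp [h]
  subst h16
  have h18 : Q + 3 * M - 8 = M * (k - 2 * (s + t)) := by push_cast at h14; linarith
  have h19 : M ≤ 8 := by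
    have : k - 2 * (s + t) = 1 ∨ k - 2 * (s + t) = 2 ∨ k - 2 * (s + t) = 3 := by omega
    rcases this with h | h | h <;> rw [h] at h18
    · omega
    · omega
    · have h20 : (T : ℤ) = (6 - N) * M := by linarith [show S₁ = 6 * M by omega]
      have h21 : (1 : ℤ) ≤ 6 - N := by
        by_contra h
        have : ((6 : ℤ) - N) * M ≤ 0 := mul_nonpos_of_nonpos_of_nonneg (by omega) (by positivity)
        omega
      have : (1 : ℤ) * M ≤ (6 - N) * M := by gcongr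
      omega
  have hlt : ∀ i ∈ R, m i < M + 1 := fun i hi => Nat.lt_succ_of_le (h5 i hi)
  have h20 := sum_count R m hlt fun v => v
  have h21 := sum_count R m hlt fun v => v ^ 2
  have h22 : #{i ∈ R | m i = 2} = 0 := by simp [h2]
  have h23 : #{i ∈ R | m i = 1} ≤ 1 := card_le_one.2 fun x hx y hy =>
    hs _ _ (mem_filter.1 hx).2 (mem_filter.1 hy).2
  have h24 : #{i ∈ R | m i = 1} = 0 ∨ k ≤ 1 := by
    by_cases h : #{i ∈ R | m i = 1} = 0
    · exact Or.inl h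
    · obtain ⟨i, hi⟩ := card_ne_zero.1 h
      have := hk1 i (mem_filter.1 hi).2
      omega
  rw [← hS₁] at h20
  rw [← hS₂] at h21
  have h25 : M = 3 ∧ s = 0 ∧ t = 0 ∧ k = 1 :=
    num_fin (N := fun v => #{i ∈ R | m i = v}) (by omega) h19 (by omega) (by omega) (by omega)
      (hQ ▸ h18) h20 h21 h22 h23 h24
  have h26 : ∀ i, m i ≤ 3 := fun i => by
    by_cases hi : i ∈ R
    · have := h5 i hi; omega
    · simp only [hR, mem_erase, mem_univ, and_true, not_and_or, not_not] at hi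
      rcases hi with rfl | rfl | rfl | rfl <;> omega
  have h27 := sum_count univ m (n := 4) (fun i _ => Nat.lt_succ_of_le (h26 i)) fun v => v
  have h28 := sum_count univ m (n := 4) (fun i _ => Nat.lt_succ_of_le (h26 i)) fun v => v ^ 2
  have h29 : #{i | m i = 2} = 0 := by simp [h2]
  simp only [sum_range_succ, sum_range_zero] at h27 h28
  have h30 : d = 9 := by omega
  subst h30
  exact ⟨rfl, h26, by push_cast at h27 h28 hsq hk'; omega⟩

end Pool.Agent.Lib.MP_3c72fe_ag
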