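import Pool.Agent.Lib.MP_3c72fe_ag.Hal
import Pool.Agent.Lib.MP_3c72fe_ag.Crem
import Pool.Agent.Lib.MP_3c72fe_ag.Num
import Pool.Agent.Lib.MP_3c72fe_ag.Bridge

open Filter Set WithZero Module Finsupp IntermediateField MvPolynomial
open Pool.Agent.Lib.MP_cc3443_ag

noncomputable section

namespace Pool.Agent.Lib.MP_3c72fe_ag

variable {ι : Type} [Fintype ι] [DecidableEq ι] {K : Type} [Field K] [Algebra ℂ K] [IsFF K]

lemma Crv.exists_smaller (c : Crv K) {p : ι → Fin 2 → ℂ} (hK : NR K) (hp : VG p) (hd : 3 ≤ c.d)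
    {j a b e : ι} (ha : a ≠ j) (hb : b ≠ j) (he : e ≠ j) (hab : a ≠ b) (hae : a ≠ e) (hbe : b ≠ e)
    (h : c.d < c.m p a + c.m p b + c.m p e) : ∃ (c' : Crv K) (p' : ι → Fin 2 → ℂ), VG p' ∧
      c'.d < c.d ∧ c'.m p' j = c.m p j ∧ degree (c'.A p') = degree (c.A p) := by
  obtain ⟨c', p', hp', h1, h2, h3, h4, h5⟩ := c.exists_cremona hK hp hd hab hae hbe
  have h6 := h5 j ha.symm hb.symm he.symm
  refine ⟨c', p', hp', by omega, h6, ?_⟩
  rw [Crv.degree_A, Crv.degree_A, sum_split ha hb he hab hae hbe, sum_split ha hb he hab hae hbe,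
    h6, Finset.sum_congr rfl fun i hi => by
      simp only [Finset.mem_erase] at hi
      rw [h5 i hi.2.2.1 hi.2.1 hi.1]]
  have e1 : (c'.d : ℤ) = 2 * c.d - c.m p a - c.m p b - c.m p e := by omega
  have e2 : (c'.m p' a : ℤ) = c.d - c.m p b - c.m p e := by omega
  have e3 : (c'.m p' b : ℤ) = c.d - c.m p a - c.m p e := by omega
  have e4 : (c'.m p' e : ℤ) = c.d - c.m p a - c.m p b := by omega
  rw [e1, e2, e3, e4]
  ring

theorem main_three (hK : NR K) (hc : 4 ≤ Fintype.card ι) (j : ι) (d : ℕ) :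
    ∀ (c : Crv K) (p : ι → Fin 2 → ℂ), c.d = d → VG p → 2 ≤ c.m p j → c.m p j ≤ 3 →
      0 ≤ degree (c.A p) := by
  induction d using Nat.strong_induction_on with
  | _ d ih =>
  intro c p hd hp h2 h3
  by_contra h0
  have h4 := c.two_le_add hK hp h2
  have h5 : c.m p j = 3 := by omega
  have h6 : degree (c.A p) = -1 := by omega
  have h7 : 3 + 2 ≤ c.d := h5 ▸ c.add_two_le hK (p j)
  by_cases hred : ∀ a b e, a ≠ j → b ≠ j → e ≠ j → a ≠ b → a ≠ e → b ≠ e →
      c.m p a + c.m p b + c.m p e ≤ c.d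
  · have h8 := c.sum_le_chi hK hp h2
    have h9 := c.chi_ge_of_triple hK hp h6 h5
    obtain ⟨h10, -, h11⟩ := num_three hc (m := c.m p) (d := c.d)
      (by rw [Crv.degree_A] at h6; omega) h5
      (fun i hi => by have := c.two_le_add hK hp hi.ge; omega)
      (fun i i' hi hi' => by
        by_contra h
        exact c.not_two_simple hK hp (by omega) h hi hi') (by omega)
      (fun i hi => by have := c.chi_ge_of_simple hK hp h6 h5 hi; omega) hred
      fun a ha => h5 ▸ c.line_le hp ha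
    exact c.not_halphen hp h10 h11 fun i hi => (Finset.mem_filter.1 hi).2
  · push Not at hred
    obtain ⟨a, b, e, ha, hb, he, hab, hae, hbe, h⟩ := hred
    obtain ⟨c', p', hp', h8, h9, h10⟩ := c.exists_smaller hK hp (by omega) ha hb he hab hae hbe h
    have := ih _ (hd ▸ h8) c' p' rfl hp' (by omega) (by omega)
    omega

theorem triple_point (r : ℕ) (hr : 4 ≤ r) {p : Fin r → Fin 2 → ℂ} (hp : VG p) {F : P3} {d : ℕ}
    (hF : F.IsHomogeneous d) (hi' : Irreducible F) (hP : ¬ Param F) {j : Fin r}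
    (h2 : F ∈ hi (p j) ^ 2) (h4 : F ∉ hi (p j) ^ 4) {m : Fin r → ℕ}
    (hm : ∀ i, F ∈ hi (p i) ^ m i) : ∑ i, m i ^ 2 ≤ d ^ 2 := by
  obtain ⟨K, _, _, _, c, hK, hd, h⟩ := exists_model hF hi' hP
  have h1 := main_three hK (by simpa using hr) j _ c p rfl hp ((h _ _).1 h2)
    (Nat.lt_succ_iff.1 (not_le.1 fun h' => h4 ((h _ _).2 h')))
  rw [Crv.degree_A, Crv.d, hd] at h1
  have h3 : ∑ i, (m i : ℤ) ^ 2 ≤ ∑ i, (c.m p i : ℤ) ^ 2 := Finset.sum_le_sum fun i _ => by
    have : m i ≤ c.m p i := (h _ _).1 (hm i)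
    gcongr
  zify
  omega

end Pool.Agent.Lib.MP_3c72fe_ag
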