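import Pool.Agent.Lib.MP_3c72fe_ag.Curve

open Filter Set WithZero Module Finsupp IntermediateField MvPolynomial
open Pool.Agent.Lib.MP_cc3443_ag

noncomputable section

namespace Pool.Agent.Lib.MP_3c72fe_ag

variable {K : Type} [Field K] [Algebra ℂ K]

lemma eq_lin {g : P2} (h : g.totalDegree ≤ 1) :
    g = lin (coeff (single 0 1) g) (coeff (single 1 1) g) (coeff 0 g) := by
  ext s
  simp only [lin, coeff_add, coeff_C_mul, coeff_X, coeff_C]
  by_cases h0 : s = 0
  · subst h0
    simp [Finsupp.single_eq_zero]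
  by_cases h1 : s = single 0 1
  · subst h1
    simp [Finsupp.single_eq_single_iff, Ne.symm h0]
  by_cases h2 : s = single 1 1
  · subst h2
    simp [Finsupp.single_eq_single_iff, Ne.symm h0]
  rw [if_neg (Ne.symm h0), if_neg (Ne.symm h1), if_neg (Ne.symm h2)]
  simp only [mul_zero, add_zero]
  refine coeff_eq_zero_of_totalDegree_lt (h.trans_lt ?_)
  change 1 < s.degree
  rw [degree_two]
  by_contra h3
  have h4 : (s 0 = 0 ∧ s 1 = 0) ∨ (s 0 = 1 ∧ s 1 = 0) ∨ (s 0 = 0 ∧ s 1 = 1) := by omega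
  rcases h4 with h4 | h4 | h4
  · exact h0 (by ext k; fin_cases k <;> simp [h4])
  · exact h1 (by ext k; fin_cases k <;> simp [h4])
  · exact h2 (by ext k; fin_cases k <;> simp [h4])

lemma adjoin_eq_top_of_mem {ξ : Fin 2 → K} (h : IntermediateField.adjoin ℂ (Set.range ξ) = ⊤)
    {M : IntermediateField ℂ K} (h0 : ξ 0 ∈ M) (h1 : ξ 1 ∈ M) : M = ⊤ := by
  rw [eq_top_iff, ← h, adjoin_le_iff]
  rintro _ ⟨k, rfl⟩
  fin_cases k
  exacts [h0, h1]

lemma NR.lin_eq_zero (hK : NR K) {ξ : Fin 2 → K}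
    (h : IntermediateField.adjoin ℂ (Set.range ξ) = ⊤) {a b e : ℂ}
    (h0 : a • ξ 0 + b • ξ 1 + algebraMap ℂ K e = 0) : a = 0 ∧ b = 0 ∧ e = 0 := by
  have ha : a = 0 := by
    by_contra ha
    refine hK (ξ 1) (adjoin_eq_top_of_mem h ?_ (mem_adjoin_simple_self _ _))
    have : ξ 0 = a⁻¹ • -(b • ξ 1 + algebraMap ℂ K e) := by
      rw [eq_inv_smul_iff₀ ha]; linear_combination h0
    rw [this]
    exact IntermediateField.smul_mem _ (neg_mem (add_mem (IntermediateField.smul_mem _
      (mem_adjoin_simple_self _ _)) (IntermediateField.algebraMap_mem _ _)))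
  have hb : b = 0 := by
    by_contra hb
    refine hK (ξ 0) (adjoin_eq_top_of_mem h (mem_adjoin_simple_self _ _) ?_)
    have : ξ 1 = b⁻¹ • -(a • ξ 0 + algebraMap ℂ K e) := by
      rw [eq_inv_smul_iff₀ hb]; linear_combination h0
    rw [this]
    exact IntermediateField.smul_mem _ (neg_mem (add_mem (IntermediateField.smul_mem _
      (mem_adjoin_simple_self _ _)) (IntermediateField.algebraMap_mem _ _)))
  exact ⟨ha, hb, by simpa [ha, hb] using h0⟩

lemma exists_crv [IsFF K] (hK : NR K) {ξ : Fin 2 → K}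
    (h : IntermediateField.adjoin ℂ (Set.range ξ) = ⊤) : ∃ c : Crv K, c.ξ = ξ := by
  have ht : Transcendental ℂ (ξ 0) := transc_of_not_const fun a ha => by
    simpa using (hK.lin_eq_zero h (a := 1) (b := 0) (e := -a) (by simp [ha])).1
  have h1 : RingHom.ker (aeval ξ : P2 →ₐ[ℂ] K) ≠ ⊥ := by
    intro h1
    have h2 := card_le_finrank ht (z := fun i : Fin (finrank ℂ⟮ξ 0⟯ K + 1) => ξ 1 ^ (i : ℕ))
      fun a ha => by
        let e := Polynomial.Bivariate.equivMvPolynomial ℂ
        let q : Polynomial (Polynomial ℂ) := ∑ i, Polynomial.monomial i.val (a i)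
        have h3 : e q ∈ RingHom.ker (aeval ξ : P2 →ₐ[ℂ] K) := by
          rw [RingHom.mem_ker, ← ha]
          simp only [q, map_sum]
          refine Finset.sum_congr rfl fun i _ => ?_
          rw [← Polynomial.C_mul_X_pow_eq_monomial, map_mul, map_mul, map_pow, map_pow]
          congr 1
          · generalize a i = r
            induction r using Polynomial.induction_on' with
            | add a b ha hb => simp only [map_add, ha, hb]
            | monomial n a => simp [← Polynomial.C_mul_X_pow_eq_monomial, e]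
          · simp [e]
        rw [h1, Ideal.mem_bot, map_eq_zero_iff _ e.injective] at h3
        intro i
        have := congrArg (Polynomial.coeff · i) h3
        simpa [q, Polynomial.coeff_monomial, Fin.val_inj] using this
    simp at h2
  obtain ⟨f, hf, hp⟩ := (RingHom.ker_isPrime (aeval ξ : P2 →ₐ[ℂ] K)).exists_mem_prime_of_ne_bot h1
  have hf0 : aeval ξ f = 0 := hf
  refine ⟨⟨ξ, f, hp, fun g => ⟨fun hg => ?_, ?_⟩, h, ?_⟩, rfl⟩
  · by_contra h2
    obtain ⟨r, hr, q, s, hs⟩ := exists_res hp h2 0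
    have := congrArg (aeval ξ) hs
    rw [map_sub, map_mul, map_mul, hg, hf0, ← Polynomial.aeval_algHom_apply] at this
    exact ht ⟨r, hr, by simpa using this⟩
  · rintro ⟨s, rfl⟩
    rw [map_mul, hf0, zero_mul]
  · by_contra h2
    have h3 := eq_lin (g := f) (by omega)
    rw [h3] at hf0
    obtain ⟨h4, h5, h6⟩ := hK.lin_eq_zero h (by simpa [lin, Algebra.smul_def] using hf0)
    rw [h4, h5, h6] at h3
    exact hp.ne_zero (by simpa [lin] using h3)

lemma Crv.isFF (c : Crv K) : IsFF K := by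
  have ht : Transcendental ℂ (c.ξ 0) := fun ha => by
    obtain ⟨a, ha⟩ : c.ξ 0 ∈ (algebraMap ℂ K).range :=
      minpoly.mem_range_of_degree_eq_one ℂ _
        (IsAlgClosed.degree_eq_one_of_irreducible ℂ (minpoly.irreducible ha.isIntegral))
    exact c.sub_ne 0 a (sub_eq_zero.2 ha.symm)
  set t := c.ξ 0 with ht'
  let ψ : Polynomial ℂ →ₐ[ℂ] ℂ⟮t⟯ := Polynomial.aeval (AdjoinSimple.gen ℂ t)
  have h1 : (algebraMap ℂ⟮t⟯ K).comp ψ.toRingHom = (Polynomial.aeval t).toRingHom := by
    ext <;> simp [ψ]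
  have h2 : Function.Injective ψ.toRingHom := by
    have := transcendental_iff_injective.1 ht
    refine Function.Injective.of_comp (f := algebraMap ℂ⟮t⟯ K) ?_
    rw [← RingHom.coe_comp, h1]
    exact this
  obtain ⟨h, h0, hh⟩ := exists_rel c.prime.ne_zero 0
  have h3 : IsAlgebraic ℂ⟮t⟯ (c.ξ 1) := ⟨h.map ψ.toRingHom, (Polynomial.map_ne_zero_iff h2).2 h0, by
    rw [Polynomial.aeval_def, Polynomial.eval₂_map, h1]
    exact (hh K c.ξ).trans c.ev_f⟩
  have h4 : ℂ⟮t⟯⟮c.ξ 1⟯ = ⊤ := by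
    rw [← restrictScalars_eq_top_iff (K := ℂ), adjoin_simple_adjoin_simple]
    exact adjoin_eq_top_of_mem c.top (subset_adjoin _ _ (by simp [ht'])) (subset_adjoin _ _ (by simp))
  haveI : FiniteDimensional ℂ⟮t⟯ K := by
    have := adjoin.finiteDimensional h3.isIntegral
    rw [h4] at this
    exact Module.Finite.equiv (topEquiv (F := ℂ⟮t⟯) (E := K)).toLinearEquiv
  let e := RatFunc.algEquivOfTranscendental t ht
  letI : Algebra (RatFunc ℂ) K := ((algebraMap ℂ⟮t⟯ K).comp e.toRingEquiv.toRingHom).toAlgebra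
  haveI : IsScalarTower ℂ (RatFunc ℂ) K := IsScalarTower.of_algebraMap_eq fun c => by
    change _ = algebraMap ℂ⟮t⟯ K (e (algebraMap ℂ _ c))
    rw [e.commutes]; rfl
  haveI : FiniteDimensional (RatFunc ℂ) K :=
    Module.Finite.of_equiv_equiv e.symm.toRingEquiv (RingEquiv.refl K) (RingHom.ext fun a => by
      change algebraMap ℂ⟮t⟯ K (e (e.symm a)) = _
      rw [e.apply_symm_apply]; rfl)
  infer_instance

lemma exists_crv_of_prime {f : P2} (hf : Prime f) (h2 : 2 ≤ f.totalDegree) :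
    ∃ (K : Type) (_ : Field K) (_ : Algebra ℂ K) (c : Crv K), c.f = f := by
  let I : Ideal P2 := Ideal.span {f}
  haveI : I.IsPrime := (Ideal.span_singleton_prime hf.ne_zero).2 hf
  let K := FractionRing (P2 ⧸ I)
  let π : P2 →ₐ[ℂ] K := (IsScalarTower.toAlgHom ℂ (P2 ⧸ I) K).comp (Ideal.Quotient.mkₐ ℂ I)
  have h1 : ∀ g, aeval (fun k => π (X k)) g = π g := fun g => by
    conv_rhs => rw [← aeval_X_left_apply g]
    exact (AlgHom.congr_fun (comp_aeval X π) g).symm
  refine ⟨K, inferInstance, inferInstance, ⟨fun k => π (X k), f, hf, fun g => ?_, ?_, h2⟩, rfl⟩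
  · rw [h1]
    exact (map_eq_zero_iff _ (IsFractionRing.injective (P2 ⧸ I) K)).trans
      (Ideal.Quotient.eq_zero_iff_mem.trans Ideal.mem_span_singleton)
  · rw [eq_top_iff]
    intro z _
    obtain ⟨a, b, -, rfl⟩ := IsFractionRing.div_surjective (A := P2 ⧸ I) z
    obtain ⟨a, rfl⟩ := Ideal.Quotient.mkₐ_surjective ℂ I a
    obtain ⟨b, rfl⟩ := Ideal.Quotient.mkₐ_surjective ℂ I b
    have h3 : ∀ g, π g ∈ IntermediateField.adjoin ℂ (Set.range fun k => π (X k)) := fun g => by
      rw [← h1]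
      exact algebra_adjoin_le_adjoin _ _ (by
        rw [Algebra.adjoin_range_eq_range_aeval]; exact ⟨g, rfl⟩)
    exact div_mem (h3 a) (h3 b)

end Pool.Agent.Lib.MP_3c72fe_ag
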