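import Pool.Agent.Lib.MP_3c72fe_ag.Der

open MvPolynomial

noncomputable section

namespace Pool.Agent.Lib.MP_3c72fe_ag

abbrev P2 : Type := MvPolynomial (Fin 2) ℂ

/-- The maximal ideal of a point of the affine plane. -/
def mi (p : Fin 2 → ℂ) : Ideal P2 := Ideal.span (Set.range fun k => X k - C (p k))

lemma X_sub_mem (p : Fin 2 → ℂ) (k : Fin 2) : X k - C (p k) ∈ mi p :=
  Ideal.subset_span ⟨k, rfl⟩

lemma sub_C_mem (p : Fin 2 → ℂ) (g : P2) : g - C (eval p g) ∈ mi p := by
  induction g using MvPolynomial.induction_on with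
  | C a => simp
  | add a b ha hb =>
    have := add_mem ha hb
    rw [map_add, map_add]
    convert this using 1
    ring
  | mul_X a k ha =>
    have := add_mem (Ideal.mul_mem_right (X k) _ ha)
      (Ideal.mul_mem_left _ (C (eval p a)) (X_sub_mem p k))
    rw [map_mul, eval_X, map_mul]
    convert this using 1
    ring

lemma mem_mi {p : Fin 2 → ℂ} {g : P2} : g ∈ mi p ↔ eval p g = 0 := by
  refine ⟨fun h => ?_, fun h => by simpa [h] using sub_C_mem p g⟩
  have : mi p ≤ RingHom.ker (eval p) := Ideal.span_le.2 (by rintro _ ⟨k, rfl⟩; simp)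
  exact this h

/-- Coefficientwise action of a derivation of the constants. -/
def cdA (δ : ZD ℂ) : P2 →+ P2 where
  toFun g := ∑ s ∈ g.support, monomial s (δ (coeff s g))
  map_zero' := by simp
  map_add' a b := by
    have key : ∀ (g : P2) (s : Fin 2 →₀ ℕ),
        coeff s (∑ s ∈ g.support, monomial s (δ (coeff s g))) = δ (coeff s g) := fun g s => by
      rw [coeff_sum]
      simp only [coeff_monomial, Finset.sum_ite_eq', mem_support_iff]
      split_ifs with h
      · rfl
      · rw [not_not.1 h, map_zero]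
    ext s
    rw [coeff_add, key, key, key, coeff_add, map_add]

lemma coeff_cdA (δ : ZD ℂ) (g : P2) (s : Fin 2 →₀ ℕ) :
    coeff s (cdA δ g) = δ (coeff s g) := by
  change coeff s (∑ s ∈ g.support, monomial s (δ (coeff s g))) = _
  rw [coeff_sum]
  simp only [coeff_monomial, Finset.sum_ite_eq', mem_support_iff]
  split_ifs with h
  · rfl
  · rw [not_not.1 h, map_zero]

/-- Coefficientwise derivation. -/
def cd (δ : ZD ℂ) : ZD P2 :=
  Derivation.mk' (cdA δ).toIntLinearMap fun a b => by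
    ext s
    change coeff s (cdA δ (a * b)) = coeff s (a * cdA δ b + b * cdA δ a)
    rw [coeff_cdA, coeff_add, mul_comm b, coeff_mul, coeff_mul, coeff_mul, map_sum,
      ← Finset.sum_add_distrib]
    refine Finset.sum_congr rfl fun x _ => ?_
    rw [δ.leibniz, coeff_cdA, coeff_cdA]
    simp [mul_comm]

lemma coeff_cd (δ : ZD ℂ) (g : P2) (s : Fin 2 →₀ ℕ) :
    coeff s (cd δ g) = δ (coeff s g) := coeff_cdA δ g s

lemma cd_C (δ : ZD ℂ) (c : ℂ) : cd δ (C c) = C (δ c) := by
  ext s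
  rw [coeff_cd, coeff_C, coeff_C]
  split_ifs <;> simp

lemma cd_X (δ : ZD ℂ) (k : Fin 2) : cd δ (X k) = 0 := by
  ext s
  rw [coeff_cd, coeff_X]
  split_ifs <;> simp

lemma cd_add (δ δ' : ZD ℂ) (g : P2) : cd (δ + δ') g = cd δ g + cd δ' g := by
  ext s; simp [coeff_cd]

lemma cd_smul (c : ℂ) (δ : ZD ℂ) (g : P2) : cd (c • δ) g = c • cd δ g := by
  ext s; simp [coeff_cd]

lemma cd_zero (g : P2) : cd 0 g = 0 := by
  ext s; simp [coeff_cd]

lemma cd_pderiv (δ : ZD ℂ) (k : Fin 2) (g : P2) :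
    cd δ (pderiv k g) = pderiv k (cd δ g) := by
  ext s
  rw [coeff_cd, coeff_pderiv, coeff_pderiv, coeff_cd, δ.leibniz]
  simp [mul_comm]

lemma totalDegree_cd (δ : ZD ℂ) (g : P2) : (cd δ g).totalDegree ≤ g.totalDegree :=
  totalDegree_le_of_support_subset fun s hs => by
    rw [mem_support_iff] at hs ⊢
    intro h
    rw [coeff_cd, h, map_zero] at hs
    exact hs rfl

lemma chain {A : Type} [CommRing A] [Algebra ℂ A] (Δ : ZD A) (δ : ZD ℂ)
    (h : ∀ c, Δ (algebraMap ℂ A c) = algebraMap ℂ A (δ c)) (ξ : Fin 2 → A) (g : P2) :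
    Δ (aeval ξ g) = aeval ξ (cd δ g) + ∑ k, aeval ξ (pderiv k g) * Δ (ξ k) := by
  induction g using MvPolynomial.induction_on with
  | C a => simp [cd_C, h]
  | add a b ha hb => simp only [map_add, ha, hb, add_mul, Finset.sum_add_distrib]; ring
  | mul_X a k ha =>
    rw [map_mul, Δ.leibniz, ha, (cd δ).leibniz, cd_X]
    fin_cases k <;> simp [Fin.sum_univ_two] <;> ring

lemma der_pow_mem {A : Type} [CommRing A] (Δ : ZD A) (I : Ideal A) (n : ℕ) {g : A}
    (hg : g ∈ I ^ (n + 1)) : Δ g ∈ I ^ n := by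
  induction n generalizing g with
  | zero => simp
  | succ n ih =>
    rw [pow_succ] at hg
    refine Submodule.mul_induction_on hg (fun a ha b hb => ?_) fun a b ha hb => ?_
    · rw [Δ.leibniz, smul_eq_mul, smul_eq_mul, mul_comm b]
      exact add_mem (Ideal.mul_mem_right _ _ ha) (by rw [pow_succ]; exact Ideal.mul_mem_mul (ih ha) hb)
    · rw [map_add]; exact add_mem ha hb

lemma der_pow_mem' {A : Type} [CommRing A] (Δ : ZD A) (I : Ideal A)
    (hI : ∀ g ∈ I, Δ g ∈ I) (n : ℕ) {g : A} (hg : g ∈ I ^ n) : Δ g ∈ I ^ n := by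
  induction n generalizing g with
  | zero => simp
  | succ n ih =>
    rw [pow_succ] at hg ⊢
    refine Submodule.mul_induction_on hg (fun a ha b hb => ?_) fun a b ha hb => ?_
    · rw [Δ.leibniz, smul_eq_mul, smul_eq_mul, mul_comm b]
      exact add_mem (Ideal.mul_mem_mul ha (hI b hb)) (Ideal.mul_mem_mul (ih ha) hb)
    · rw [map_add]; exact add_mem ha hb

/-- Forget linearity over the constants. -/
def rz {A : Type} [CommRing A] [Algebra ℂ A] (D : Derivation ℂ A A) : ZD A :=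
  D.restrictScalars ℤ

@[simp] lemma rz_apply {A : Type} [CommRing A] [Algebra ℂ A] (D : Derivation ℂ A A) (z : A) :
    rz D z = D z := rfl

/-- Directional derivative. -/
def dv (v : Fin 2 → ℂ) : Derivation ℂ P2 P2 := v 0 • pderiv 0 + v 1 • pderiv 1

lemma dv_apply (v : Fin 2 → ℂ) (g : P2) : dv v g = v 0 • pderiv 0 g + v 1 • pderiv 1 g := rfl

lemma dv_mem {p : Fin 2 → ℂ} {n : ℕ} (D : Derivation ℂ P2 P2) {g : P2} (hg : g ∈ mi p ^ (n + 1)) :
    D g ∈ mi p ^ n := der_pow_mem (rz D) _ n hg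

lemma eval_cd (δ : ZD ℂ) (p : Fin 2 → ℂ) (g : P2) :
    δ (eval p g) = eval p (cd δ g + dv (fun k => δ (p k)) g) := by
  have := chain δ δ (fun _ => rfl) p g
  simp only [aeval_eq_eval, Fin.sum_univ_two] at this
  rw [this, dv_apply]
  simp [mul_comm]

/-- The derivation moved with the point preserves the powers of its ideal. -/
lemma cd_add_dv_mem (δ : ZD ℂ) {p : Fin 2 → ℂ} {n : ℕ} {g : P2} (hg : g ∈ mi p ^ n) :
    cd δ g + dv (fun k => δ (p k)) g ∈ mi p ^ n :=
  der_pow_mem' (cd δ + rz (dv fun k => δ (p k))) _ (fun g hg => by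
    rw [mem_mi] at hg ⊢
    have := eval_cd δ p g
    rw [hg, map_zero] at this
    exact this.symm) n hg

lemma cd_mem_of_fix {δ : ZD ℂ} {p : Fin 2 → ℂ} (h : ∀ k, δ (p k) = 0) {n : ℕ} {g : P2}
    (hg : g ∈ mi p ^ n) : cd δ g ∈ mi p ^ n := by
  simpa [dv_apply, h] using cd_add_dv_mem δ hg

/-- Translation. -/
def tr (p : Fin 2 → ℂ) : P2 →ₐ[ℂ] P2 := aeval fun k => X k + C (p k)

lemma tr_tr (p : Fin 2 → ℂ) (g : P2) : tr (-p) (tr p g) = g := by
  have : (tr (-p)).comp (tr p) = AlgHom.id ℂ P2 := by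
    ext k : 1
    simp [tr]
  exact AlgHom.congr_fun this g

lemma tr_mem_pow {p q : Fin 2 → ℂ} {n : ℕ} {g : P2} (hg : g ∈ mi (q + p) ^ n) :
    tr p g ∈ mi q ^ n := by
  have h1 : (mi (q + p)).map (tr p) ≤ mi q := by
    rw [mi, Ideal.map_span, Ideal.span_le]
    rintro _ ⟨_, ⟨k, rfl⟩, rfl⟩
    convert X_sub_mem q k using 1
    simp [tr]
  refine Ideal.pow_right_mono h1 n ?_
  rw [← Ideal.map_pow]
  exact Ideal.mem_map_of_mem _ hg

lemma mem_pow_iff_tr {p : Fin 2 → ℂ} {n : ℕ} {g : P2} :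
    g ∈ mi p ^ n ↔ ∀ s : Fin 2 →₀ ℕ, s.degree < n → coeff s (tr p g) = 0 := by
  have h0 : mi 0 = idealOfVars (Fin 2) ℂ := by simp [mi, idealOfVars]
  rw [← mem_pow_idealOfVars_iff', ← h0]
  refine ⟨fun h => tr_mem_pow (by simpa using h), fun h => ?_⟩
  rw [← tr_tr p g]
  exact tr_mem_pow (by simpa using h)

lemma pderiv_tr (p : Fin 2 → ℂ) (k : Fin 2) (g : P2) : pderiv k (tr p g) = tr p (pderiv k g) := by
  have := chain (rz (pderiv k : Derivation ℂ P2 P2)) 0 (fun c => by simp)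
    (fun k => X k + C (p k)) g
  rw [cd_zero, map_zero, zero_add] at this
  refine this.trans ?_
  fin_cases k <;> simp [Fin.sum_univ_two, tr]

lemma mem_pow_succ {p : Fin 2 → ℂ} {n : ℕ} {g : P2} (h0 : g ∈ mi p)
    (h : ∀ k, pderiv k g ∈ mi p ^ n) : g ∈ mi p ^ (n + 1) := by
  rw [← pow_one (mi p)] at h0
  simp only [mem_pow_iff_tr] at h0 h ⊢
  intro s hs
  by_cases h1 : s = 0
  · exact h0 s (by simp [h1])
  obtain ⟨k, hk⟩ : ∃ k, s k ≠ 0 := by
    by_contra h2
    push Not at h2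
    exact h1 (Finsupp.ext h2)
  obtain ⟨t, rfl⟩ : ∃ t, s = t + Finsupp.single k 1 :=
    ⟨s - Finsupp.single k 1, (tsub_add_cancel_of_le (Finsupp.single_le_iff.2 (by omega))).symm⟩
  have h2 := h k t (by simp at hs; omega)
  rw [← pderiv_tr, coeff_pderiv, mul_eq_zero] at h2
  exact h2.resolve_right (Nat.cast_add_one_ne_zero _)

lemma totalDegree_tr_le (p : Fin 2 → ℂ) (g : P2) : (tr p g).totalDegree ≤ g.totalDegree := by
  conv_lhs => rw [g.as_sum, map_sum]
  refine totalDegree_finsetSum_le fun s hs => (le_trans ?_ (le_totalDegree hs))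
  rw [tr, aeval_monomial, algebraMap_eq, Finsupp.prod_fintype _ _ (by simp),
    Finsupp.sum_fintype _ _ (by simp)]
  refine (totalDegree_mul _ _).trans ?_
  rw [totalDegree_C, zero_add]
  refine (totalDegree_finsetProd _ _).trans (Finset.sum_le_sum fun k _ => ?_)
  refine (totalDegree_pow _ _).trans ?_
  have := totalDegree_add (X k : P2) (C (p k))
  rw [totalDegree_X, totalDegree_C] at this
  simpa using Nat.mul_le_mul_left (s k) this

lemma totalDegree_tr (p : Fin 2 → ℂ) (g : P2) : (tr p g).totalDegree = g.totalDegree :=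
  le_antisymm (totalDegree_tr_le p g) (by
    conv_lhs => rw [← tr_tr p g]
    exact totalDegree_tr_le _ _)

/-- Blowing up the origin: `X = U`, `Y = T U`. -/
def io0 : P2 →ₐ[ℂ] Polynomial (Polynomial ℂ) :=
  aeval ![Polynomial.X, Polynomial.C Polynomial.X * Polynomial.X]

lemma io0_monomial (s : Fin 2 →₀ ℕ) (c : ℂ) :
    io0 (monomial s c) = Polynomial.monomial (s 0 + s 1) (Polynomial.monomial (s 1) c) := by
  rw [io0, aeval_monomial, Finsupp.prod_fintype _ _ (by simp), Fin.prod_univ_two,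
    ← Polynomial.C_mul_X_pow_eq_monomial, ← Polynomial.C_mul_X_pow_eq_monomial]
  simp [mul_pow, pow_add]
  ring

lemma degree_two (s : Fin 2 →₀ ℕ) : s.degree = s 0 + s 1 := by
  rw [Finsupp.degree_eq_sum, Fin.sum_univ_two]

lemma coeff_io0 (g : P2) (s : Fin 2 →₀ ℕ) : ((io0 g).coeff s.degree).coeff (s 1) = coeff s g := by
  conv_lhs => rw [g.as_sum, map_sum]
  rw [Polynomial.finsetSum_coeff, Polynomial.finsetSum_coeff, Finset.sum_eq_single s]
  · simp [io0_monomial, degree_two]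
  · intro t _ hts
    rw [io0_monomial, degree_two, Polynomial.coeff_monomial]
    split_ifs with h
    · rw [Polynomial.coeff_monomial, if_neg]
      intro h1
      apply hts
      ext k
      fin_cases k
      · simp; omega
      · simpa using h1
    · simp
  · intro h
    simp [notMem_support_iff.1 h]

lemma coeff_io0_eq_zero {g : P2} {n : ℕ} :
    (io0 g).coeff n = 0 ↔ ∀ s : Fin 2 →₀ ℕ, s.degree = n → coeff s g = 0 := by
  refine ⟨fun h s hs => by rw [← coeff_io0, hs, h, Polynomial.coeff_zero], fun h => ?_⟩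
  rw [g.as_sum, map_sum, Polynomial.finsetSum_coeff]
  refine Finset.sum_eq_zero fun s _ => ?_
  rw [io0_monomial, Polynomial.coeff_monomial]
  split_ifs with h1
  · rw [h s (by rw [degree_two, h1]), map_zero]
  · rfl

/-- Blowing up the point `p`. -/
def io (p : Fin 2 → ℂ) : P2 →ₐ[ℂ] Polynomial (Polynomial ℂ) := io0.comp (tr p)

lemma io_ne_zero (p : Fin 2 → ℂ) {g : P2} (hg : g ≠ 0) : io p g ≠ 0 := fun h => hg (by
  have h1 : tr p g = 0 := by
    ext s
    have h2 : io0 (tr p g) = 0 := h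
    rw [← coeff_io0, h2]; simp
  rw [← tr_tr p g, h1, map_zero])

lemma natDegree_io (p : Fin 2 → ℂ) (g : P2) : (io p g).natDegree = g.totalDegree := by
  rw [← totalDegree_tr p g]
  change (io0 (tr p g)).natDegree = _
  generalize tr p g = h
  apply le_antisymm
  · rw [Polynomial.natDegree_le_iff_coeff_eq_zero]
    intro n hn
    rw [coeff_io0_eq_zero]
    intro s hs
    exact coeff_eq_zero_of_totalDegree_lt (by rw [← hs] at hn; exact hn)
  · rw [totalDegree, Finset.sup_le_iff]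
    intro s hs
    refine Polynomial.le_natDegree_of_ne_zero fun h0 => mem_support_iff.1 hs ?_
    exact coeff_io0_eq_zero.1 h0 s rfl

/-- Multiplicity at a point. -/
def mult (p : Fin 2 → ℂ) (g : P2) : ℕ := (io p g).natTrailingDegree

lemma mem_pow_iff {p : Fin 2 → ℂ} {g : P2} (hg : g ≠ 0) {n : ℕ} : g ∈ mi p ^ n ↔ n ≤ mult p g := by
  rw [mem_pow_iff_tr]
  constructor
  · intro h
    refine Polynomial.le_natTrailingDegree (io_ne_zero p hg) fun k hk => ?_
    exact coeff_io0_eq_zero.2 fun s hs => h s (by omega)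
  · intro h s hs
    have := Polynomial.coeff_eq_zero_of_lt_natTrailingDegree (hs.trans_le h)
    exact coeff_io0_eq_zero.1 this s rfl

lemma mult_le (p : Fin 2 → ℂ) (g : P2) : mult p g ≤ g.totalDegree :=
  natDegree_io p g ▸ Polynomial.natTrailingDegree_le_natDegree _

end Pool.Agent.Lib.MP_3c72fe_ag
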