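import Pool.Agent.Lib.MP_3c72fe_ag.Mk

open Filter Set WithZero Module Finsupp IntermediateField MvPolynomial
open Pool.Agent.Lib.MP_cc3443_ag

noncomputable section

namespace Pool.Agent.Lib.MP_3c72fe_ag

variable {K : Type} [Field K] [Algebra ℂ K] [IsFF K]

lemma wedge_mem {P : Place K} {D : Derivation ℂ K K} (hD : D ≠ 0) {Δ : ZD K}
    (hΔ : ∀ (n : ℤ) (z : K), z ∈ Ge P n → Δ z ∈ Ge P n) {a b : K} {h : ℤ} (h1 : 1 ≤ h)
    (ha : P.ord a = -h) (hb : b ∈ Ge P (-h)) :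
    D b * Δ a - D a * Δ b ∈ Ge P (P.ord (D P.unif) - 3 * h) := by
  have h0 : a ≠ 0 := by rintro rfl; simp at ha; omega
  have ha' : a ∈ Ge P (-h) := mem_Ge_of_le ha.ge
  obtain ⟨s, hs, rfl⟩ : ∃ s ∈ Ge P 0, b = a * s :=
    ⟨b / a, Ge_mono (by omega) (Ge_div hb a), by field_simp⟩
  have : D (a * s) * Δ a - D a * Δ (a * s) = a * (D s * Δ a - D a * Δ s) := by
    rw [D.leibniz, Δ.leibniz]; simp only [smul_eq_mul]; ring
  rw [this]
  have h2 : D s * Δ a ∈ Ge P (P.ord (D P.unif) - 2 * h) :=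
    Ge_mul' (der_mem_zero hD hs) (hΔ _ _ ha') (by omega)
  have h3 : D a * Δ s ∈ Ge P (P.ord (D P.unif) - 2 * h) :=
    Ge_mul' (der_mem hD ha') (hΔ _ _ hs) (by omega)
  exact Ge_mul' ha' (sub_mem h2 h3) (by omega)

lemma pderiv_comm (g : P2) : pderiv 0 (pderiv 1 g) = pderiv 1 (pderiv 0 g) := by
  ext s
  simp only [coeff_pderiv, add_right_comm s]
  simp
  ring

namespace Crv

variable (c : Crv K)

lemma exists_tangent {q : Fin 2 → ℂ} (hq : c.f ∈ mi q) : ∃ D : Derivation ℂ K K, D ≠ 0 ∧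
    D (c.ξ 0) = aeval c.ξ (pderiv 1 c.f) ∧ D (c.ξ 1) = -aeval c.ξ (pderiv 0 c.f) := by
  obtain ⟨D, hD⟩ := exists_der (K := K)
  have h0 := deriv_ne_zero hD (c.transc 0)
  have h1 := chain (rz D) 0 (fun a => by simp) c.ξ c.f
  simp only [c.ev_f, map_zero, cd_zero, Fin.sum_univ_two, rz_apply, zero_add] at h1
  have h2 : aeval c.ξ (pderiv 1 c.f) ≠ 0 := fun h => by
    obtain ⟨k, hk⟩ := exists_not_dvd_pderiv c.prime.ne_zero hq
    rw [h, zero_mul, add_zero, eq_comm, mul_eq_zero] at h1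
    fin_cases k
    exacts [hk ((c.ker _).1 (h1.resolve_right h0)), hk ((c.ker _).1 h)]
  have h3 : ((aeval c.ξ (pderiv 1 c.f) / D (c.ξ 0)) • D) (c.ξ 0) = aeval c.ξ (pderiv 1 c.f) := by
    simp [h0]
  refine ⟨_, fun h => h2 (by rw [← h3, h]; rfl), h3, ?_⟩
  rw [Derivation.smul_apply, smul_eq_mul]
  field_simp
  linear_combination -h1

variable {ι : Type} [Fintype ι] [DecidableEq ι] {p : ι → Fin 2 → ℂ}

/-- First order deformations of the curve are equigeneric. -/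
lemma equigeneric (hp : Function.Injective p) {q : Fin 2 → ℂ} (hq : c.f ∈ mi q) :
    ∃ W : Place K →₀ ℤ, degree W ≤ -2 * chi K ∧ ∀ (δ : ZD ℂ) (n : ι → ℕ),
      (∀ i, n i = 0 ∨ (n i = 1 ∧ ∀ k, δ (p i k) = 0)) →
      aeval c.ξ (cd δ c.f) ∈ LL (W + c.cls p 3 n) := by
  obtain ⟨D, hD, hD0, hD1⟩ := c.exists_tangent hq
  obtain ⟨W, hW, hW'⟩ := hur hD
  refine ⟨W, hW, fun δ n hn => mem_LL.2 fun P => ?_⟩
  obtain ⟨Δ₀, hΔ₀⟩ := exists_ext_field (K := K) δ
  have h1 := deriv_ne_zero hD P.transc_unif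
  let Δ : ZD K := Δ₀ - (Δ₀ P.unif / D P.unif) • rz D
  have h2 : ∀ a, Δ (algebraMap ℂ K a) = algebraMap ℂ K (δ a) := fun a => by simp [Δ, hΔ₀]
  have h3 : Δ P.unif = 0 := by simp [Δ, h1]
  have h4 : ∀ (n : ℤ) (z : K), z ∈ Ge P n → Δ z ∈ Ge P n := fun n z hz => zd_mem h2 h3 hz
  have h5 : aeval c.ξ (cd δ c.f) = D (c.ξ 1) * Δ (c.ξ 0) - D (c.ξ 0) * Δ (c.ξ 1) := by
    have := chain Δ δ h2 c.ξ c.f
    rw [c.ev_f, map_zero, Fin.sum_univ_two] at this
    rw [hD0, hD1]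
    linear_combination -this
  have h6 := hW' P
  have h7 : c.H P = 0 → aeval c.ξ (cd δ c.f) ∈ Ge P (-W P) := fun h => by
    have h8 : ∀ k, c.ξ k ∈ Ge P 0 := fun k => by simpa [h] using c.mem_Ge_H P k
    rw [h5]
    exact sub_mem (Ge_mul' (der_mem_zero hD (h8 1)) (h4 _ _ (h8 0)) (by omega))
      (Ge_mul' (der_mem_zero hD (h8 0)) (h4 _ _ (h8 1)) (by omega))
  rw [cls, Finsupp.add_apply, Finsupp.sub_apply, Finsupp.smul_apply]
  by_cases h8 : ∃ j, 0 < c.D (p j) P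
  · obtain ⟨j, hj⟩ := h8
    have h9 := c.H_eq_zero hj
    rw [c.sum_D_apply hp _ hj, h9]
    rcases hn j with h | ⟨h, h'⟩
    · simpa [h] using h7 h9
    · have h10 : ∀ k, c.ξ k - algebraMap ℂ K (p j k) ∈ Ge P (c.D (p j) P) := fun k => by
        simpa [h9] using c.sub_mem_Ge (p j) P k
      have h11 : ∀ k, Δ (c.ξ k) ∈ Ge P (c.D (p j) P) := fun k => by
        simpa [h2, h'] using h4 _ _ (h10 k)
      have h12 : ∀ k, D (c.ξ k) ∈ Ge P (c.D (p j) P - 1 + P.ord (D P.unif)) := fun k => by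
        simpa using der_mem hD (h10 k)
      rw [h5, h]
      exact sub_mem (Ge_mul' (h12 1) (h11 0) (by simp; omega))
        (Ge_mul' (h12 0) (h11 1) (by simp; omega))
  · rw [c.sum_D_apply' _ (not_exists.1 h8)]
    by_cases h9 : c.H P = 0
    · simpa [h9] using h7 h9
    have h10 := c.H_nonneg P
    have h11 := c.H_apply P
    rw [h5]
    by_cases h12 : P.ord (c.ξ 0) = -c.H P
    · exact Ge_mono (by simp; omega) (wedge_mem hD h4 (by omega) h12 (c.mem_Ge_H P 1))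
    · have h13 := wedge_mem hD h4 (h := c.H P) (by omega) (a := c.ξ 1) (by omega) (c.mem_Ge_H P 0)
      rw [← neg_sub (D (c.ξ 0) * Δ (c.ξ 1))]
      exact neg_mem (Ge_mono (by simp; omega) h13)

/-- Multiplicities of the curve. -/
def m (p : ι → Fin 2 → ℂ) (i : ι) : ℕ := mult (p i) c.f

/-- Degree of the curve. -/
def d : ℕ := c.f.totalDegree

/-- Normal bundle of the strict transform. -/
def A (p : ι → Fin 2 → ℂ) : Place K →₀ ℤ := c.cls p c.d (c.m p)

lemma f_mem (i : ι) {n : ℕ} (h : n ≤ c.m p i) : c.f ∈ mi (p i) ^ n :=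
  (mem_pow_iff c.prime.ne_zero).2 h

lemma degree_D' (i : ι) : degree (c.D (p i)) = c.m p i := c.degree_D _

lemma degree_A : degree (c.A p) = (c.d : ℤ) ^ 2 - ∑ i, (c.m p i : ℤ) ^ 2 := by
  simp [A, degree_cls, sq, d, m]

lemma cls_update (e : ℕ) (n : ι → ℕ) (j : ι) (a : ℕ) :
    c.cls p e (Function.update n j a) = c.cls p e n + ((n j : ℤ) - a) • c.D (p j) := by
  simp only [cls]
  rw [← Finset.add_sum_erase _ _ (Finset.mem_univ j), ← Finset.add_sum_erase _ _ (Finset.mem_univ j),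
    Finset.sum_congr rfl fun i hi => by rw [Function.update_of_ne (Finset.ne_of_mem_erase hi)]]
  simp only [Function.update_self, sub_smul]
  abel

/-- Curves of the same degree with the same multiplicities away from the point `j`. -/
def V (p : ι → Fin 2 → ℂ) (j : ι) : Submodule ℂ P2 where
  carrier := {g | g.totalDegree ≤ c.d ∧ ∀ i, i ≠ j → g ∈ mi (p i) ^ c.m p i}
  add_mem' := fun ha hb => ⟨(totalDegree_add _ _).trans (max_le ha.1 hb.1),
    fun i hi => add_mem (ha.2 i hi) (hb.2 i hi)⟩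
  zero_mem' := ⟨by simp, fun _ _ => zero_mem _⟩
  smul_mem' := fun a g hg => ⟨(totalDegree_smul_le _ _).trans hg.1, fun i hi => by
    rw [smul_eq_C_mul]; exact Ideal.mul_mem_left _ _ (hg.2 i hi)⟩

lemma f_mem_V (j : ι) : c.f ∈ c.V p j := ⟨le_rfl, fun i _ => c.f_mem i le_rfl⟩

lemma cd_mem_V {j : ι} {δ : ZD ℂ} (hδ : ∀ i, i ≠ j → ∀ k, δ (p i k) = 0) {g : P2}
    (hg : g ∈ c.V p j) : cd δ g ∈ c.V p j :=
  ⟨(totalDegree_cd _ _).trans hg.1, fun i hi => cd_mem_of_fix (hδ i hi) (hg.2 i hi)⟩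

lemma ev_mem_V (hp : Function.Injective p) {j : ι} {g : P2} (hg : g ∈ c.V p j) {a : ℕ}
    (ha : g ∈ mi (p j) ^ a) : aeval c.ξ g ∈ LL (c.A p + ((c.m p j : ℤ) - a) • c.D (p j)) := by
  rw [A, ← cls_update]
  refine c.ev_mem_LL hp hg.1 fun i => ?_
  by_cases hi : i = j
  · subst hi; simpa using ha
  · rw [Function.update_of_ne hi]; exact hg.2 i hi

lemma sec_mem (hp : Function.Injective p) {j : ι} (hj : 1 ≤ c.m p j) {δ : ZD ℂ}
    (hδ : ∀ i, i ≠ j → ∀ k, δ (p i k) = 0) : aeval c.ξ (cd δ c.f) ∈ LL (c.A p + c.D (p j)) := by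
  have := c.ev_mem_V hp (c.cd_mem_V hδ (c.f_mem_V j)) (a := c.m p j - 1)
    (der_pow_mem (cd δ) _ _ (c.f_mem j (by omega)))
  rwa [Nat.cast_sub hj, Nat.cast_one, sub_sub_cancel, one_smul] at this

lemma fix_of_ev {δ : ZD ℂ} (h : aeval c.ξ (cd δ c.f) = 0) {j : ι} (hj : 2 ≤ c.m p j) (k : Fin 2) :
    δ (p j k) = 0 := rigid c.prime ((c.ker _).1 h) (c.f_mem j hj) k

lemma exists_simple (hp : VG p) {j : ι} (hj : c.m p j = 1) : ∃ δ : ZD ℂ,
    (∀ i, i ≠ j → ∀ k, δ (p i k) = 0) ∧ eval (p j) (dv (fun k => δ (p j k)) c.f) ≠ 0 := by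
  obtain ⟨k, hk⟩ : ∃ k, eval (p j) (pderiv k c.f) ≠ 0 := by
    by_contra h
    push Not at h
    have := (mem_pow_iff c.prime.ne_zero).1 (mem_pow_succ (n := 1)
      (by simpa using c.f_mem j hj.ge) fun k => by simpa using mem_mi.2 (h k))
    unfold m at hj
    omega
  obtain ⟨δ, h1, h2⟩ := hp.single j (Pi.single k 1)
  refine ⟨δ, h2, ?_⟩
  fin_cases k <;> simpa [dv_apply, h1] using hk

/-- With negative self-intersection, curves of the system have arbitrary tangent at `p j`. -/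
lemma exists_grad (hp : VG p) (hA : degree (c.A p) < 0) {j : ι} (hj : 2 ≤ c.m p j)
    {v : Fin 2 → ℂ} (hv : v ≠ 0) : ∃ g ∈ c.V p j, g ∈ mi (p j) ∧ eval (p j) (dv v g) ≠ 0 := by
  have hinj : Function.Injective p := fun i i' h => by
    by_contra h'
    exact hp.ne h' 0 (by rw [h])
  by_contra h
  push Not at h
  have h1 : ∀ n : ℕ, ∀ g ∈ c.V p j, g ∈ mi (p j) ^ (n + 1) → dv v g ∈ mi (p j) ^ (n + 1) := by
    intro n
    induction n with
    | zero => exact fun g hg hg' => by simpa using mem_mi.2 (h g hg (by simpa using hg'))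
    | succ n ih =>
      intro g hg hg'
      refine mem_pow_succ (Ideal.pow_le_self (by omega) (dv_mem _ hg')) fun k => ?_
      obtain ⟨δ, h2, h3⟩ := hp.single j (Pi.single k 1)
      have h4 := ih _ (c.cd_mem_V h3 hg) (der_pow_mem (cd δ) _ _ hg')
      have h5 := sub_mem (dv_mem (dv v) (cd_add_dv_mem δ hg')) h4
      rw [map_add, add_sub_cancel_left] at h5
      convert h5 using 1
      fin_cases k <;> simp [dv_apply, h2, pderiv_comm]
  obtain ⟨δ, h2, h3⟩ := hp.single j v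
  have h4 := h1 (c.m p j - 1) _ (c.f_mem_V j) (c.f_mem j (by omega))
  have h5 := cd_add_dv_mem δ (c.f_mem (p := p) j (n := c.m p j - 1 + 1) (by omega))
  rw [funext h2] at h5
  have h6 := c.ev_mem_V hinj (c.cd_mem_V h3 (c.f_mem_V j)) (by simpa using sub_mem h5 h4)
  rw [Nat.sub_add_cancel (by omega), sub_self, zero_smul, add_zero] at h6
  exact hv (funext fun k => (h2 k).symm.trans (c.fix_of_ev (eq_zero_of_mem h6 hA) hj k))

lemma exists_uv (hp : VG p) (hA : degree (c.A p) < 0) {j : ι} (hj : 2 ≤ c.m p j) :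
    ∃ u : Fin 2 → P2, ∀ k, u k ∈ c.V p j ∧ u k - (X k - C (p j k)) ∈ mi (p j) ^ 2 := by
  obtain ⟨g, hg, hg0, hg1⟩ := c.exists_grad hp hA hj (v := ![1, 0]) (by simp)
  simp [dv_apply] at hg1
  obtain ⟨g', hg', hg0', hg1'⟩ := c.exists_grad hp hA hj
    (v := ![-eval (p j) (pderiv 1 g), eval (p j) (pderiv 0 g)]) (by simp [hg1])
  simp only [dv_apply, Matrix.cons_val_zero, Matrix.cons_val_one, map_add, smul_eval] at hg1'
  set a := eval (p j) (pderiv 0 g) with ha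
  set b := eval (p j) (pderiv 1 g) with hb
  set a' := eval (p j) (pderiv 0 g') with ha'
  set b' := eval (p j) (pderiv 1 g') with hb'
  set e := -b * a' + a * b' with he
  refine ⟨![(b' / e) • g + (-b / e) • g', (-a' / e) • g + (a / e) • g'], fun k => ⟨?_, ?_⟩⟩
  · fin_cases k <;> exact add_mem (Submodule.smul_mem _ _ hg) (Submodule.smul_mem _ _ hg')
  · refine mem_pow_succ (n := 1) (mem_mi.2 ?_) fun l => ?_
    · fin_cases k <;> simp [mem_mi.1 hg0, mem_mi.1 hg0']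
    · rw [pow_one, mem_mi]
      fin_cases k <;> fin_cases l <;> simp [← ha, ← hb, ← ha', ← hb'] <;> field_simp <;>
        rw [he] <;> ring

end Crv

end Pool.Agent.Lib.MP_3c72fe_ag
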